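import Pool.Agent.Helper31K9.SR.St

/-!
# The leaf CNT of project SR: expected number of crossings of a given level
-/

set_option autoImplicit false

namespace Pool.Agent.Helper31K9.SR

open Finset MeasureTheory Filter Topology
open Pool.Agent.H189R2.Lev (ht cr)
open Pool.Agent.H189R2.Iid
open Pool.Agent.Results.MP_a08d0a_co.IidLevel (Simple level psi sl ic)
open scoped ENNReal

namespace CntL

variable {n : ℕ}

theorem pr_eq (μ : Fin n → Measure (ℝ × ℝ)) (p q : ℝ × ℝ) (l : Fin n) :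
    pr μ (X2 p q) (Y2 p q) l = FF (μ l) p q := rfl

theorem pr_nonneg (μ : Fin n → Measure (ℝ × ℝ)) (x y : ℝ) (l : Fin n) : 0 ≤ pr μ x y l :=
  ENNReal.toReal_nonneg

theorem pr_le_one (μ : Fin n → Measure (ℝ × ℝ)) (hp : ∀ l, IsProbabilityMeasure (μ l)) (x y : ℝ)
    (l : Fin n) : pr μ x y l ≤ 1 :=
  have := hp l
  ENNReal.toReal_le_of_le_ofReal zero_le_one (by simpa using prob_le_one)

theorem mean_nonneg (μ : Fin n → Measure (ℝ × ℝ)) (x y : ℝ) : 0 ≤ mean μ x y :=
  sum_nonneg (fun l _ => pr_nonneg μ x y l)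

theorem mean_le (μ : Fin n → Measure (ℝ × ℝ)) (hp : ∀ l, IsProbabilityMeasure (μ l)) (x y : ℝ) :
    mean μ x y ≤ n := by
  unfold mean
  calc ∑ l, pr μ x y l ≤ ∑ _l : Fin n, (1:ℝ) := sum_le_sum (fun l _ => pr_le_one μ hp x y l)
    _ = n := by simp

theorem meas_mean (μ : Fin n → Measure (ℝ × ℝ)) (hp : ∀ l, IsProbabilityMeasure (μ l))
    (i j : Fin n) :
    Measurable (fun P : Fin n → ℝ × ℝ => mean μ (X2 (P i) (P j)) (Y2 (P i) (P j))) := by
  unfold mean
  refine Finset.measurable_sum _ (fun l _ => ?_)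
  have := hp l
  have h := (measurable_FF (μ := μ l)).comp
    ((measurable_pi_apply i).prodMk (measurable_pi_apply j) :
      Measurable (fun P : Fin n → ℝ × ℝ => (P i, P j)))
  exact h

theorem meas_WS (μ : Fin n → Measure (ℝ × ℝ)) (hp : ∀ l, IsProbabilityMeasure (μ l)) (t r : ℝ)
    (i j : Fin n) : MeasurableSet (WS μ t r i j) :=
  (meas_Ev2 MeasurableSet.univ i j).inter
    (measurableSet_le ((meas_mean μ hp i j).sub measurable_const).abs measurable_const)

open Classical in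
/-- expected number of pairs of level `k` -/
theorem E_lev' (μ : Fin n → Measure (ℝ × ℝ)) (k : ℕ) :
    ∫⁻ P, (((T P).filter (fun q => lev P q = k)).card : ℝ≥0∞) ∂Measure.pi μ =
      ∑ q ∈ (univ : Finset (Fin n)).offDiag, Measure.pi μ
        {P | P ∈ Ev2 Set.univ q.1 q.2 ∧ lev P (q.1, q.2) = k} := by
  set π := Measure.pi μ with hπ
  have hm : ∀ q : Fin n × Fin n, MeasurableSet
      {P : Fin n → ℝ × ℝ | P ∈ Ev2 Set.univ q.1 q.2 ∧ lev P (q.1, q.2) = k} := fun q =>
    (meas_Ev2 MeasurableSet.univ q.1 q.2).inter ((measurable_lev q) (measurableSet_singleton k))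
  have h1 : ∀ P : Fin n → ℝ × ℝ, (T P).filter (fun q => lev P q = k) =
      univ.filter (fun q : Fin n × Fin n =>
        P ∈ {P | P ∈ Ev2 Set.univ q.1 q.2 ∧ lev P (q.1, q.2) = k}) := by
    intro P
    ext q
    rw [mem_filter, mem_T, mem_filter]
    constructor
    · rintro ⟨h1, h2⟩; exact ⟨mem_univ _, ⟨h1, trivial⟩, h2⟩
    · rintro ⟨_, ⟨h1, _⟩, h2⟩; exact ⟨h1, h2⟩
  simp_rw [h1]
  rw [lintegral_card π (fun q : Fin n × Fin n =>
    {P | P ∈ Ev2 Set.univ q.1 q.2 ∧ lev P (q.1, q.2) = k}) hm]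
  symm
  apply sum_subset (subset_univ _)
  intro q _ hq
  rw [mem_offDiag] at hq
  simp only [mem_univ, true_and, not_not] at hq
  have : {P : Fin n → ℝ × ℝ | P ∈ Ev2 Set.univ q.1 q.2 ∧ lev P (q.1, q.2) = k} = ∅ := by
    ext P
    constructor
    · rintro ⟨h1, _⟩
      have := h1.1
      rw [hq] at this
      exact absurd this (lt_irrefl _)
    · intro h; exact absurd h (Set.notMem_empty _)
  rw [this, measure_empty]

/-- dyadic position of a nonnegative real -/
theorem exists_b {s w : ℝ} (hs : 1 ≤ s) {K : ℕ} (hw : w ≤ 2 ^ K) :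
    ∃ b ≤ K, w ≤ 2 ^ b * s ∧ (b = 0 ∨ 2 ^ b * s < 2 * w) := by
  classical
  have hex : ∃ b : ℕ, w ≤ 2 ^ b * s := ⟨K, hw.trans (le_mul_of_one_le_right (by positivity) hs)⟩
  refine ⟨Nat.find hex, Nat.find_min' hex (hw.trans (le_mul_of_one_le_right (by positivity) hs)),
    Nat.find_spec hex, ?_⟩
  rcases Nat.eq_zero_or_pos (Nat.find hex) with h | h
  · exact Or.inl h
  · right
    obtain ⟨m, hm⟩ := Nat.exists_eq_succ_of_ne_zero h.ne'
    have := Nat.find_min hex (m := m) (by omega)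
    push Not at this
    rw [hm, Nat.succ_eq_add_one, pow_succ]
    linarith

/-- pointwise domination -/
theorem dom {C κ s k f pbv : ℝ} {K N : ℕ} (hk : 0 ≤ k) (hC : 0 < C) (hκ : 0 < κ) (hs : 1 ≤ s)
    (hf : 0 ≤ f) (hfN : f ≤ N) (hK : (k + 1) / 2 ≤ 2 ^ K)
    (h1 : |f - k| ≤ (k + 1) / 2 → pbv * s ≤ C ∧ pbv * |f - k| ≤ C)
    (h2 : (k + 1) / 2 < |f - k| → pbv ≤ C * Real.exp (-(κ * (f + k)))) :
    pbv ≤ ∑ b ∈ range (K + 1), 2 * C / (2 ^ b * s) *
        (if |f - (k + 1)| ≤ min (2 * (2 ^ b * s)) (k + 1) then 1 else 0) +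
      ∑ m ∈ range (N + 1), C * Real.exp (-(κ * k)) * Real.exp (-κ) ^ m *
        (if |f - 0| ≤ (m : ℝ) + 1 then 1 else 0) := by
  classical
  have n1 : ∀ b ∈ range (K + 1), 0 ≤ 2 * C / (2 ^ b * s) *
        (if |f - (k + 1)| ≤ min (2 * (2 ^ b * s)) (k + 1) then (1:ℝ) else 0) := by
    intro b _
    have : 0 < 2 * C / (2 ^ b * s) := by positivity
    split_ifs
    · linarith
    · simp
  have n2 : ∀ m ∈ range (N + 1), 0 ≤ C * Real.exp (-(κ * k)) * Real.exp (-κ) ^ m *
        (if |f - 0| ≤ (m : ℝ) + 1 then (1:ℝ) else 0) := by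
    intro m _
    have : 0 < C * Real.exp (-(κ * k)) * Real.exp (-κ) ^ m := by positivity
    split_ifs
    · linarith
    · simp
  by_cases hc : |f - k| ≤ (k + 1) / 2
  · obtain ⟨g1, g2⟩ := h1 hc
    obtain ⟨b, hb, hb1, hb2⟩ := exists_b (w := |f - k|) hs (hc.trans hK)
    have h3 : pbv ≤ 2 * C / (2 ^ b * s) := by
      rw [le_div_iff₀ (by positivity)]
      rcases hb2 with h | h
      · rw [h, pow_zero, one_mul]; linarith
      · rcases le_or_gt pbv 0 with h0 | h0
        · have : pbv * (2 ^ b * s) ≤ 0 := mul_nonpos_of_nonpos_of_nonneg h0 (by positivity)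
          linarith
        · nlinarith
    have h4 : |f - (k + 1)| ≤ min (2 * (2 ^ b * s)) (k + 1) := by
      have h5 : (1:ℝ) ≤ 2 ^ b := one_le_pow₀ (by norm_num)
      have h6 : 1 ≤ 2 ^ b * s := by nlinarith
      rw [abs_le] at hc hb1
      apply le_min
      · rw [abs_le]; constructor <;> linarith [hb1.1, hb1.2]
      · rw [abs_le]; constructor <;> linarith [hc.1, hc.2]
    have h5 := single_le_sum n1 (mem_range.mpr (by omega : b < K + 1))
    rw [if_pos h4, mul_one] at h5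
    have h6 := sum_nonneg n2
    linarith
  · push Not at hc
    have h3 := h2 hc
    set m := ⌊f⌋₊ with hm
    have hm1 : (m:ℝ) ≤ f := Nat.floor_le hf
    have hm2 : f < m + 1 := Nat.lt_floor_add_one f
    have hmN : m ≤ N := by
      have : (m:ℝ) ≤ N := hm1.trans hfN
      exact_mod_cast this
    have h5 := single_le_sum n2 (mem_range.mpr (by omega : m < N + 1))
    rw [if_pos (by rw [sub_zero, abs_of_nonneg hf]; exact hm2.le), mul_one] at h5
    have h6 := sum_nonneg n1
    have h7 : C * Real.exp (-(κ * (f + k))) ≤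
        C * Real.exp (-(κ * k)) * Real.exp (-κ) ^ m := by
      rw [mul_assoc]
      apply mul_le_mul_of_nonneg_left _ hC.le
      rw [← Real.exp_nat_mul, ← Real.exp_add]
      apply Real.exp_le_exp.mpr
      have : κ * (m:ℝ) ≤ κ * f := mul_le_mul_of_nonneg_left hm1 hκ.le
      nlinarith
    linarith

/-- the integral of one layer -/
theorem layer_int (μ : Fin n → Measure (ℝ × ℝ)) (hp : ∀ l, IsProbabilityMeasure (μ l)) (t r : ℝ)
    {i j : Fin n} {w : ℝ} (hw : 0 ≤ w)
    [∀ P : Fin n → ℝ × ℝ, Decidable (|mean μ (X2 (P i) (P j)) (Y2 (P i) (P j)) - t| ≤ r)] :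
    ∫⁻ P in Ev2 Set.univ i j, ENNReal.ofReal
      (w * (if |mean μ (X2 (P i) (P j)) (Y2 (P i) (P j)) - t| ≤ r then 1 else 0)) ∂Measure.pi μ =
      ENNReal.ofReal (w * (Measure.pi μ (WS μ t r i j)).toReal) := by
  have hS : MeasurableSet {P : Fin n → ℝ × ℝ |
      |mean μ (X2 (P i) (P j)) (Y2 (P i) (P j)) - t| ≤ r} :=
    measurableSet_le ((meas_mean μ hp i j).sub measurable_const).abs measurable_const
  have e : ∀ P : Fin n → ℝ × ℝ, ENNReal.ofReal
      (w * (if |mean μ (X2 (P i) (P j)) (Y2 (P i) (P j)) - t| ≤ r then 1 else 0)) =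
      {P : Fin n → ℝ × ℝ | |mean μ (X2 (P i) (P j)) (Y2 (P i) (P j)) - t| ≤ r}.indicator
        (fun _ => ENNReal.ofReal w) P := by
    intro P
    by_cases h : |mean μ (X2 (P i) (P j)) (Y2 (P i) (P j)) - t| ≤ r
    · rw [if_pos h, mul_one, Set.indicator_of_mem (show P ∈ {P : Fin n → ℝ × ℝ |
        |mean μ (X2 (P i) (P j)) (Y2 (P i) (P j)) - t| ≤ r} from h)]
    · rw [if_neg h, mul_zero, ENNReal.ofReal_zero,
        Set.indicator_of_notMem (show P ∉ {P : Fin n → ℝ × ℝ |
        |mean μ (X2 (P i) (P j)) (Y2 (P i) (P j)) - t| ≤ r} from h)]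
  simp_rw [e]
  rw [lintegral_indicator_const hS, Measure.restrict_apply hS, ENNReal.ofReal_mul hw,
    ENNReal.ofReal_toReal (measure_ne_top _ _)]
  congr 2
  ext P
  constructor
  · rintro ⟨h1, h2⟩; exact ⟨h2, h1⟩
  · rintro ⟨h1, h2⟩; exact ⟨h2, h1⟩

theorem geom_le {r : ℝ} (h0 : 0 ≤ r) (h1 : r < 1) (J : ℕ) : ∑ b ∈ range J, r ^ b ≤ 1 / (1 - r) := by
  rw [geom_sum_eq h1.ne, ← neg_div_neg_eq, neg_sub, neg_sub]
  apply div_le_div_of_nonneg_right _ (by linarith)
  have := pow_nonneg h0 J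
  linarith

end CntL

open CntL in
theorem cnt (hlaw : S_LAW) (hwin : S_WIN) (hloc : S_LOC) : S_CNT := by
  classical
  obtain ⟨C, κ, hC, hκ, hloc⟩ := hloc
  set R : ℝ := 1 / (1 - Real.exp (-κ)) ^ 2 with hR
  have hr1 : Real.exp (-κ) < 1 := by
    rw [← Real.exp_zero]; exact Real.exp_lt_exp.mpr (by linarith)
  have hr0 : 0 < Real.exp (-κ) := Real.exp_pos _
  have hR0 : 0 < R := by
    rw [hR]
    have : 0 < 1 - Real.exp (-κ) := by linarith
    positivity
  refine ⟨10400 * C + 4 * C * R, by positivity, ?_⟩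
  intro n μ hp hLN k v hkn hv1 hvk hvar
  have hn2 : 2 ≤ n := by omega
  have hk0 : (0:ℝ) ≤ k := Nat.cast_nonneg k
  set s : ℝ := Real.sqrt v with hs
  have hs1 : 1 ≤ s := by
    rw [hs, Real.one_le_sqrt]; exact hv1
  set g : ℝ := v ^ (1 / 6 : ℝ) with hg
  have hv0 : 0 < v := by linarith
  have hg1 : 1 ≤ g := Real.one_le_rpow hv1 (by norm_num)
  have hg6 : g ^ 6 = v := by
    rw [hg, ← Real.rpow_natCast, ← Real.rpow_mul hv0.le]; norm_num
  have hsg : s = g ^ 3 := by
    rw [hs, ← hg6, show g ^ 6 = (g ^ 3) ^ 2 by ring, Real.sqrt_sq (by positivity)]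
  set c : ℝ := ((k:ℝ) + 1) ^ (1 / 3 : ℝ) with hc
  have hc3 : c ^ 3 = k + 1 := by
    rw [hc, ← Real.rpow_natCast, ← Real.rpow_mul (by positivity)]; norm_num
  have hc1 : 1 ≤ c := Real.one_le_rpow (by linarith) (by norm_num)
  have hgc : g ≤ c := by
    have h1 : g ^ 6 ≤ c ^ 6 := by
      rw [hg6, show c ^ 6 = (c ^ 3) ^ 2 by ring, hc3]
      nlinarith
    exact le_of_pow_le_pow_left₀ (by norm_num) (by linarith) h1
  obtain ⟨K, hK⟩ : ∃ K : ℕ, K = k := ⟨k, rfl⟩
  have hKk : ((k:ℝ) + 1) / 2 ≤ 2 ^ K := by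
    have : k + 1 ≤ 2 ^ k := Nat.lt_two_pow_self
    have h2 : ((k:ℝ) + 1) ≤ 2 ^ k := by exact_mod_cast this
    rw [hK]
    linarith
  -- the pointwise bound integrated
  have hpair : ∀ q ∈ (univ : Finset (Fin n)).offDiag,
      Measure.pi μ {P | P ∈ Ev2 Set.univ q.1 q.2 ∧ lev P (q.1, q.2) = k} ≤
      ENNReal.ofReal (∑ b ∈ range (K + 1), 2 * C / (2 ^ b * s) *
          (Measure.pi μ (WS μ ((k:ℝ) + 1) (min (2 * (2 ^ b * s)) (k + 1)) q.1 q.2)).toReal +
        ∑ m ∈ range (n + 1), C * Real.exp (-(κ * k)) * Real.exp (-κ) ^ m *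
          (Measure.pi μ (WS μ 0 ((m : ℝ) + 1) q.1 q.2)).toReal) := by
    rintro ⟨i, j⟩ hq
    rw [mem_offDiag] at hq
    have hij : i ≠ j := hq.2.2
    simp only
    refine (hlaw n μ hp i j hij k).trans ?_
    have n1 : ∀ b ∈ range (K + 1), 0 ≤ 2 * C / (2 ^ b * s) := by
      intro b _; positivity
    have n2 : ∀ m ∈ range (n + 1), 0 ≤ C * Real.exp (-(κ * k)) * Real.exp (-κ) ^ m := by
      intro m _; positivity
    have hmm : ∀ (t r w : ℝ), Measurable (fun P : Fin n → ℝ × ℝ => ENNReal.ofReal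
        (w * (if |mean μ (X2 (P i) (P j)) (Y2 (P i) (P j)) - t| ≤ r then 1 else 0))) := by
      intro t r w
      exact ((Measurable.ite (measurableSet_le ((meas_mean μ hp i j).sub measurable_const).abs
        measurable_const) measurable_const measurable_const).const_mul w).ennreal_ofReal
    calc ∫⁻ P in Ev2 Set.univ i j, ENNReal.ofReal
          (pb (univ \ {i, j}) (pr μ (X2 (P i) (P j)) (Y2 (P i) (P j))) k) ∂Measure.pi μ
        ≤ ∫⁻ P in Ev2 Set.univ i j,
          (∑ b ∈ range (K + 1), ENNReal.ofReal (2 * C / (2 ^ b * s) *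
            (if |mean μ (X2 (P i) (P j)) (Y2 (P i) (P j)) - ((k:ℝ) + 1)| ≤
              min (2 * (2 ^ b * s)) (k + 1) then 1 else 0)) +
          ∑ m ∈ range (n + 1), ENNReal.ofReal (C * Real.exp (-(κ * k)) * Real.exp (-κ) ^ m *
            (if |mean μ (X2 (P i) (P j)) (Y2 (P i) (P j)) - 0| ≤ (m : ℝ) + 1 then 1 else 0)))
            ∂Measure.pi μ := by
          apply lintegral_mono
          intro P
          beta_reduce
          have nn1 : ∀ b ∈ range (K + 1), 0 ≤ 2 * C / (2 ^ b * s) *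
            (if |mean μ (X2 (P i) (P j)) (Y2 (P i) (P j)) - ((k:ℝ) + 1)| ≤
              min (2 * (2 ^ b * s)) (k + 1) then (1:ℝ) else 0) := by
            intro b hb
            have := n1 b hb
            split_ifs
            · linarith
            · simp
          have nn2 : ∀ m ∈ range (n + 1), 0 ≤ C * Real.exp (-(κ * k)) * Real.exp (-κ) ^ m *
            (if |mean μ (X2 (P i) (P j)) (Y2 (P i) (P j)) - 0| ≤ (m : ℝ) + 1
              then (1:ℝ) else 0) := by
            intro m hm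
            have := n2 m hm
            split_ifs
            · linarith
            · simp
          rw [← ENNReal.ofReal_sum_of_nonneg nn1, ← ENNReal.ofReal_sum_of_nonneg nn2,
            ← ENNReal.ofReal_add (sum_nonneg nn1) (sum_nonneg nn2)]
          apply ENNReal.ofReal_le_ofReal
          obtain ⟨g1, g2⟩ := hloc n (pr μ (X2 (P i) (P j)) (Y2 (P i) (P j)))
            (fun l => ⟨pr_nonneg μ _ _ l, pr_le_one μ hp _ _ l⟩) i j hij k
          refine dom hk0 hC hκ hs1 (mean_nonneg μ _ _) (mean_le μ hp _ _) hKk ?_ ?_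
          · intro h
            exact g1 v hv1 (hvar _ _ h)
          · intro h
            exact g2 h
      _ = _ := by
          rw [lintegral_add_left (Finset.measurable_sum _ (fun b _ => hmm _ _ _)),
            lintegral_finsetSum _ (fun b _ => hmm _ _ _),
            lintegral_finsetSum _ (fun b _ => hmm _ _ _),
            ENNReal.ofReal_add
              (sum_nonneg (fun b hb => mul_nonneg (n1 b hb) ENNReal.toReal_nonneg))
              (sum_nonneg (fun b hb => mul_nonneg (n2 b hb) ENNReal.toReal_nonneg)),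
            ENNReal.ofReal_sum_of_nonneg
              (fun b hb => mul_nonneg (n1 b hb) ENNReal.toReal_nonneg),
            ENNReal.ofReal_sum_of_nonneg
              (fun b hb => mul_nonneg (n2 b hb) ENNReal.toReal_nonneg)]
          congr 1
          · exact sum_congr rfl (fun b hb => layer_int μ hp _ _ (n1 b hb))
          · exact sum_congr rfl (fun b hb => layer_int μ hp _ _ (n2 b hb))
  obtain ⟨hw1, hw2⟩ := hwin n μ hp hLN
  rw [E_lev' μ k]
  refine (sum_le_sum hpair).trans ?_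
  rw [← ENNReal.ofReal_sum_of_nonneg]
  swap
  · intro q _
    exact add_nonneg (sum_nonneg (fun b _ => mul_nonneg (by positivity) ENNReal.toReal_nonneg))
      (sum_nonneg (fun b _ => mul_nonneg (by positivity) ENNReal.toReal_nonneg))
  apply ENNReal.ofReal_le_ofReal
  rw [sum_add_distrib, sum_comm, sum_comm (s := offDiag univ) (t := range (n + 1))]
  simp_rw [← mul_sum]
  have hk1n : (k:ℝ) + 1 ≤ n := by exact_mod_cast (by omega : k + 1 ≤ n)
  have hnr : (0:ℝ) ≤ n := Nat.cast_nonneg n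
  -- first sum
  have hs1b : ∀ b ∈ range (K + 1), 2 * C / (2 ^ b * s) *
      ∑ q ∈ (univ : Finset (Fin n)).offDiag,
        (Measure.pi μ (WS μ ((k:ℝ) + 1) (min (2 * (2 ^ b * s)) (k + 1)) q.1 q.2)).toReal ≤
      2080 * C * n * (c / g) * (4 / 5) ^ b := by
    intro b _
    have h1 := hw1 ((k:ℝ) + 1) (min (2 * (2 ^ b * s)) (k + 1))
      (lt_min (by positivity) (by positivity)) (min_le_right _ _) hk1n
    have h2 : (((k:ℝ) + 1) * (min (2 * (2 ^ b * s)) (k + 1)) ^ 2) ^ (1 / 3 : ℝ) ≤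
        c * (8 / 5) ^ (b + 1) * g ^ 2 := by
      have h3 : ((k:ℝ) + 1) * (min (2 * (2 ^ b * s)) (k + 1)) ^ 2 ≤
          (c * (8 / 5) ^ (b + 1) * g ^ 2) ^ 3 := by
        have h4 : (min (2 * (2 ^ b * s)) ((k:ℝ) + 1)) ^ 2 ≤ (2 * (2 ^ b * s)) ^ 2 :=
          pow_le_pow_left₀ (le_min (by positivity) (by positivity)) (min_le_left _ _) 2
        have h5 : (2 * (2 ^ b * s)) ^ 2 = 4 ^ (b + 1) * v := by
          have : s ^ 2 = v := Real.sq_sqrt hv0.le
          rw [mul_pow, mul_pow, this, ← pow_mul, mul_comm b 2, pow_mul, pow_succ]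
          norm_num
          ring
        have h6 : (4:ℝ) ^ (b + 1) ≤ (((8:ℝ) / 5) ^ (b + 1)) ^ 3 := by
          rw [← pow_mul, mul_comm (b + 1) 3, pow_mul]
          exact pow_le_pow_left₀ (by norm_num) (by norm_num) _
        calc ((k:ℝ) + 1) * (min (2 * (2 ^ b * s)) (k + 1)) ^ 2
            ≤ ((k:ℝ) + 1) * (4 ^ (b + 1) * v) := by
              rw [← h5]
              exact mul_le_mul_of_nonneg_left h4 (by positivity)
          _ ≤ ((k:ℝ) + 1) * ((((8:ℝ) / 5) ^ (b + 1)) ^ 3 * v) := by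
              apply mul_le_mul_of_nonneg_left _ (by positivity)
              exact mul_le_mul_of_nonneg_right h6 hv0.le
          _ = _ := by
              rw [← hc3, ← hg6]; ring
      have h7 : (0:ℝ) ≤ ((k:ℝ) + 1) * (min (2 * (2 ^ b * s)) (k + 1)) ^ 2 := by positivity
      calc (((k:ℝ) + 1) * (min (2 * (2 ^ b * s)) (k + 1)) ^ 2) ^ (1 / 3 : ℝ)
          ≤ ((c * (8 / 5) ^ (b + 1) * g ^ 2) ^ 3) ^ (1 / 3 : ℝ) :=
            Real.rpow_le_rpow h7 h3 (by norm_num)
        _ = _ := by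
            rw [← Real.rpow_natCast, ← Real.rpow_mul (by positivity)]
            norm_num
    calc 2 * C / (2 ^ b * s) * ∑ q ∈ (univ : Finset (Fin n)).offDiag,
          (Measure.pi μ (WS μ ((k:ℝ) + 1) (min (2 * (2 ^ b * s)) (k + 1)) q.1 q.2)).toReal
        ≤ 2 * C / (2 ^ b * s) * (650 * n * (c * (8 / 5) ^ (b + 1) * g ^ 2)) := by
          apply mul_le_mul_of_nonneg_left _ (by positivity)
          refine h1.trans ?_
          exact mul_le_mul_of_nonneg_left h2 (by positivity)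
      _ = _ := by
          rw [hsg]
          have e1 : ((4:ℝ) / 5) ^ b = (8 / 5) ^ b / 2 ^ b := by
            rw [← div_pow]; norm_num
          rw [e1]
          field_simp
          rw [pow_succ]
          ring
  have hS1 : ∑ b ∈ range (K + 1), 2 * C / (2 ^ b * s) *
      ∑ q ∈ (univ : Finset (Fin n)).offDiag,
        (Measure.pi μ (WS μ ((k:ℝ) + 1) (min (2 * (2 ^ b * s)) (k + 1)) q.1 q.2)).toReal ≤
      10400 * C * n * (c / g) := by
    refine (sum_le_sum hs1b).trans ?_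
    rw [← mul_sum]
    have h1 := geom_le (by norm_num : (0:ℝ) ≤ 4 / 5) (by norm_num) (K + 1)
    calc 2080 * C * n * (c / g) * ∑ b ∈ range (K + 1), ((4:ℝ) / 5) ^ b
        ≤ 2080 * C * n * (c / g) * (1 / (1 - 4 / 5)) :=
          mul_le_mul_of_nonneg_left h1 (by positivity)
      _ = _ := by ring
  -- second sum
  have hS2 : ∑ m ∈ range (n + 1), C * Real.exp (-(κ * k)) * Real.exp (-κ) ^ m *
      ∑ q ∈ (univ : Finset (Fin n)).offDiag,
        (Measure.pi μ (WS μ 0 ((m : ℝ) + 1) q.1 q.2)).toReal ≤ 4 * C * R * n * (c / g) := by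
    have h1 : ∀ m ∈ range (n + 1), C * Real.exp (-(κ * k)) * Real.exp (-κ) ^ m *
      ∑ q ∈ (univ : Finset (Fin n)).offDiag,
        (Measure.pi μ (WS μ 0 ((m : ℝ) + 1) q.1 q.2)).toReal ≤
        4 * C * n * ((m + 1) * Real.exp (-κ) ^ m) := by
      intro m _
      have h2 := hw2 ((m:ℝ) + 1) (by positivity)
      have h3 : Real.exp (-(κ * k)) ≤ 1 := by
        rw [← Real.exp_zero]
        apply Real.exp_le_exp.mpr
        have : 0 ≤ κ * k := by positivity
        linarith
      calc C * Real.exp (-(κ * k)) * Real.exp (-κ) ^ m *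
          ∑ q ∈ (univ : Finset (Fin n)).offDiag,
            (Measure.pi μ (WS μ 0 ((m : ℝ) + 1) q.1 q.2)).toReal
          ≤ C * 1 * Real.exp (-κ) ^ m * (4 * n * ((m:ℝ) + 1)) := by
            apply mul_le_mul _ h2 (sum_nonneg (fun _ _ => ENNReal.toReal_nonneg)) (by positivity)
            apply mul_le_mul_of_nonneg_right _ (by positivity)
            exact mul_le_mul_of_nonneg_left h3 hC.le
        _ = _ := by ring
    refine (sum_le_sum h1).trans ?_
    rw [← mul_sum]
    have h2 := sum_geom hr0.le hr1 (n + 1)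
    have h3 : 1 ≤ c / g := by
      rw [one_le_div (by linarith)]; exact hgc
    calc 4 * C * n * ∑ m ∈ range (n + 1), (((m:ℝ) + 1) * Real.exp (-κ) ^ m)
        ≤ 4 * C * n * R := mul_le_mul_of_nonneg_left h2 (by positivity)
      _ ≤ 4 * C * n * R * (c / g) := le_mul_of_one_le_right (by positivity) h3
      _ = _ := by ring
  calc _ ≤ 10400 * C * n * (c / g) + 4 * C * R * n * (c / g) := add_le_add hS1 hS2
    _ = (10400 * C + 4 * C * R) * n * c / g := by ring

end Pool.Agent.Helper31K9.SR
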