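import Pool.Agent.Helper31K9.SR.One

/-!
# The leaf CON of project SR: contaminated laws
-/

set_option autoImplicit false

namespace Pool.Agent.Helper31K9.SR

open Finset MeasureTheory Filter Topology
open Pool.Agent.H189R2.Lev (ht cr)
open Pool.Agent.H189R2.Iid
open Pool.Agent.Results.MP_a08d0a_co.IidLevel (Simple level psi sl ic crossings simple_of_GP psi_le
  crossings_lev crossings_flip measurable_levcount LN_neg measurable_crossings count3)
open scoped ENNReal

namespace ConL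

variable {n : ℕ}

theorem mix_prob {δ : ℝ} (h0 : 0 < δ) (h1 : δ ≤ 1) {ν : Fin n → Measure (ℝ × ℝ)}
    {μ₀ : Measure (ℝ × ℝ)} (hν : ∀ l, IsProbabilityMeasure (ν l)) (hμ : IsProbabilityMeasure μ₀)
    (l : Fin n) : IsProbabilityMeasure (mix δ ν μ₀ l) := by
  have := hν l
  constructor
  unfold mix
  rw [Measure.add_apply, Measure.smul_apply, Measure.smul_apply, measure_univ, measure_univ,
    smul_eq_mul, smul_eq_mul, mul_one, mul_one, ← ENNReal.ofReal_add (by linarith) h0.le]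
  simp

theorem mix_LN {δ : ℝ} {ν : Fin n → Measure (ℝ × ℝ)} {μ₀ : Measure (ℝ × ℝ)}
    (hν : ∀ l, LN (ν l)) (hμ : LN μ₀) (l : Fin n) : LN (mix δ ν μ₀ l) := by
  intro a b c hab
  unfold mix
  rw [Measure.add_apply, Measure.smul_apply, Measure.smul_apply, hν l a b c hab, hμ a b c hab]
  simp

theorem mix_real {δ : ℝ} (h0 : 0 < δ) (h1 : δ ≤ 1) {ν : Fin n → Measure (ℝ × ℝ)}
    {μ₀ : Measure (ℝ × ℝ)} (hν : ∀ l, IsProbabilityMeasure (ν l)) (hμ : IsProbabilityMeasure μ₀)
    (x y : ℝ) (l : Fin n) : pr (mix δ ν μ₀) x y l =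
      (1 - δ) * pr ν x y l + δ * (μ₀ {r | r.1 * x + r.2 < y}).toReal := by
  have := hν l
  unfold pr mix
  rw [Measure.add_apply, Measure.smul_apply, Measure.smul_apply, smul_eq_mul, smul_eq_mul,
    ENNReal.toReal_add (by finiteness) (by finiteness), ENNReal.toReal_mul, ENNReal.toReal_mul,
    ENNReal.toReal_ofReal (by linarith), ENNReal.toReal_ofReal h0.le]

/-- variance of the contaminated laws -/
theorem var_ge (hhub : S_HUB) {δ : ℝ} (h0 : 0 < δ) (h1 : δ ≤ 1) {ν : Fin n → Measure (ℝ × ℝ)}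
    {μ₀ : Measure (ℝ × ℝ)} (hν : ∀ l, IsProbabilityMeasure (ν l)) (hμ : IsProbabilityMeasure μ₀)
    (x y : ℝ) : δ / 4 * (mean (mix δ ν μ₀) x y * (n - mean (mix δ ν μ₀) x y)) ≤
      n * var (mix δ ν μ₀) x y := by
  set m : ℝ := (μ₀ {r : ℝ × ℝ | r.1 * x + r.2 < y}).toReal with hm
  have hm0 : 0 ≤ m := ENNReal.toReal_nonneg
  have hm1 : m ≤ 1 := ENNReal.toReal_le_of_le_ofReal zero_le_one (by simpa using prob_le_one)
  have hpr : ∀ l, pr (mix δ ν μ₀) x y l = (1 - δ) * pr ν x y l + δ * m :=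
    mix_real h0 h1 hν hμ x y
  have hν0 : ∀ l, 0 ≤ pr ν x y l := fun l => CntL.pr_nonneg ν x y l
  have hν1 : ∀ l, pr ν x y l ≤ 1 := fun l => CntL.pr_le_one ν hν x y l
  have hF0 := CntL.mean_nonneg (mix δ ν μ₀) x y
  have hFn := CntL.mean_le (mix δ ν μ₀) (mix_prob h0 h1 hν hμ) x y
  have hFF : 0 ≤ mean (mix δ ν μ₀) x y * (n - mean (mix δ ν μ₀) x y) :=
    mul_nonneg hF0 (by linarith)
  rcases le_or_gt δ (1 / 2) with h | h
  · have h2 := hhub n (pr ν x y) m δ (fun l => ⟨hν0 l, hν1 l⟩) hm0 hm1 h0 h _ hpr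
    unfold mean var
    unfold mean at hFF
    nlinarith
  · have h2 := hhub n (fun l => 2 * ((1 - δ) * pr ν x y l + (δ - 1 / 2) * m)) m (1 / 2)
      (fun l => ⟨by
        have : 0 ≤ (1 - δ) * pr ν x y l := mul_nonneg (by linarith) (hν0 l)
        have : 0 ≤ (δ - 1 / 2) * m := mul_nonneg (by linarith) hm0
        show 0 ≤ 2 * ((1 - δ) * pr ν x y l + (δ - 1 / 2) * m)
        linarith, by
        have : (1 - δ) * pr ν x y l ≤ (1 - δ) * 1 :=
          mul_le_mul_of_nonneg_left (hν1 l) (by linarith)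
        have : (δ - 1 / 2) * m ≤ (δ - 1 / 2) * 1 := mul_le_mul_of_nonneg_left hm1 (by linarith)
        show 2 * ((1 - δ) * pr ν x y l + (δ - 1 / 2) * m) ≤ 1
        linarith⟩) hm0 hm1 (by norm_num) le_rfl (pr (mix δ ν μ₀) x y) (fun l => by
        rw [hpr l]; ring)
    unfold mean var
    unfold mean at hFF
    nlinarith

open Classical in
theorem low_bound (hgp : S_GP) (hcnt : S_CNT) (hhub : S_HUB) :
    ∃ C : ℝ, 0 < C ∧ ∀ (n : ℕ) (ν : Fin n → Measure (ℝ × ℝ)) (μ₀ : Measure (ℝ × ℝ)) (δ : ℝ),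
      (∀ l, IsProbabilityMeasure (ν l)) → IsProbabilityMeasure μ₀ → (∀ l, LN (ν l)) → LN μ₀ →
      0 < δ → δ ≤ 1 → ∀ c : ℕ, 2 * c + 2 ≤ n →
      ∫⁻ P, (((T P).filter (fun q => lev P q = c)).card : ℝ≥0∞) ∂Measure.pi (mix δ ν μ₀) ≤
        ENNReal.ofReal (C * n * (((c : ℝ) + 1) / δ) ^ (1 / 6 : ℝ)) := by
  obtain ⟨C, hC, hcnt⟩ := hcnt
  refine ⟨2 * C + 36, by positivity, ?_⟩
  intro n ν μ₀ δ hν hμ hνL hμL h0 h1 c hc
  have hc0 : (0:ℝ) ≤ c := Nat.cast_nonneg c
  have hn0 : (0:ℝ) ≤ n := Nat.cast_nonneg n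
  have hcn : 2 * (c:ℝ) + 2 ≤ n := by exact_mod_cast hc
  set y : ℝ := ((c:ℝ) + 1) ^ (1 / 6 : ℝ) with hy
  set d : ℝ := δ ^ (1 / 6 : ℝ) with hd
  have hy0 : 0 < y := by positivity
  have hd0 : 0 < d := by positivity
  have hy6 : y ^ 6 = c + 1 := by
    rw [hy, ← Real.rpow_natCast, ← Real.rpow_mul (by positivity)]; norm_num
  have hd6 : d ^ 6 = δ := by
    rw [hd, ← Real.rpow_natCast, ← Real.rpow_mul h0.le]; norm_num
  have hyd : (((c : ℝ) + 1) / δ) ^ (1 / 6 : ℝ) = y / d := by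
    rw [Real.div_rpow (by positivity) h0.le]
  have hy3 : ((c:ℝ) + 1) ^ (1 / 3 : ℝ) = y ^ 2 := by
    rw [hy, ← Real.rpow_natCast, ← Real.rpow_mul (by positivity)]; norm_num
  rw [hyd]
  have hprob := mix_prob h0 h1 hν hμ
  have hLN := mix_LN (δ := δ) hνL hμL
  by_cases hbig : 1 ≤ δ * (c + 1) / 64
  · have hv6 : (δ * (c + 1) / 64) ^ (1 / 6 : ℝ) = d * y / 2 := by
      rw [← hd6, ← hy6, show d ^ 6 * y ^ 6 / 64 = (d * y / 2) ^ 6 by ring, ← Real.rpow_natCast,
        ← Real.rpow_mul (by positivity)]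
      norm_num
    have hc64 : (64:ℝ) ≤ c + 1 := by
      have : δ * ((c:ℝ) + 1) ≤ 1 * (c + 1) := mul_le_mul_of_nonneg_right h1 (by positivity)
      linarith
    refine (hcnt n (mix δ ν μ₀) hprob hLN c (δ * (c + 1) / 64) (by omega) hbig ?_ ?_).trans ?_
    · have : δ * ((c:ℝ) + 1) ≤ 1 * (c + 1) := mul_le_mul_of_nonneg_right h1 (by positivity)
      linarith
    · intro x z hxz
      have h2 := var_ge hhub h0 h1 hν hμ x z
      rw [abs_le] at hxz
      set F := mean (mix δ ν μ₀) x z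
      have hF1 : ((c:ℝ) + 1) / 4 ≤ F := by linarith [hxz.1]
      have hF2 : (n:ℝ) / 4 ≤ n - F := by linarith [hxz.2]
      have hnp : (0:ℝ) < n := by linarith
      have h3 : ((c:ℝ) + 1) / 4 * (n / 4) ≤ F * (n - F) :=
        mul_le_mul hF1 hF2 (by positivity) (by linarith)
      have h4 : δ / 4 * (((c:ℝ) + 1) / 4 * (n / 4)) ≤ n * var (mix δ ν μ₀) x z :=
        (mul_le_mul_of_nonneg_left h3 (by positivity)).trans h2
      have h5 : n * (δ * (c + 1) / 64) ≤ n * var (mix δ ν μ₀) x z := by linarith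
      exact le_of_mul_le_mul_left h5 hnp
    · apply ENNReal.ofReal_le_ofReal
      rw [hv6, hy3]
      have e : C * n * y ^ 2 / (d * y / 2) = 2 * C * n * (y / d) := by
        field_simp
      rw [e]
      have : 0 ≤ n * (y / d) := by positivity
      nlinarith
  · push Not at hbig
    have h6 : y ^ 2 ≤ 2 * (y / d) := by
      have h7 : d * y ≤ 2 := by
        have h8 : (d * y) ^ 6 ≤ 2 ^ 6 := by
          rw [mul_pow, hd6, hy6]; linarith
        exact le_of_pow_le_pow_left₀ (by norm_num) (by norm_num) h8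
      rw [mul_div_assoc', le_div_iff₀ hd0]
      nlinarith
    calc ∫⁻ P, (((T P).filter (fun q => lev P q = c)).card : ℝ≥0∞) ∂Measure.pi (mix δ ν μ₀)
        ≤ ∫⁻ _P : Fin n → ℝ × ℝ, ENNReal.ofReal (18 * n * y ^ 2) ∂Measure.pi (mix δ ν μ₀) := by
          apply lintegral_mono_ae
          filter_upwards [hgp n _ hprob hLN] with P hP
          have h := Pool.Agent.Y344.KD.window hP {c} (K := c) (by simp)
          have e1 : Pool.Agent.Y344.KD.EW P {c} = (T P).filter (fun q => lev P q = c) := by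
            unfold Pool.Agent.Y344.KD.EW
            ext q
            simp
          rw [e1, card_singleton, Nat.cast_one, Real.one_rpow, mul_one, hy3] at h
          rw [← ENNReal.ofReal_natCast]
          exact ENNReal.ofReal_le_ofReal h
      _ = ENNReal.ofReal (18 * n * y ^ 2) := by
          rw [lintegral_const, measure_univ, mul_one]
      _ ≤ _ := by
          apply ENNReal.ofReal_le_ofReal
          have h9 : (18 * n) * y ^ 2 ≤ (18 * n) * (2 * (y / d)) :=
            mul_le_mul_of_nonneg_left h6 (by positivity)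
          have : 0 ≤ n * (y / d) := by positivity
          nlinarith

theorem map_mix {δ : ℝ} {ν : Fin n → Measure (ℝ × ℝ)} {μ₀ : Measure (ℝ × ℝ)}
    {f : ℝ × ℝ → ℝ × ℝ} (hf : Measurable f) (l : Fin n) :
    (mix δ ν μ₀ l).map f = mix δ (fun l => (ν l).map f) (μ₀.map f) l := by
  unfold mix
  rw [Measure.map_add _ _ hf, Measure.map_smul, Measure.map_smul]

end ConL

open ConL OneL in
theorem con (hgp : S_GP) (hcnt : S_CNT) (hhub : S_HUB) : S_CON := by
  classical
  obtain ⟨C, hC, hlow⟩ := low_bound hgp hcnt hhub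
  refine ⟨2 * C, by positivity, ?_⟩
  intro n ν μ₀ δ hν hμ hνL hμL h0 h1 k hk
  have hprob := mix_prob h0 h1 hν hμ
  have hLN := mix_LN (δ := δ) hνL hμL
  have hG := hgp n _ hprob hLN
  -- all levels of crossings
  have hall : ∀ c : ℕ, ∫⁻ P, ((crossings (sl P) (ic P) c).ncard : ℝ≥0∞)
      ∂Measure.pi (mix δ ν μ₀) ≤
      ENNReal.ofReal (C * n * (((min c (n - 2 - c) : ℕ) + 1 : ℝ) / δ) ^ (1 / 6 : ℝ)) := by
    intro c
    by_cases hc : 2 * c + 2 ≤ n
    · have hmin : min c (n - 2 - c) = c := by omega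
      rw [hmin]
      exact cross_le' hG c (fun _ => hlow n ν μ₀ δ hν hμ hνL hμL h0 h1 c hc)
    by_cases hc2 : c + 2 ≤ n
    · have hmin : min c (n - 2 - c) = n - 2 - c := by omega
      rw [hmin]
      have hν' : ∀ l, IsProbabilityMeasure ((ν l).map (fun y => -y)) := fun l =>
        have := hν l
        Measure.isProbabilityMeasure_map measurable_neg.aemeasurable
      have hμ' : IsProbabilityMeasure (μ₀.map (fun y => -y)) :=
        Measure.isProbabilityMeasure_map measurable_neg.aemeasurable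
      have hlow' := hlow n (fun l => (ν l).map (fun y => -y)) (μ₀.map (fun y => -y)) δ hν' hμ'
        (fun l => LN_neg (hνL l)) (LN_neg hμL) h0 h1 (n - 2 - c) (by omega)
      have hG' := hgp n _ (mix_prob h0 h1 hν' hμ')
        (mix_LN (δ := δ) (fun l => LN_neg (hνL l)) (LN_neg hμL))
      have h3 := cross_le' hG' (n - 2 - c) (fun _ => hlow')
      have hprob' := mix_prob h0 h1 hν' hμ'
      have hmp : MeasurePreserving (fun (P : Fin n → ℝ × ℝ) (l : Fin n) => -P l)
          (Measure.pi (mix δ ν μ₀))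
          (Measure.pi (mix δ (fun l => (ν l).map (fun y => -y)) (μ₀.map (fun y => -y)))) := by
        apply measurePreserving_pi
        intro l
        refine ⟨measurable_neg, ?_⟩
        exact map_mix measurable_neg l
      rw [← hmp.lintegral_comp (measurable_crossings (n - 2 - c))] at h3
      refine le_trans (lintegral_mono_ae ?_) h3
      filter_upwards [hG] with P hP
      exact_mod_cast crossings_flip hP (k := c)
    · exact cross_le' hG c (fun h => absurd h hc2)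
  have hB : 0 ≤ C * n * (((min k (n - 1 - k) : ℕ) + 1 : ℝ) / δ) ^ (1 / 6 : ℝ) := by positivity
  have hmono : ∀ c : ℕ, min c (n - 2 - c) ≤ min k (n - 1 - k) →
      ∫⁻ P, ((crossings (sl P) (ic P) c).ncard : ℝ≥0∞) ∂Measure.pi (mix δ ν μ₀) ≤
      ENNReal.ofReal (C * n * (((min k (n - 1 - k) : ℕ) + 1 : ℝ) / δ) ^ (1 / 6 : ℝ)) := by
    intro c hc
    refine (hall c).trans (ENNReal.ofReal_le_ofReal ?_)
    apply mul_le_mul_of_nonneg_left _ (by positivity)
    apply Real.rpow_le_rpow (by positivity) _ (by norm_num)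
    apply div_le_div_of_nonneg_right _ h0.le
    have : ((min c (n - 2 - c) : ℕ) : ℝ) ≤ (min k (n - 1 - k) : ℕ) := Nat.cast_le.mpr hc
    linarith
  refine (psi_int hG hk hB (hmono k (by omega)) (fun _ => hmono (k - 1) (by omega))).trans
    (le_of_eq ?_)
  congr 1
  ring

end Pool.Agent.Helper31K9.SR
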