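import Pool.Agent.Helper31K9.SR.St2

/-!
# The leaf EXP of project SR
-/

set_option autoImplicit false

namespace Pool.Agent.Helper31K9.SR

open Filter Topology

theorem exp : S_EXP := by
  intro D₀
  have hl : Tendsto (fun y : ℝ => Real.log y) atTop atTop := Real.tendsto_log_atTop
  have hll : Tendsto (fun y : ℝ => Real.log (Real.log y)) atTop atTop :=
    Real.tendsto_log_atTop.comp hl
  obtain ⟨Y, hY⟩ := (hll.eventually_ge_atTop 10).exists_forall_of_atTop
  obtain ⟨Y', hY'⟩ := (hl.eventually_ge_atTop 100).exists_forall_of_atTop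
  set M : ℝ := max (max Y Y') (max (400 * (D₀ + 1)) 160000) with hM
  have hM0 : 0 < M := lt_of_lt_of_le (by norm_num) ((le_max_right _ _).trans (le_max_right _ _))
  refine ⟨1 / M, by positivity, ?_⟩
  intro δ h0 h1
  set y : ℝ := 1 / δ with hy
  have hy0 : 0 < y := by positivity
  have hMy : M ≤ y := by
    rw [hy, le_div_iff₀ h0]
    rw [le_div_iff₀ hM0] at h1
    linarith
  have hz10 : 10 ≤ Real.log (Real.log y) :=
    hY y (((le_max_left _ _).trans (le_max_left _ _)).trans hMy)
  have hx100 : 100 ≤ Real.log y := hY' y (((le_max_right _ _).trans (le_max_left _ _)).trans hMy)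
  have hyD : 400 * ((D₀:ℝ) + 1) ≤ y := ((le_max_left _ _).trans (le_max_right _ _)).trans hMy
  have hy16 : 160000 ≤ y := ((le_max_right _ _).trans (le_max_right _ _)).trans hMy
  set m := ⌊y / 200⌋₊ with hm
  have hm1 : (m:ℝ) ≤ y / 200 := Nat.floor_le (by positivity)
  have hm2 : y / 200 < m + 1 := Nat.lt_floor_add_one _
  have hm3 : 1 ≤ m := by
    have : (0:ℝ) < m := by linarith
    exact_mod_cast this
  refine ⟨m - 1, ?_, ?_, ?_⟩
  · have : ((D₀ + 1 : ℕ) : ℝ) ≤ m := by push_cast; linarith
    have h2 : D₀ + 1 ≤ m := by exact_mod_cast this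
    omega
  · rw [Nat.cast_sub hm3, Nat.cast_one, sub_add_cancel]
    calc 200 * δ * (m:ℝ) ≤ 200 * δ * (y / 200) := mul_le_mul_of_nonneg_left hm1 (by positivity)
      _ = 1 := by rw [hy]; field_simp
  · set D : ℝ := ((m - 1 : ℕ) : ℝ) with hD
    have hDm : D = m - 1 := by rw [hD, Nat.cast_sub hm3, Nat.cast_one]
    have hD1 : y / 400 ≤ D := by linarith
    have hD2 : D ≤ y := by linarith
    have hD0 : 0 < D := by linarith
    set x := Real.log y with hx
    set z := Real.log x with hz
    have hlD : x / 2 ≤ Real.log D := by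
      have h2 : y ≤ D ^ 2 := by
        have h3 : (y / 400) ^ 2 ≤ D ^ 2 := pow_le_pow_left₀ (by positivity) hD1 2
        nlinarith
      have h3 : x ≤ 2 * Real.log D := by
        rw [hx]
        calc Real.log y ≤ Real.log (D ^ 2) := Real.log_le_log hy0 h2
          _ = 2 * Real.log D := by rw [Real.log_pow]; norm_num
      linarith
    have hlD2 : Real.log D ≤ x := Real.log_le_log hD0 hD2
    have hlD0 : 1 < Real.log D := by linarith
    have hllD0 : 0 < Real.log (Real.log D) := Real.log_pos hlD0
    have hllD : Real.log (Real.log D) ≤ z := Real.log_le_log (by linarith) hlD2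
    have hz0 : 0 < z := by linarith
    have hx0 : 0 < x := by linarith
    have e1 : Real.log (y ^ (1 / z ^ 6)) = x / z ^ 6 := by
      rw [Real.log_rpow hy0]; ring
    have e2 : Real.log (D ^ (1 / Real.log (Real.log D) ^ 5)) =
        Real.log D / Real.log (Real.log D) ^ 5 := by
      rw [Real.log_rpow hD0]; ring
    have h5 : x / z ^ 6 ≤ Real.log D / Real.log (Real.log D) ^ 5 := by
      calc x / z ^ 6 = (1 / z) * (x / z ^ 5) := by field_simp
        _ ≤ (1 / 2) * (x / z ^ 5) := by
            apply mul_le_mul_of_nonneg_right _ (by positivity)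
            rw [div_le_div_iff₀ hz0 (by norm_num)]
            linarith
        _ = (x / 2) / z ^ 5 := by ring
        _ ≤ Real.log D / z ^ 5 := div_le_div_of_nonneg_right hlD (by positivity)
        _ ≤ Real.log D / Real.log (Real.log D) ^ 5 := by
            apply div_le_div_of_nonneg_left (by linarith) (by positivity)
            exact pow_le_pow_left₀ hllD0.le hllD 5
    rw [← Real.log_le_log_iff (Real.rpow_pos_of_pos hy0 _) (Real.rpow_pos_of_pos hD0 _), e1, e2]
    exact h5

end Pool.Agent.Helper31K9.SR
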