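import Pool.Agent.Helper31K9.SR.St5

/-!
# Smoothed analysis with Gaussian noise (project SR)
-/

set_option autoImplicit false

namespace Pool.Agent.Helper31K9.SR

open Finset MeasureTheory Filter Topology
open Pool.Agent.Results.MP_a08d0a_co.IidLevel (psi sl ic)
open scoped ENNReal

/-- the law `N (b, σ ^ 2)` -/
noncomputable def normal (b σ : ℝ) : Measure ℝ :=
  ProbabilityTheory.gaussianReal b ⟨σ ^ 2, sq_nonneg σ⟩

/-- [FIV] Gaussian noise -/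
def S_FIV : Prop := ∃ C : ℝ, 0 < C ∧ ∀ (n : ℕ) (a b : Fin n → ℝ) (A σ c X : ℝ), 0 < σ → 0 < A →
  0 < X → (∀ i j, a i - a j ≤ A) → 2 ≤ n → ∀ k < n,
    ∫⁻ B, (psiOn a B k (Set.Ioo c (c + X)) : ℝ≥0∞) ∂Measure.pi (fun l => normal (b l) σ) ≤
      ENNReal.ofReal (C * (n * ((k : ℝ) + 1) ^ (1 / 6 : ℝ) +
        (n * ((k : ℝ) + 1) ^ (1 / 3 : ℝ)) ^ (6 / 7 : ℝ) *
          (A * X * Real.sqrt (Real.log n) / σ) ^ (1 / 7 : ℝ)))

theorem fiv (hG : S_GAU) (hF : S_FOUe) : S_FIV := by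
  obtain ⟨C₀, hC₀, hG⟩ := hG
  obtain ⟨C, hC, hF⟩ := hF
  refine ⟨C * (1 + C₀ ^ (1 / 7 : ℝ)), by positivity, ?_⟩
  intro n a b A σ c X hσ hA hX ha hn k hk
  have hlog : 0 < Real.log n := Real.log_pos (by exact_mod_cast (by omega : 1 < n))
  have hs : 0 < Real.sqrt (Real.log n) := Real.sqrt_pos.mpr hlog
  have h := (hF n a (fun l => normal (b l) σ) A (C₀ * Real.sqrt (Real.log n) / σ) c X
    (fun l => ProbabilityTheory.instIsProbabilityMeasureGaussianReal _ _) (fun l => hG n (b l) σ hσ hn) (by positivity) hA hX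
    ha k hk).2
  refine h.trans (ENNReal.ofReal_le_ofReal ?_)
  have e1 : A * (C₀ * Real.sqrt (Real.log n) / σ) * X =
      C₀ * (A * X * Real.sqrt (Real.log n) / σ) := by ring
  rw [e1, Real.mul_rpow hC₀.le (by positivity), mul_assoc C]
  apply mul_le_mul_of_nonneg_left _ hC.le
  have h1 : (0:ℝ) ≤ n * ((k : ℝ) + 1) ^ (1 / 6 : ℝ) := by positivity
  have h2 : (0:ℝ) ≤ (n * ((k : ℝ) + 1) ^ (1 / 3 : ℝ)) ^ (6 / 7 : ℝ) *
      (A * X * Real.sqrt (Real.log n) / σ) ^ (1 / 7 : ℝ) := by positivity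
  have h3 : (0:ℝ) ≤ C₀ ^ (1 / 7 : ℝ) := by positivity
  have e2 : (n * ((k : ℝ) + 1) ^ (1 / 3 : ℝ)) ^ (6 / 7 : ℝ) * (C₀ ^ (1 / 7 : ℝ) *
      (A * X * Real.sqrt (Real.log n) / σ) ^ (1 / 7 : ℝ)) =
      C₀ ^ (1 / 7 : ℝ) * ((n * ((k : ℝ) + 1) ^ (1 / 3 : ℝ)) ^ (6 / 7 : ℝ) *
      (A * X * Real.sqrt (Real.log n) / σ) ^ (1 / 7 : ℝ)) := by ring
  rw [e2]
  nlinarith

end Pool.Agent.Helper31K9.SR
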