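import Pool.Agent.Helper31K9.SR.St5

/-!
# [GAU] Gaussian laws satisfy the weaker condition on the noise
-/

set_option autoImplicit false

namespace Pool.Agent.Helper31K9.SR

open Finset MeasureTheory Filter Topology
open scoped ENNReal NNReal

namespace GauL

open ProbabilityTheory

/-- the Gaussian density -/
noncomputable def f (b σ x : ℝ) : ℝ :=
  (Real.sqrt (2 * Real.pi) * σ)⁻¹ * Real.exp (-((x - b) / σ) ^ 2 / 2)

theorem f_nonneg {b σ x : ℝ} (hσ : 0 < σ) : 0 ≤ f b σ x := by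
  unfold f
  positivity

theorem pdf_eq (b σ : ℝ) (hσ : 0 < σ) (x : ℝ) :
    gaussianPDFReal b ⟨σ ^ 2, sq_nonneg σ⟩ x = f b σ x := by
  unfold gaussianPDFReal f
  have h1 : Real.sqrt (2 * Real.pi * σ ^ 2) = Real.sqrt (2 * Real.pi) * σ := by
    rw [Real.sqrt_mul (by positivity), Real.sqrt_sq hσ.le]
  show (Real.sqrt (2 * Real.pi * σ ^ 2))⁻¹ * Real.exp (-(x - b) ^ 2 / (2 * σ ^ 2)) = _
  rw [h1]
  congr 2
  field_simp

theorem law_eq (b σ : ℝ) (hσ : 0 < σ) :
    gaussianReal b ⟨σ ^ 2, sq_nonneg σ⟩ = volume.withDensity (fun x => ENNReal.ofReal (f b σ x)) := by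
  have hv : (⟨σ ^ 2, sq_nonneg σ⟩ : ℝ≥0) ≠ 0 := by
    intro h
    have h1 := congrArg NNReal.toReal h
    have h2 : σ ^ 2 = 0 := h1
    have h3 : 0 < σ ^ 2 := by positivity
    linarith
  rw [gaussianReal_of_var_ne_zero b hv]
  congr 1
  funext x
  show ENNReal.ofReal (gaussianPDFReal b ⟨σ ^ 2, sq_nonneg σ⟩ x) = _
  rw [pdf_eq b σ hσ]

theorem prob (b σ : ℝ) : IsProbabilityMeasure (gaussianReal b ⟨σ ^ 2, sq_nonneg σ⟩) :=
  instIsProbabilityMeasureGaussianReal b _

/-- intervals have at least the mass `m` times the length -/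
theorem low (b σ : ℝ) (hσ : 0 < σ) (a c m : ℝ) (hac : a ≤ c) (hm : 0 ≤ m)
    (h : ∀ x ∈ Set.Ico a c, m ≤ f b σ x) :
    m * (c - a) ≤ (gaussianReal b ⟨σ ^ 2, sq_nonneg σ⟩ (Set.Ico a c)).toReal := by
  have h1 : ENNReal.ofReal (m * (c - a)) ≤
      gaussianReal b ⟨σ ^ 2, sq_nonneg σ⟩ (Set.Ico a c) := by
    rw [law_eq b σ hσ, withDensity_apply _ measurableSet_Ico]
    calc ENNReal.ofReal (m * (c - a)) = ∫⁻ _ in Set.Ico a c, ENNReal.ofReal m := by
          rw [setLIntegral_const, Real.volume_Ico, ENNReal.ofReal_mul hm]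
      _ ≤ ∫⁻ x in Set.Ico a c, ENNReal.ofReal (f b σ x) :=
          setLIntegral_mono' measurableSet_Ico fun x hx => ENNReal.ofReal_le_ofReal (h x hx)
  have := prob b σ
  have h2 := ENNReal.toReal_mono (measure_ne_top _ _) h1
  rwa [ENNReal.toReal_ofReal (mul_nonneg hm (by linarith))] at h2

/-- comparison of two values of the density -/
theorem comp {b σ x t δ : ℝ} (hσ : 0 < σ) (hδ : δ = 1 / (1 + |t - b| / σ))
    (hx : |x - b| ≤ |t - b| + σ * δ) : Real.exp (-(3 / 2)) * f b σ t ≤ f b σ x := by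
  obtain ⟨s, hs⟩ : ∃ s, s = |t - b| / σ := ⟨_, rfl⟩
  have hs0 : 0 ≤ s := by rw [hs]; positivity
  rw [← hs] at hδ
  have hδ0 : 0 < δ := by rw [hδ]; positivity
  have hδ1 : δ ≤ 1 := by
    rw [hδ, div_le_one (by positivity)]
    linarith
  have hsδ : s * δ ≤ 1 := by
    rw [hδ, mul_one_div, div_le_one (by positivity)]
    linarith
  have ht2 : ((t - b) / σ) ^ 2 = s ^ 2 := by
    rw [hs, div_pow, div_pow, sq_abs]
  have hx2 : ((x - b) / σ) ^ 2 ≤ (s + δ) ^ 2 := by
    rw [← sq_abs]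
    refine pow_le_pow_left₀ (abs_nonneg _) ?_ 2
    rw [abs_div, abs_of_pos hσ, div_le_iff₀ hσ]
    refine hx.trans (le_of_eq ?_)
    rw [hs]
    field_simp
  unfold f
  rw [mul_left_comm, ← Real.exp_add]
  refine mul_le_mul_of_nonneg_left (Real.exp_le_exp.2 ?_) (by positivity)
  have h1 : -((t - b) / σ) ^ 2 / 2 = -(s ^ 2) / 2 := by rw [ht2]
  have h2 : -((x - b) / σ) ^ 2 / 2 ≥ -((s + δ) ^ 2) / 2 := by linarith
  rw [h1]
  nlinarith

theorem near {b σ x : ℝ} (hσ : 0 < σ) (hx : |x - b| ≤ σ) :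
    (Real.sqrt (2 * Real.pi) * σ)⁻¹ * Real.exp (-(1 / 2)) ≤ f b σ x := by
  unfold f
  refine mul_le_mul_of_nonneg_left (Real.exp_le_exp.2 ?_) (by positivity)
  have h1 : ((x - b) / σ) ^ 2 ≤ 1 := by
    rw [← sq_abs, abs_div, abs_of_pos hσ]
    exact pow_le_one₀ (by positivity) ((div_le_one hσ).2 hx)
  linarith

/-- the mass of one side -/
noncomputable def c1 : ℝ := (Real.sqrt (2 * Real.pi))⁻¹ * Real.exp (-(1 / 2))

theorem c1_pos : 0 < c1 := by
  unfold c1
  positivity

theorem tails (b σ : ℝ) (hσ : 0 < σ) (t : ℝ) :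
    c1 * (Real.exp (-(3 / 2)) * f b σ t * (σ * (1 / (1 + |t - b| / σ)))) ≤
      (gaussianReal b ⟨σ ^ 2, sq_nonneg σ⟩ (Set.Iio t)).toReal *
        (1 - (gaussianReal b ⟨σ ^ 2, sq_nonneg σ⟩ (Set.Iio t)).toReal) := by
  obtain ⟨ν, hν⟩ : ∃ ν, ν = gaussianReal b ⟨σ ^ 2, sq_nonneg σ⟩ := ⟨_, rfl⟩
  have hprob : IsProbabilityMeasure ν := by rw [hν]; exact prob b σ
  obtain ⟨δ, hδ⟩ : ∃ δ, δ = 1 / (1 + |t - b| / σ) := ⟨_, rfl⟩
  have hδ0 : 0 < δ := by rw [hδ]; positivity
  have hσδ : 0 < σ * δ := by positivity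
  rw [← hδ, ← hν]
  have hm0 : 0 ≤ Real.exp (-(3 / 2)) * f b σ t := mul_nonneg (Real.exp_pos _).le (f_nonneg hσ)
  have hsub : ∀ S : Set ℝ, S ⊆ Set.Iio t → (ν S).toReal ≤ (ν (Set.Iio t)).toReal :=
    fun S hS => ENNReal.toReal_mono (measure_ne_top _ _) (measure_mono hS)
  have hdis : ∀ a c : ℝ, t ≤ a → (ν (Set.Ico a c)).toReal ≤ 1 - (ν (Set.Iio t)).toReal := by
    intro a c hta
    have h1 : Disjoint (Set.Iio t) (Set.Ico a c) := by
      rw [Set.disjoint_left]
      intro x hx hx2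
      have h3 : x < t := hx
      have h4 : a ≤ x := hx2.1
      linarith
    have h2 : ν (Set.Iio t) + ν (Set.Ico a c) ≤ 1 := by
      rw [← measure_union h1 measurableSet_Ico]
      exact prob_le_one
    have h3 := ENNReal.toReal_mono ENNReal.one_ne_top h2
    rw [ENNReal.toReal_add (measure_ne_top _ _) (measure_ne_top _ _), ENNReal.toReal_one] at h3
    linarith
  have hc1 : (Real.sqrt (2 * Real.pi) * σ)⁻¹ * Real.exp (-(1 / 2)) * σ = c1 := by
    unfold c1
    field_simp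
  rcases le_total b t with hbt | hbt
  · -- the upper side
    have h1 : c1 ≤ (ν (Set.Iio t)).toReal := by
      have h2 := low b σ hσ (b - σ) b ((Real.sqrt (2 * Real.pi) * σ)⁻¹ * Real.exp (-(1 / 2)))
        (by linarith) (by positivity) (fun x hx => near hσ (by
          rw [abs_le]
          constructor <;> linarith [hx.1, hx.2]))
      rw [show b - (b - σ) = σ by ring, hc1, ← hν] at h2
      exact h2.trans (hsub _ fun x hx => lt_of_lt_of_le hx.2 hbt)
    have h3 : Real.exp (-(3 / 2)) * f b σ t * (σ * δ) ≤ 1 - (ν (Set.Iio t)).toReal := by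
      have h4 := low b σ hσ t (t + σ * δ) (Real.exp (-(3 / 2)) * f b σ t)
        (by linarith) hm0 (fun x hx => comp hσ hδ (by
          rw [abs_of_nonneg (by linarith [hx.1]), abs_of_nonneg (by linarith)]
          linarith [hx.2]))
      rw [show t + σ * δ - t = σ * δ by ring, ← hν] at h4
      exact h4.trans (hdis _ _ le_rfl)
    exact mul_le_mul h1 h3 (by positivity) ENNReal.toReal_nonneg
  · -- the lower side
    have h1 : c1 ≤ 1 - (ν (Set.Iio t)).toReal := by
      have h2 := low b σ hσ b (b + σ) ((Real.sqrt (2 * Real.pi) * σ)⁻¹ * Real.exp (-(1 / 2)))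
        (by linarith) (by positivity) (fun x hx => near hσ (by
          rw [abs_le]
          constructor <;> linarith [hx.1, hx.2]))
      rw [show b + σ - b = σ by ring, hc1, ← hν] at h2
      exact h2.trans (hdis _ _ hbt)
    have h3 : Real.exp (-(3 / 2)) * f b σ t * (σ * δ) ≤ (ν (Set.Iio t)).toReal := by
      have h4 := low b σ hσ (t - σ * δ) t (Real.exp (-(3 / 2)) * f b σ t)
        (by linarith) hm0 (fun x hx => comp hσ hδ (by
          rw [abs_of_nonpos (by linarith [hx.2]), abs_of_nonpos (by linarith)]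
          linarith [hx.1]))
      rw [show t - (t - σ * δ) = σ * δ by ring, ← hν] at h4
      exact h4.trans (hsub _ fun x hx => hx.2)
    rw [mul_comm c1]
    exact mul_le_mul h3 h1 c1_pos.le ENNReal.toReal_nonneg

theorem half_le (n : ℕ) (hn : 2 ≤ n) : 1 / 2 ≤ Real.sqrt (Real.log n) := by
  have h1 : (1 / 4 : ℝ) ≤ Real.log n := by
    have h2 : Real.log 2 ≤ Real.log n :=
      Real.log_le_log (by norm_num) (by exact_mod_cast hn)
    have h3 := Real.log_two_gt_d9
    linarith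
  have h4 : Real.sqrt (1 / 4) = 1 / 2 := by
    rw [show (1 / 4 : ℝ) = (1 / 2) ^ 2 by norm_num, Real.sqrt_sq (by norm_num)]
  rw [← h4]
  exact Real.sqrt_le_sqrt h1

end GauL

open GauL in
theorem gau : S_GAU := by
  obtain ⟨K, hK⟩ : ∃ K, K = 4 * Real.exp (3 / 2) / c1 := ⟨_, rfl⟩
  have hK0 : 0 < K := by
    rw [hK]
    have := c1_pos
    positivity
  refine ⟨K + 2, by linarith, fun n b σ hσ hn => ?_⟩
  obtain ⟨L, hL⟩ : ∃ L, L = Real.sqrt (Real.log n) := ⟨_, rfl⟩
  have hL2 : 1 / 2 ≤ L := hL ▸ half_le n hn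
  have hL0 : 0 < L := by linarith
  have hn0 : (0 : ℝ) < n := by
    have : 0 < n := by omega
    exact_mod_cast this
  have hlog : 0 ≤ Real.log n := Real.log_nonneg (by
    have : 1 ≤ n := by omega
    exact_mod_cast this)
  unfold TameUpTo
  conv_lhs => rw [law_eq b σ hσ]
  refine withDensity_mono (Filter.Eventually.of_forall fun t => ENNReal.ofReal_le_ofReal ?_)
  rw [← hL]
  obtain ⟨W, hW⟩ : ∃ W : ℝ, W = (ProbabilityTheory.gaussianReal b ⟨σ ^ 2, sq_nonneg σ⟩
    (Set.Iio t)).toReal * (1 - (ProbabilityTheory.gaussianReal b ⟨σ ^ 2, sq_nonneg σ⟩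
    (Set.Iio t)).toReal) := ⟨_, rfl⟩
  have hT := tails b σ hσ t
  rw [← hW] at hT ⊢
  have hf0 : 0 ≤ f b σ t := f_nonneg hσ
  obtain ⟨s, hs⟩ : ∃ s, s = |t - b| / σ := ⟨_, rfl⟩
  have hs0 : 0 ≤ s := by rw [hs]; positivity
  rw [← hs] at hT
  have hc1 := c1_pos
  have hW0 : 0 ≤ W := le_trans (by positivity) hT
  have hn1 : (0 : ℝ) < 1 / n := by positivity
  rcases le_or_gt s (2 * L) with h | h
  · -- the middle
    have h1 : f b σ t ≤ K * L / σ * W := by
      have h2 : f b σ t = (Real.exp (3 / 2) / c1 * (1 + s) / σ) *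
          (c1 * (Real.exp (-(3 / 2)) * f b σ t * (σ * (1 / (1 + s))))) := by
        have h3 : Real.exp (3 / 2) * Real.exp (-(3 / 2)) = 1 := by
          rw [← Real.exp_add, add_neg_cancel, Real.exp_zero]
        have h4 : (Real.exp (3 / 2) / c1 * (1 + s) / σ) *
          (c1 * (Real.exp (-(3 / 2)) * f b σ t * (σ * (1 / (1 + s))))) =
          (Real.exp (3 / 2) * Real.exp (-(3 / 2))) * f b σ t := by
          have h5 : (1 + s) ≠ 0 := by positivity
          field_simp
        rw [h4, h3, one_mul]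
      rw [h2]
      refine (mul_le_mul_of_nonneg_left hT (by positivity)).trans ?_
      refine mul_le_mul_of_nonneg_right ?_ hW0
      rw [div_le_div_iff_of_pos_right hσ, hK]
      have h6 : Real.exp (3 / 2) / c1 * (1 + s) ≤ Real.exp (3 / 2) / c1 * (4 * L) :=
        mul_le_mul_of_nonneg_left (by linarith) (by positivity)
      refine h6.trans (le_of_eq ?_)
      ring
    refine h1.trans ?_
    have h7 : K * L / σ * W ≤ (K + 2) * L / σ * W := by
      refine mul_le_mul_of_nonneg_right ?_ hW0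
      rw [div_le_div_iff_of_pos_right hσ]
      exact mul_le_mul_of_nonneg_right (by linarith) hL0.le
    refine h7.trans ?_
    exact mul_le_mul_of_nonneg_left (by linarith) (by positivity)
  · -- the tails
    have h1 : f b σ t ≤ 1 / σ * (1 / n) := by
      unfold f
      rw [mul_inv, ← one_div σ, mul_assoc]
      have h2 : (Real.sqrt (2 * Real.pi))⁻¹ ≤ 1 := by
        refine inv_le_one_of_one_le₀ ?_
        rw [Real.one_le_sqrt]
        linarith [Real.pi_gt_three]
      have h3 : Real.exp (-((t - b) / σ) ^ 2 / 2) ≤ 1 / n := by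
        have h4 : ((t - b) / σ) ^ 2 = s ^ 2 := by
          rw [hs, div_pow, div_pow, sq_abs]
        have h5 : (2 * L) ^ 2 ≤ s ^ 2 := pow_le_pow_left₀ (by linarith) h.le 2
        have h6 : L ^ 2 = Real.log n := by rw [hL, Real.sq_sqrt hlog]
        have h7 : -((t - b) / σ) ^ 2 / 2 ≤ - Real.log n := by
          rw [h4]
          nlinarith
        refine (Real.exp_le_exp.2 h7).trans (le_of_eq ?_)
        rw [Real.exp_neg, Real.exp_log hn0, one_div]
      calc (Real.sqrt (2 * Real.pi))⁻¹ * (1 / σ * Real.exp (-((t - b) / σ) ^ 2 / 2))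
          ≤ 1 * (1 / σ * (1 / n)) := by
            refine mul_le_mul h2 (mul_le_mul_of_nonneg_left h3 (by positivity)) (by positivity)
              (by norm_num)
        _ = 1 / σ * (1 / n) := one_mul _
    refine h1.trans ?_
    have h8 : 1 / σ ≤ (K + 2) * L / σ := by
      rw [div_le_div_iff_of_pos_right hσ]
      nlinarith
    calc 1 / σ * (1 / n) ≤ (K + 2) * L / σ * (1 / n) :=
          mul_le_mul_of_nonneg_right h8 hn1.le
      _ ≤ (K + 2) * L / σ * (W + 1 / n) :=
          mul_le_mul_of_nonneg_left (by linarith) (by positivity)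

end Pool.Agent.Helper31K9.SR
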