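import Pool.Agent.Helper31K9.SR.St

/-!
# General position for independent lines with different laws (project SR, leaf GP)

Adapted from `Pool/Agent/H189R2/Iid/Gen.lean`.
-/

set_option autoImplicit false

namespace Pool.Agent.Helper31K9.SR

open Finset MeasureTheory Filter Topology
open Pool.Agent.H189R2.Lev (ht cr pi_update)
open Pool.Agent.H189R2.Iid
open scoped ENNReal

/-- an event that is null in one coordinate is null -/
theorem GpL.null_coord {X : Type*} [MeasurableSpace X] {n : ℕ} {μ : Fin n → Measure X}
    [∀ l, IsProbabilityMeasure (μ l)] (l : Fin n)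
    {s : Set (Fin n → X)} (hs : MeasurableSet s)
    (h : ∀ P, μ l {y | Function.update P l y ∈ s} = 0) :
    Measure.pi μ s = 0 := by
  rw [← lintegral_indicator_one hs, pi_update μ l (measurable_one.indicator hs)]
  have : ∀ P, ∫⁻ y, s.indicator 1 (Function.update P l y) ∂μ l =
      μ l {y | Function.update P l y ∈ s} := by
    intro P
    have h1 : MeasurableSet {y | Function.update P l y ∈ s} := (measurable_update P) hs
    rw [← lintegral_indicator_one h1]
    rfl
  simp [this, h]

theorem gp : S_GP := by
  intro n μ hpr hμ
  have m1 : ∀ i : Fin n, Measurable (fun P : Fin n → ℝ × ℝ => P i) := fun i => measurable_pi_apply i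
  have h1 : ∀ᵐ P ∂Measure.pi μ, ∀ i j, i ≠ j → (P i).1 ≠ (P j).1 := by
    rw [ae_all_iff]; intro i
    rw [ae_all_iff]; intro j
    by_cases hij : i = j
    · exact Eventually.of_forall (fun _ h => absurd hij h)
    · have : ∀ᵐ P ∂Measure.pi μ, (P i).1 ≠ (P j).1 := by
        rw [ae_iff]
        simp only [ne_eq, not_not]
        apply GpL.null_coord i (measurableSet_eq_fun (m1 i).fst (m1 j).fst)
        intro P
        refine measure_mono_null ?_ (hμ i 1 0 (P j).1 (Or.inl one_ne_zero))
        intro y hy
        have hy' : (Function.update P i y i).1 = (Function.update P i y j).1 := hy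
        rw [Function.update_self, Function.update_of_ne (Ne.symm hij)] at hy'
        show 1 * y.1 + 0 * y.2 = (P j).1
        linarith
      filter_upwards [this] with P hP _
      exact hP
  have h2 : ∀ᵐ P ∂Measure.pi μ, ∀ i j r s, i ≠ j → i ≠ r → i ≠ s →
      (P j).1 < (P i).1 → X2 (P i) (P j) ≠ X2 (P r) (P s) := by
    rw [ae_all_iff]; intro i
    rw [ae_all_iff]; intro j
    rw [ae_all_iff]; intro r
    rw [ae_all_iff]; intro s
    by_cases hij : i = j
    · exact Eventually.of_forall (fun _ h => absurd hij h)
    by_cases hir : i = r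
    · exact Eventually.of_forall (fun _ _ h => absurd hir h)
    by_cases his : i = s
    · exact Eventually.of_forall (fun _ _ _ h => absurd his h)
    have : ∀ᵐ P ∂Measure.pi μ, ¬ ((P j).1 < (P i).1 ∧
        X2 (P i) (P j) = X2 (P r) (P s)) := by
      rw [ae_iff]
      simp only [not_not]
      apply GpL.null_coord i ((measurableSet_lt (m1 j).fst (m1 i).fst).inter
        (measurableSet_eq_fun (measurable_X2 (m1 i) (m1 j)) (measurable_X2 (m1 r) (m1 s))))
      intro P
      refine measure_mono_null ?_ (hμ i (X2 (P r) (P s)) 1
        (X2 (P r) (P s) * (P j).1 + (P j).2) (Or.inr one_ne_zero))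
      rintro y ⟨hy1, hy2⟩
      have hy1' : (Function.update P i y j).1 < (Function.update P i y i).1 := hy1
      have hy2' : X2 (Function.update P i y i) (Function.update P i y j) =
        X2 (Function.update P i y r) (Function.update P i y s) := hy2
      rw [Function.update_self, Function.update_of_ne (Ne.symm hij)] at hy1' hy2'
      rw [Function.update_of_ne (Ne.symm hir), Function.update_of_ne (Ne.symm his)] at hy2'
      show X2 (P r) (P s) * y.1 + 1 * y.2 = X2 (P r) (P s) * (P j).1 + (P j).2
      rw [← hy2']
      have h0 : y.1 - (P j).1 ≠ 0 := by linarith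
      unfold X2
      field_simp
      ring
    filter_upwards [this] with P hP _ _ _ h h'
    exact hP ⟨h, h'⟩
  have h3 : ∀ᵐ P ∂Measure.pi μ, ∀ i j r s, j ≠ i → j ≠ r → j ≠ s →
      (P j).1 < (P i).1 → X2 (P i) (P j) ≠ X2 (P r) (P s) := by
    rw [ae_all_iff]; intro i
    rw [ae_all_iff]; intro j
    rw [ae_all_iff]; intro r
    rw [ae_all_iff]; intro s
    by_cases hij : j = i
    · exact Eventually.of_forall (fun _ h => absurd hij h)
    by_cases hir : j = r
    · exact Eventually.of_forall (fun _ _ h => absurd hir h)
    by_cases his : j = s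
    · exact Eventually.of_forall (fun _ _ _ h => absurd his h)
    have : ∀ᵐ P ∂Measure.pi μ, ¬ ((P j).1 < (P i).1 ∧
        X2 (P i) (P j) = X2 (P r) (P s)) := by
      rw [ae_iff]
      simp only [not_not]
      apply GpL.null_coord j ((measurableSet_lt (m1 j).fst (m1 i).fst).inter
        (measurableSet_eq_fun (measurable_X2 (m1 i) (m1 j)) (measurable_X2 (m1 r) (m1 s))))
      intro P
      refine measure_mono_null ?_ (hμ j (X2 (P r) (P s)) 1
        (X2 (P r) (P s) * (P i).1 + (P i).2) (Or.inr one_ne_zero))
      rintro y ⟨hy1, hy2⟩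
      have hy1' : (Function.update P j y j).1 < (Function.update P j y i).1 := hy1
      have hy2' : X2 (Function.update P j y i) (Function.update P j y j) =
        X2 (Function.update P j y r) (Function.update P j y s) := hy2
      rw [Function.update_self, Function.update_of_ne (Ne.symm hij)] at hy1' hy2'
      rw [Function.update_of_ne (Ne.symm hir), Function.update_of_ne (Ne.symm his)] at hy2'
      show X2 (P r) (P s) * y.1 + 1 * y.2 = X2 (P r) (P s) * (P i).1 + (P i).2
      rw [← hy2']
      have h0 : (P i).1 - y.1 ≠ 0 := by linarith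
      unfold X2
      field_simp
      ring
    filter_upwards [this] with P hP _ _ _ h h'
    exact hP ⟨h, h'⟩
  filter_upwards [h1, h2, h3] with P hP1 hP2 hP3
  refine ⟨fun i j h => ?_, ?_⟩
  · by_contra hne
    exact hP1 i j hne h
  · intro i j r s hji hsr hX
    have hij : i ≠ j := by
      intro h; rw [h] at hji; exact lt_irrefl _ hji
    have hi : i = r ∨ i = s := by
      by_contra hcon
      push Not at hcon
      exact hP2 i j r s hij hcon.1 hcon.2 hji hX
    have hj : j = r ∨ j = s := by
      by_contra hcon
      push Not at hcon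
      exact hP3 i j r s hij.symm hcon.1 hcon.2 hji hX
    rcases hi with rfl | rfl
    · rcases hj with rfl | rfl
      · exact absurd rfl hij
      · exact ⟨rfl, rfl⟩
    · rcases hj with rfl | rfl
      · exact absurd hji (lt_asymm hsr)
      · exact absurd rfl hij

end Pool.Agent.Helper31K9.SR
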