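import Pool.Agent.Helper31K9.SR.St

/-!
# The number of lines below a crossing for different laws (project SR, leaf LAW)

Adapted from `Pool/Agent/H189R2/Iid/Prob.lean` and `Pool/Agent/H189R2/Iid/Main.lean`.
-/

set_option autoImplicit false

namespace Pool.Agent.Helper31K9.SR

open Finset MeasureTheory Filter Topology
open Pool.Agent.H189R2.Lev (ht cr pi_update)
open Pool.Agent.H189R2.Iid
open scoped ENNReal

namespace LawL

variable {X : Type*} [MeasurableSpace X] {n : ℕ} {U : Finset (Fin n)}

/-- integrating out coordinates one by one -/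
theorem coord_prod (μ : Fin n → Measure X) [∀ l, IsProbabilityMeasure (μ l)] (φ : Fin n → (Fin n → X) → X → ℝ≥0∞)
    (hφ : ∀ l, Measurable (fun p : (Fin n → X) × X => φ l p.1 p.2)) (U : Finset (Fin n)) :
    ∀ H : (Fin n → X) → ℝ≥0∞, Measurable H → (∀ l ∈ U, ∀ P y, H (Function.update P l y) = H P) →
    (∀ l ∈ U, ∀ i ∈ U, ∀ P y z, φ i (Function.update P l y) z = φ i P z) →
    ∫⁻ P, H P * ∏ l ∈ U, φ l P (P l) ∂Measure.pi μ =
      ∫⁻ P, H P * ∏ l ∈ U, ∫⁻ y, φ l P y ∂μ l ∂Measure.pi μ := by
  classical
  have hm1 : ∀ i, Measurable (fun P : Fin n → X => φ i P (P i)) := fun i =>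
    (hφ i).comp (measurable_id.prodMk (measurable_pi_apply i))
  have hm2 : ∀ i, Measurable (fun P : Fin n → X => ∫⁻ y, φ i P y ∂μ i) := fun i =>
    (hφ i).lintegral_prod_right'
  induction U using Finset.induction_on with
  | empty => intro H _ _ _; simp
  | insert l U hl ih =>
    intro H hH hHU hφU
    have e1 : ∀ P : Fin n → X, H P * ∏ i ∈ insert l U, φ i P (P i) =
        (H P * ∏ i ∈ U, φ i P (P i)) * φ l P (P l) := by
      intro P; rw [prod_insert hl]; ring
    simp_rw [e1]
    have hm : Measurable (fun P : Fin n → X => (H P * ∏ i ∈ U, φ i P (P i)) * φ l P (P l)) :=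
      (hH.mul (Finset.measurable_prod U (fun i _ => hm1 i))).mul (hm1 l)
    rw [pi_update μ l hm]
    have e2 : ∀ P : Fin n → X, ∫⁻ y, (H (Function.update P l y) *
        ∏ i ∈ U, φ i (Function.update P l y) (Function.update P l y i)) *
        φ l (Function.update P l y) (Function.update P l y l) ∂μ l =
        (H P * ∫⁻ y, φ l P y ∂μ l) * ∏ i ∈ U, φ i P (P i) := by
      intro P
      have e3 : ∀ y, (H (Function.update P l y) *
        ∏ i ∈ U, φ i (Function.update P l y) (Function.update P l y i)) *
        φ l (Function.update P l y) (Function.update P l y l) =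
        (H P * ∏ i ∈ U, φ i P (P i)) * φ l P y := by
        intro y
        rw [hHU l (mem_insert_self l U), Function.update_self,
          hφU l (mem_insert_self l U) l (mem_insert_self l U)]
        congr 2
        apply prod_congr rfl
        intro i hi
        have hil : i ≠ l := fun h => hl (h ▸ hi)
        rw [Function.update_of_ne hil, hφU l (mem_insert_self l U) i (mem_insert_of_mem hi)]
      simp_rw [e3]
      have hm3 : Measurable (fun y : X => φ l P y) :=
        (hφ l).comp (measurable_const.prodMk measurable_id)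
      rw [lintegral_const_mul _ hm3]
      ring
    simp_rw [e2]
    rw [ih (fun P => H P * ∫⁻ y, φ l P y ∂μ l) (hH.mul (hm2 l))]
    · apply lintegral_congr
      intro P
      rw [prod_insert hl]
      ring
    · intro i hi P y
      rw [hHU i (mem_insert_of_mem hi)]
      congr 1
      apply lintegral_congr
      intro z
      rw [hφU i (mem_insert_of_mem hi) l (mem_insert_self l U)]
    · intro i hi j hj P y z
      exact hφU i (mem_insert_of_mem hi) j (mem_insert_of_mem hj) P y z

open Classical in
/-- binomial probabilities -/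
theorem binomial (R : RandSet n U X) (μ : Fin n → Measure X) [∀ l, IsProbabilityMeasure (μ l)] {B : Set (Fin n → X)}
    (hB : MeasurableSet B) (hBU : ∀ l ∈ U, ∀ P y, Function.update P l y ∈ B ↔ P ∈ B) (k : ℕ) :
    Measure.pi μ {P | P ∈ B ∧ R.cnt P = k} =
      ∫⁻ P in B, ENNReal.ofReal (pb U (fun l => R.F (μ l) P) k) ∂Measure.pi μ := by
  set φ : Finset (Fin n) → Fin n → (Fin n → X) → X → ℝ≥0∞ := fun K l P y =>
    if (R.Lo P y ↔ l ∈ K) then 1 else 0 with hφ
  have hφm : ∀ K l, Measurable (fun p : (Fin n → X) × X => φ K l p.1 p.2) := by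
    intro K l
    refine Measurable.ite ?_ measurable_const measurable_const
    by_cases hl : l ∈ K
    · have : {p : (Fin n → X) × X | R.Lo p.1 p.2 ↔ l ∈ K} = {p | R.Lo p.1 p.2} := by
        ext p; exact iff_of_eq (by simp [hl])
      rw [this]; exact R.meas
    · have : {p : (Fin n → X) × X | R.Lo p.1 p.2 ↔ l ∈ K} = {p | R.Lo p.1 p.2}ᶜ := by
        ext p; rw [Set.mem_compl_iff]; exact iff_of_eq (by simp [hl])
      rw [this]; exact R.meas.compl
  have h1 : ∀ K ⊆ U, Measure.pi μ
      {P | P ∈ B ∧ U.filter (fun l => R.Lo P (P l)) = K} =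
      ∫⁻ P in B, ENNReal.ofReal ((∏ l ∈ K, R.F (μ l) P) * ∏ l ∈ U \ K, (1 - R.F (μ l) P))
        ∂Measure.pi μ := by
    intro K hK
    have hms : MeasurableSet {P | P ∈ B ∧ U.filter (fun l => R.Lo P (P l)) = K} :=
      R.meas_piece hB hK
    rw [← lintegral_indicator_one hms]
    have e1 : ∀ P, ({P | P ∈ B ∧ U.filter (fun l => R.Lo P (P l)) = K}.indicator
        (1 : (Fin n → X) → ℝ≥0∞)) P = B.indicator 1 P * ∏ l ∈ U, φ K l P (P l) := by
      intro P
      by_cases hPB : P ∈ B
      · by_cases hPK : U.filter (fun l => R.Lo P (P l)) = K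
        · rw [Set.indicator_of_mem (show P ∈ {P | P ∈ B ∧
            U.filter (fun l => R.Lo P (P l)) = K} from ⟨hPB, hPK⟩), Set.indicator_of_mem hPB]
          rw [prod_eq_one]
          · simp
          · intro l hl
            simp only [hφ]
            rw [if_pos]
            have := Finset.ext_iff.mp hPK l
            simp only [mem_filter, hl, true_and] at this
            exact this
        · rw [Set.indicator_of_notMem (fun h => hPK h.2)]
          symm
          rw [mul_eq_zero]
          right
          rw [prod_eq_zero_iff]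
          by_contra hcon
          push Not at hcon
          apply hPK
          ext l
          simp only [mem_filter]
          have h2 : ∀ l ∈ U, (R.Lo P (P l) ↔ l ∈ K) := by
            intro l hl
            by_contra h
            exact hcon l hl (by simp only [hφ]; rw [if_neg h])
          constructor
          · rintro ⟨h1, h3⟩; exact (h2 l h1).mp h3
          · intro h1; exact ⟨hK h1, (h2 l (hK h1)).mpr h1⟩
      · rw [Set.indicator_of_notMem (fun h => hPB h.1), Set.indicator_of_notMem hPB]
        simp
    simp_rw [e1]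
    rw [coord_prod μ (φ K) (hφm K) U (B.indicator 1) (measurable_one.indicator hB)
      (fun l hl P y => by
        by_cases h : P ∈ B
        · rw [Set.indicator_of_mem h, Set.indicator_of_mem ((hBU l hl P y).mpr h)]
          rfl
        · rw [Set.indicator_of_notMem h,
            Set.indicator_of_notMem (fun h' => h ((hBU l hl P y).mp h'))])
      (fun l hl i hi P y z => by
        simp only [hφ]
        rw [R.inv l hl P y z])]
    rw [← lintegral_indicator hB]
    apply lintegral_congr
    intro P
    by_cases hPB : P ∈ B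
    · rw [Set.indicator_of_mem hPB, Set.indicator_of_mem hPB]
      simp only [Pi.one_apply, one_mul]
      have e2 : ∀ l, ∫⁻ y, φ K l P y ∂μ l =
          if l ∈ K then ENNReal.ofReal (R.F (μ l) P) else ENNReal.ofReal (1 - R.F (μ l) P) := by
        intro l
        simp only [hφ]
        by_cases hl : l ∈ K
        · simp only [hl, iff_true, if_true]
          rw [R.ofReal_F, ← lintegral_indicator_one (R.meas_sec P)]
          apply lintegral_congr
          intro y
          simp [Set.indicator_apply]
        · simp only [hl, iff_false, if_false]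
          rw [R.ofReal_one_sub_F]
          have hc : MeasurableSet {y | ¬ R.Lo P y} := (R.meas_sec P).compl
          rw [← lintegral_indicator_one hc]
          apply lintegral_congr
          intro y
          simp [Set.indicator_apply]
      simp_rw [e2]
      rw [prod_ite]
      have e3 : U.filter (fun l => l ∈ K) = K := by
        ext l; simp only [mem_filter]; exact ⟨fun h => h.2, fun h => ⟨hK h, h⟩⟩
      have e4 : U.filter (fun l => ¬ l ∈ K) = U \ K := by
        ext l; simp only [mem_filter, Finset.mem_sdiff]
      rw [e3, e4, ENNReal.ofReal_mul (Finset.prod_nonneg fun l _ => R.F_nonneg (μ l) P),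
        ENNReal.ofReal_prod_of_nonneg (fun l _ => R.F_nonneg (μ l) P),
        ENNReal.ofReal_prod_of_nonneg (fun l _ => by linarith [R.F_le_one (μ l) P])]
    · rw [Set.indicator_of_notMem hPB, Set.indicator_of_notMem hPB, zero_mul]
  have h2 : {P | P ∈ B ∧ R.cnt P = k} = ⋃ K ∈ (U.powersetCard k : Set (Finset (Fin n))),
      {P | P ∈ B ∧ U.filter (fun l => R.Lo P (P l)) = K} := by
    ext P
    simp only [Set.mem_iUnion, exists_prop, mem_coe, mem_powersetCard]
    constructor
    · rintro ⟨h1, h2⟩
      exact ⟨_, ⟨filter_subset _ _, h2⟩, h1, rfl⟩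
    · rintro ⟨K, ⟨_, hK⟩, h1, h2⟩
      refine ⟨h1, ?_⟩
      unfold RandSet.cnt
      rw [h2, hK]
  rw [h2, measure_biUnion (Finset.countable_toSet _)]
  · rw [Finset.tsum_subtype' (U.powersetCard k) (fun K => Measure.pi μ
      {P | P ∈ B ∧ U.filter (fun l => R.Lo P (P l)) = K})]
    rw [sum_congr rfl (fun K hK => h1 K (mem_powersetCard.mp hK).1)]
    rw [← lintegral_finset_sum]
    · apply lintegral_congr
      intro P
      rw [pb, ENNReal.ofReal_sum_of_nonneg]
      intro K _
      exact mul_nonneg (Finset.prod_nonneg fun l _ => R.F_nonneg (μ l) P)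
        (Finset.prod_nonneg fun l _ => by linarith [R.F_le_one (μ l) P])
    · intro K _
      exact ((Finset.measurable_prod K fun l _ => R.measurable_F (μ l)).mul
        (Finset.measurable_prod (U \ K) fun l _ =>
          measurable_const.sub (R.measurable_F (μ l)))).ennreal_ofReal
  · intro K _ K' _ hne
    rw [Function.onFun, Set.disjoint_left]
    rintro P ⟨_, h⟩ ⟨_, h'⟩
    exact hne (h.symm.trans h')
  · intro K hK
    exact R.meas_piece hB (mem_powersetCard.mp hK).1

end LawL

theorem law : S_LAW := by
  classical
  intro n μ hμ i j hij k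
  have hUl : ∀ l ∈ (univ \ {i, j} : Finset (Fin n)), l ≠ i ∧ l ≠ j := by
    intro l hl
    simp only [Finset.mem_sdiff, Finset.mem_univ, mem_insert, mem_singleton, true_and, not_or] at hl
    exact hl
  have h := LawL.binomial (lowRS i j hUl) μ (B := Ev2 Set.univ i j)
    (meas_Ev2 MeasurableSet.univ i j) (fun l hl P y =>
      Ev2_update (hUl l hl).1.symm (hUl l hl).2.symm P y) k
  have e : {P | P ∈ Ev2 Set.univ i j ∧ lev P (i, j) = k} =
      {P | P ∈ Ev2 Set.univ i j ∧ (lowRS i j hUl).cnt P = k} := by
    ext P
    refine and_congr_right (fun hP => ?_)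
    have : lev P (i, j) = (lowRS i j hUl).cnt P := by
      unfold lev RandSet.cnt
      congr 1
      ext l
      simp only [mem_filter, mem_univ, true_and]
      constructor
      · intro hl
        refine ⟨?_, hl⟩
        simp only [Finset.mem_sdiff, Finset.mem_univ, mem_insert, mem_singleton, true_and, not_or]
        refine ⟨?_, ?_⟩
        · intro h; rw [h] at hl; exact fst_notMem_low _ _ hl
        · intro h; rw [h] at hl; exact snd_notMem_low hP.1 hl
      · intro hl; exact hl.2
    rw [this]
  rw [e, h]
  exact le_of_eq rfl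

end Pool.Agent.Helper31K9.SR
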