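import Pool.Agent.Helper31K9.SR.St

/-!
# Smoothed analysis of a single level: statements (project SR, fourth theorem)

Lines `y = a l * x + B l` with given slopes and independent noisy intercepts; the vertices of the
`k`-level with abscissa in an interval.
-/

set_option autoImplicit false

namespace Pool.Agent.Helper31K9.SR

open Finset MeasureTheory Filter Topology
open Pool.Agent.H189R2.Lev (ht cr)
open Pool.Agent.H189R2.Iid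
open Pool.Agent.Results.MP_a08d0a_co.IidLevel (Simple level psi sl ic)
open scoped ENNReal

/-- number of vertices of the `k`-level with abscissa in `I` -/
noncomputable def psiOn {n : ℕ} (a B : Fin n → ℝ) (k : ℕ) (I : Set ℝ) : ℕ∞ :=
  {x : ℝ | x ∈ I ∧ ¬ ∃ l, level a B k =ᶠ[𝓝 x] ht a B l}.encard

/-- `ν` has a density which is at most `D * G * (1 - G)`, where `G` is the distribution function -/
def Tame (D : ℝ) (ν : Measure ℝ) : Prop :=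
  ν ≤ volume.withDensity (fun t => ENNReal.ofReal
    (D * ((ν (Set.Iio t)).toReal * (1 - (ν (Set.Iio t)).toReal))))

/-- the laws of the lines with independent slopes (laws `τ l`) and intercepts (laws `ν l`) -/
noncomputable def two {n : ℕ} (τ ν : Fin n → Measure ℝ) : Fin n → Measure (ℝ × ℝ) :=
  fun l => (τ l).prod (ν l)

/-- the standing assumptions on slopes and intercepts -/
def Std {n : ℕ} (τ ν : Fin n → Measure ℝ) (s A D : ℝ) : Prop :=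
  (∀ l, IsProbabilityMeasure (τ l)) ∧ (∀ l, IsProbabilityMeasure (ν l)) ∧
  (∀ l, ∀ t : ℝ, τ l {t} = 0) ∧ (∀ l, ∀ᵐ t ∂τ l, s ≤ t ∧ t ≤ s + A) ∧ (∀ l, Tame D (ν l))

/-- [LNP] no mass on lines of the dual plane (`ν l` has a density, `τ l` has no atoms) -/
def S_LNP : Prop := ∀ (n : ℕ) (τ ν : Fin n → Measure ℝ) (s A D : ℝ), Std τ ν s A D →
  ∀ l, LN (two τ ν l)

/-- [LAWA] as `S_LAW` with a condition on the two lines (`LawL.binomial` with `B = Ev2 A i j`) -/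
def S_LAWA : Prop := ∀ (n : ℕ) (μ : Fin n → Measure (ℝ × ℝ)), (∀ l, IsProbabilityMeasure (μ l)) →
  ∀ i j : Fin n, i ≠ j → ∀ A : Set ((ℝ × ℝ) × (ℝ × ℝ)), MeasurableSet A → ∀ k : ℕ,
    Measure.pi μ {P | P ∈ Ev2 A i j ∧ lev P (i, j) = k} ≤
      ∫⁻ P in Ev2 A i j, ENNReal.ofReal
        (pb (univ \ {i, j}) (pr μ (X2 (P i) (P j)) (Y2 (P i) (P j))) k) ∂Measure.pi μ

/-- the pairs whose crossing has abscissa in `(c, c + X)` and variance less than `v` -/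
def LowA {n : ℕ} (μ : Fin n → Measure (ℝ × ℝ)) (c X v : ℝ) : Set ((ℝ × ℝ) × (ℝ × ℝ)) :=
  {z | X2 z.1 z.2 ∈ Set.Ioo c (c + X) ∧ var μ (X2 z.1 z.2) (Y2 z.1 z.2) < v}

/-- the pairs whose crossing has variance at least `v` -/
def HighA {n : ℕ} (μ : Fin n → Measure (ℝ × ℝ)) (v : ℝ) : Set ((ℝ × ℝ) × (ℝ × ℝ)) :=
  {z | v ≤ var μ (X2 z.1 z.2) (Y2 z.1 z.2)}

/-- [RNK] at each abscissa exactly one line has exactly `k` lines below -/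
def S_RNK : Prop := ∀ (n : ℕ) (μ : Fin n → Measure (ℝ × ℝ)), (∀ l, IsProbabilityMeasure (μ l)) →
  (∀ l, LN (μ l)) → ∀ (x : ℝ) (k : ℕ),
    ∑ i, ∫⁻ p, ENNReal.ofReal (pb (univ \ {i}) (pr μ x (p.1 * x + p.2)) k) ∂μ i ≤ 1

/-- [RAT] density of the abscissa of the crossing with a fixed line `p`: substitution
`t = p.2 + (p.1 - q.1) x` for the intercept and Jensen for the slope -/
def S_RAT : Prop := ∀ (τ ν : Measure ℝ) (s A D : ℝ), IsProbabilityMeasure τ →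
  IsProbabilityMeasure ν → (∀ᵐ t ∂τ, s ≤ t ∧ t ≤ s + A) → Tame D ν → 0 ≤ D → 0 ≤ A →
  ∀ p : ℝ × ℝ, s ≤ p.1 → p.1 ≤ s + A → ∀ Φ : ℝ → ℝ≥0∞, Measurable Φ →
    ∫⁻ q in {q : ℝ × ℝ | q.1 < p.1}, Φ (X2 p q) ∂(τ.prod ν) ≤
      ENNReal.ofReal (A * D) * ∫⁻ x, ENNReal.ofReal
        (((τ.prod ν) {r | r.1 * x + r.2 < p.1 * x + p.2}).toReal *
          (1 - ((τ.prod ν) {r | r.1 * x + r.2 < p.1 * x + p.2}).toReal)) * Φ x

/-- [PBI] -/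
def S_PBI : Prop := ∀ (n : ℕ) (p : Fin n → ℝ), (∀ l, 0 ≤ p l ∧ p l ≤ 1) → ∀ i j : Fin n,
  i ≠ j → ∀ k : ℕ, pb (univ \ {i, j}) p k ≤ 2 * (pb (univ \ {i}) p k + pb (univ \ {i}) p (k + 1))

/-- [LOV] few crossings of small variance -/
def S_LOV : Prop := ∀ (n : ℕ) (τ ν : Fin n → Measure ℝ) (s A D c X v : ℝ), Std τ ν s A D →
  0 ≤ D → 0 ≤ A → 0 ≤ X → 0 ≤ v → ∀ k : ℕ,
    ∑ q ∈ (univ : Finset (Fin n)).offDiag, Measure.pi (two τ ν)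
      {P | P ∈ Ev2 (LowA (two τ ν) c X v) q.1 q.2 ∧ lev P (q.1, q.2) = k} ≤
      ENNReal.ofReal (4 * A * D * X * v)

/-- [HIV] few crossings of large variance -/
def S_HIV : Prop := ∃ C : ℝ, 0 < C ∧ ∀ (n : ℕ) (μ : Fin n → Measure (ℝ × ℝ)),
  (∀ l, IsProbabilityMeasure (μ l)) → (∀ l, LN (μ l)) → ∀ (k : ℕ) (v : ℝ), k + 2 ≤ n →
    1 ≤ v → v ≤ k + 1 →
    ∑ q ∈ (univ : Finset (Fin n)).offDiag, Measure.pi μ
      {P | P ∈ Ev2 (HighA μ v) q.1 q.2 ∧ lev P (q.1, q.2) = k} ≤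
      ENNReal.ofReal (C * n * ((k : ℝ) + 1) ^ (1 / 3 : ℝ) / v ^ (1 / 6 : ℝ))

open Classical in
/-- [PON] vertices of the level with abscissa in `I` are crossings with abscissa in `I` (proof of
`IidLevel.psi_le`) -/
def S_PON : Prop := ∀ (n : ℕ) (P : Fin n → ℝ × ℝ), GP P → ∀ k < n, ∀ I : Set ℝ,
  psiOn (sl P) (ic P) k I ≤
    ((((T P).filter (fun q => lev P q = k ∧ X2 (P q.1) (P q.2) ∈ I)).card +
      (if k = 0 then 0 else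
        ((T P).filter (fun q => lev P q = k - 1 ∧ X2 (P q.1) (P q.2) ∈ I)).card) : ℕ) : ℕ∞)

/-- [OPT] -/
def S_OPT : Prop := ∀ C : ℝ, 0 < C → ∃ C' : ℝ, 0 < C' ∧ ∀ (n : ℕ) (k : ℕ) (W E : ℝ), 0 < W →
  E ≤ 18 * n * ((k : ℝ) + 1) ^ (1 / 3 : ℝ) →
  (∀ v : ℝ, 1 ≤ v → v ≤ k + 1 →
    E ≤ C * n * ((k : ℝ) + 1) ^ (1 / 3 : ℝ) / v ^ (1 / 6 : ℝ) + 4 * W * v) →
  E ≤ C' * (n * ((k : ℝ) + 1) ^ (1 / 6 : ℝ) +
    (n * ((k : ℝ) + 1) ^ (1 / 3 : ℝ)) ^ (6 / 7 : ℝ) * W ^ (1 / 7 : ℝ))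

/-- [LSI] as `S_LSC` with an interval -/
def S_LSI : Prop := ∀ n k : ℕ, k < n → ∀ c d : ℝ,
  LowerSemicontinuous (fun P : Fin n → ℝ × ℝ => psiOn (sl P) (ic P) k (Set.Ioo c d))

/-- [SMO] the bound for random slopes -/
def S_SMO : Prop := ∃ C : ℝ, 0 < C ∧ ∀ (n : ℕ) (τ ν : Fin n → Measure ℝ) (s A D c X : ℝ),
  Std τ ν s A D → 0 < D → 0 < A → 0 < X → ∀ k < n,
    ∫⁻ P, (psiOn (sl P) (ic P) k (Set.Ioo c (c + X)) : ℝ≥0∞) ∂Measure.pi (two τ ν) ≤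
      ENNReal.ofReal (C * (n * ((k : ℝ) + 1) ^ (1 / 6 : ℝ) +
        (n * ((k : ℝ) + 1) ^ (1 / 3 : ℝ)) ^ (6 / 7 : ℝ) * (A * D * X) ^ (1 / 7 : ℝ)))

/-- [FOU] the fourth theorem: given slopes (limit of slopes `a l + u / (m + 1)`, `u` uniform) -/
def S_FOU : Prop := ∃ C : ℝ, 0 < C ∧ ∀ (n : ℕ) (a : Fin n → ℝ) (ν : Fin n → Measure ℝ)
  (A D c X : ℝ), (∀ l, IsProbabilityMeasure (ν l)) → (∀ l, Tame D (ν l)) → 0 < D → 0 < A →
  0 < X → (∀ i j, a i - a j ≤ A) → ∀ k < n,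
    Measurable (fun B : Fin n → ℝ => (psiOn a B k (Set.Ioo c (c + X)) : ℝ≥0∞)) ∧
    ∫⁻ B, (psiOn a B k (Set.Ioo c (c + X)) : ℝ≥0∞) ∂Measure.pi ν ≤
      ENNReal.ofReal (C * (n * ((k : ℝ) + 1) ^ (1 / 6 : ℝ) +
        (n * ((k : ℝ) + 1) ^ (1 / 3 : ℝ)) ^ (6 / 7 : ℝ) * (A * D * X) ^ (1 / 7 : ℝ)))

end Pool.Agent.Helper31K9.SR
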