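import Pool.Agent.Helper31K9.SR.Law
import Pool.Agent.Helper31K9.SR.St3

/-!
# The number of lines below a crossing for different laws (project SR, leaf LAW)

Adapted from `Pool/Agent/H189R2/Iid/Prob.lean` and `Pool/Agent/H189R2/Iid/Main.lean`.
-/

set_option autoImplicit false

namespace Pool.Agent.Helper31K9.SR

open Finset MeasureTheory Filter Topology
open Pool.Agent.H189R2.Lev (ht cr pi_update)
open Pool.Agent.H189R2.Iid
open scoped ENNReal

theorem lawa : S_LAWA := by
  classical
  intro n μ hμ i j hij A hA k
  have hUl : ∀ l ∈ (univ \ {i, j} : Finset (Fin n)), l ≠ i ∧ l ≠ j := by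
    intro l hl
    simp only [Finset.mem_sdiff, Finset.mem_univ, mem_insert, mem_singleton, true_and, not_or] at hl
    exact hl
  have h := LawL.binomial (lowRS i j hUl) μ (B := Ev2 A i j)
    (meas_Ev2 hA i j) (fun l hl P y =>
      Ev2_update (hUl l hl).1.symm (hUl l hl).2.symm P y) k
  have e : {P | P ∈ Ev2 A i j ∧ lev P (i, j) = k} =
      {P | P ∈ Ev2 A i j ∧ (lowRS i j hUl).cnt P = k} := by
    ext P
    refine and_congr_right (fun hP => ?_)
    have : lev P (i, j) = (lowRS i j hUl).cnt P := by
      unfold lev RandSet.cnt
      congr 1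
      ext l
      simp only [mem_filter, mem_univ, true_and]
      constructor
      · intro hl
        refine ⟨?_, hl⟩
        simp only [Finset.mem_sdiff, Finset.mem_univ, mem_insert, mem_singleton, true_and, not_or]
        refine ⟨?_, ?_⟩
        · intro h; rw [h] at hl; exact fst_notMem_low _ _ hl
        · intro h; rw [h] at hl; exact snd_notMem_low hP.1 hl
      · intro hl; exact hl.2
    rw [this]
  rw [e, h]
  exact le_of_eq rfl

end Pool.Agent.Helper31K9.SR
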