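import Pool.Agent.Helper31K9.SR.St3

/-!
# Project SR, leaves [LNP] and [PBI]
-/

set_option autoImplicit false

namespace Pool.Agent.Helper31K9.SR

open Finset MeasureTheory Filter Topology
open Pool.Agent.H189R2.Iid
open scoped ENNReal

namespace LnpL

theorem no_atoms {D : ℝ} {ν : Measure ℝ} (h : Tame D ν) (t : ℝ) : ν {t} = 0 := by
  refine le_antisymm ((h {t}).trans ?_) zero_le
  exact (withDensity_absolutelyContinuous _ _ (measure_singleton t)).le

theorem term_nonneg {n : ℕ} (U A : Finset (Fin n)) (p : Fin n → ℝ) (hp : ∀ l, 0 ≤ p l ∧ p l ≤ 1) :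
    0 ≤ (∏ l ∈ A, p l) * ∏ l ∈ U \ A, (1 - p l) :=
  mul_nonneg (prod_nonneg fun l _ => (hp l).1) (prod_nonneg fun l _ => by linarith [(hp l).2])

theorem pb_low {n : ℕ} (U : Finset (Fin n)) (p : Fin n → ℝ) (hp : ∀ l, 0 ≤ p l ∧ p l ≤ 1)
    {j : Fin n} (hj : j ∉ U) (k : ℕ) : (1 - p j) * pb U p k ≤ pb (insert j U) p k := by
  unfold pb
  rw [mul_sum]
  refine le_trans (sum_le_sum (g := fun A => (∏ l ∈ A, p l) * ∏ l ∈ insert j U \ A, (1 - p l))
    fun A hA => ?_) (sum_le_sum_of_subset_of_nonneg (powersetCard_mono (subset_insert j U))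
      fun A _ _ => term_nonneg _ _ p hp)
  have hjA : j ∉ A := fun h => hj ((mem_powersetCard.1 hA).1 h)
  rw [insert_sdiff_of_notMem _ hjA, prod_insert (fun h => hj (Finset.mem_sdiff.1 h).1)]
  exact le_of_eq (by ring)

theorem pb_up {n : ℕ} (U : Finset (Fin n)) (p : Fin n → ℝ) (hp : ∀ l, 0 ≤ p l ∧ p l ≤ 1)
    {j : Fin n} (hj : j ∉ U) (k : ℕ) : p j * pb U p k ≤ pb (insert j U) p (k + 1) := by
  unfold pb
  have hinj : Set.InjOn (insert j : Finset (Fin n) → Finset (Fin n))
      (powersetCard k U : Set (Finset (Fin n))) := by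
    intro A hA B hB h
    have hjA : j ∉ A := fun h' => hj ((mem_powersetCard.1 (mem_coe.1 hA)).1 h')
    have hjB : j ∉ B := fun h' => hj ((mem_powersetCard.1 (mem_coe.1 hB)).1 h')
    rw [← erase_insert hjA, ← erase_insert hjB]
    exact congrArg (fun s => s.erase j) h
  have hsub : (powersetCard k U).image (insert j) ⊆ powersetCard (k + 1) (insert j U) := by
    rw [powersetCard_succ_insert hj]
    exact subset_union_right
  refine le_trans ?_ (sum_le_sum_of_subset_of_nonneg hsub fun A _ _ => term_nonneg _ _ p hp)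
  rw [sum_image hinj, mul_sum]
  refine sum_le_sum fun A hA => ?_
  have hjA : j ∉ A := fun h => hj ((mem_powersetCard.1 hA).1 h)
  rw [prod_insert hjA, insert_sdiff_insert, sdiff_insert_of_notMem hj]
  exact le_of_eq (by ring)

end LnpL

open LnpL in
/-- [LNP] -/
theorem lnp : S_LNP := by
  intro n τ ν s A D ⟨hτ, hν, hat, _, htame⟩ l a b c hab
  have := hτ l
  have := hν l
  unfold two
  by_cases hb : b = 0
  · subst hb
    have ha : a ≠ 0 := by simpa using hab
    have he : {y : ℝ × ℝ | a * y.1 + 0 * y.2 = c} = {c / a} ×ˢ Set.univ := by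
      ext y
      simp only [Set.mem_setOf_eq, Set.mem_prod, Set.mem_singleton_iff, Set.mem_univ, and_true,
        zero_mul, add_zero]
      rw [eq_div_iff ha, mul_comm]
    rw [he, Measure.prod_prod, hat, zero_mul]
  · have hm : MeasurableSet {y : ℝ × ℝ | a * y.1 + b * y.2 = c} :=
      measurableSet_eq_fun ((measurable_fst.const_mul a).add (measurable_snd.const_mul b))
        measurable_const
    rw [Measure.prod_apply hm]
    refine (lintegral_congr fun x => ?_).trans lintegral_zero
    have he : Prod.mk x ⁻¹' {y : ℝ × ℝ | a * y.1 + b * y.2 = c} = {(c - a * x) / b} := by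
      ext y
      simp only [Set.mem_preimage, Set.mem_setOf_eq, Set.mem_singleton_iff]
      rw [eq_div_iff hb]
      constructor
      · intro h; linarith
      · intro h; linarith
    rw [he]
    exact no_atoms (htame l) _

open LnpL in
/-- [PBI] -/
theorem pbi : S_PBI := by
  intro n p hp i j hij k
  have hj : j ∉ (univ \ {i, j} : Finset (Fin n)) := by simp
  have he : (univ \ {i} : Finset (Fin n)) = insert j (univ \ {i, j}) := by
    ext l
    simp only [Finset.mem_sdiff, mem_univ, true_and, mem_singleton, mem_insert, not_or]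
    constructor
    · intro h
      by_cases hl : l = j
      · exact Or.inl hl
      · exact Or.inr ⟨h, hl⟩
    · rintro (rfl | ⟨h, -⟩)
      · exact hij.symm
      · exact h
  have h1 := pb_low _ p hp hj k
  have h2 := pb_up _ p hp hj k
  rw [← he] at h1 h2
  have h0 : 0 ≤ pb (univ \ {i, j} : Finset (Fin n)) p k := by
    unfold pb
    exact sum_nonneg fun A _ => term_nonneg _ _ p hp
  have h3 : 0 ≤ pb (univ \ {i} : Finset (Fin n)) p k := by
    unfold pb
    exact sum_nonneg fun A _ => term_nonneg _ _ p hp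
  have h4 : 0 ≤ pb (univ \ {i} : Finset (Fin n)) p (k + 1) := by
    unfold pb
    exact sum_nonneg fun A _ => term_nonneg _ _ p hp
  nlinarith

end Pool.Agent.Helper31K9.SR
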