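import Pool.Agent.Helper31K9.SR.St5

/-!
# Project SR, leaf [LNP], weaker condition
-/

set_option autoImplicit false

namespace Pool.Agent.Helper31K9.SR

open Finset MeasureTheory Filter Topology
open Pool.Agent.H189R2.Iid
open scoped ENNReal

namespace LnpL

theorem no_atomsE {e D : ℝ} {ν : Measure ℝ} (h : TameUpTo e D ν) (t : ℝ) : ν {t} = 0 := by
  refine le_antisymm ((h {t}).trans ?_) zero_le
  exact (withDensity_absolutelyContinuous _ _ (measure_singleton t)).le

end LnpL

open LnpL in
/-- [LNP] -/
theorem lnpe : S_LNPe := by
  intro n τ ν s A D ⟨hτ, hν, hat, _, htame⟩ l a b c hab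
  have := hτ l
  have := hν l
  unfold two
  by_cases hb : b = 0
  · subst hb
    have ha : a ≠ 0 := by simpa using hab
    have he : {y : ℝ × ℝ | a * y.1 + 0 * y.2 = c} = {c / a} ×ˢ Set.univ := by
      ext y
      simp only [Set.mem_setOf_eq, Set.mem_prod, Set.mem_singleton_iff, Set.mem_univ, and_true,
        zero_mul, add_zero]
      rw [eq_div_iff ha, mul_comm]
    rw [he, Measure.prod_prod, hat, zero_mul]
  · have hm : MeasurableSet {y : ℝ × ℝ | a * y.1 + b * y.2 = c} :=
      measurableSet_eq_fun ((measurable_fst.const_mul a).add (measurable_snd.const_mul b))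
        measurable_const
    rw [Measure.prod_apply hm]
    refine (lintegral_congr fun x => ?_).trans lintegral_zero
    have he : Prod.mk x ⁻¹' {y : ℝ × ℝ | a * y.1 + b * y.2 = c} = {(c - a * x) / b} := by
      ext y
      simp only [Set.mem_preimage, Set.mem_setOf_eq, Set.mem_singleton_iff]
      rw [eq_div_iff hb]
      constructor
      · intro h; linarith
      · intro h; linarith
    rw [he]
    exact no_atomsE (htame l) _


end Pool.Agent.Helper31K9.SR
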