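import Pool.Agent.Helper31K9.SR.St

/-!
# Local bounds for sums of independent indicators (project SR, leaf LOC)
-/

set_option autoImplicit false

namespace Pool.Agent.Helper31K9.SR

open Finset

namespace LocL

/-- sum of all weights -/
theorem sum_pb {n : ℕ} (U : Finset (Fin n)) (p : Fin n → ℝ) :
    ∑ A ∈ U.powerset, (∏ l ∈ A, p l) * ∏ l ∈ U \ A, (1 - p l) = 1 := by
  rw [← Finset.prod_add]
  exact Finset.prod_eq_one fun l _ => by ring

theorem pb_nonneg {n : ℕ} (U : Finset (Fin n)) (p : Fin n → ℝ) (hp : ∀ l, 0 ≤ p l ∧ p l ≤ 1)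
    (k : ℕ) : 0 ≤ pb U p k :=
  Finset.sum_nonneg fun A _ => mul_nonneg (Finset.prod_nonneg fun l _ => (hp l).1)
    (Finset.prod_nonneg fun l _ => by linarith [(hp l).2])

theorem pb_le_one {n : ℕ} (U : Finset (Fin n)) (p : Fin n → ℝ) (hp : ∀ l, 0 ≤ p l ∧ p l ≤ 1)
    (k : ℕ) : pb U p k ≤ 1 := by
  rw [← sum_pb U p, pb]
  refine Finset.sum_le_sum_of_subset_of_nonneg ?_ fun A _ _ =>
    mul_nonneg (Finset.prod_nonneg fun l _ => (hp l).1)
      (Finset.prod_nonneg fun l _ => by linarith [(hp l).2])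
  intro A hA
  exact Finset.mem_powerset.2 (Finset.mem_powersetCard.1 hA).1

/-- tilted probabilities -/
noncomputable def tl {n : ℕ} (p : Fin n → ℝ) (x : ℝ) (l : Fin n) : ℝ :=
  p l * x / (1 - p l + p l * x)

theorem den_pos {p x : ℝ} (hp : 0 ≤ p ∧ p ≤ 1) (hx : 0 < x) : 0 < 1 - p + p * x := by
  rcases hp.1.eq_or_lt with h | h
  · rw [← h]; simp
  · have := mul_pos h hx
    linarith [hp.2]

theorem tl_mem {n : ℕ} {p : Fin n → ℝ} (hp : ∀ l, 0 ≤ p l ∧ p l ≤ 1) {x : ℝ} (hx : 0 < x)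
    (l : Fin n) : 0 ≤ tl p x l ∧ tl p x l ≤ 1 := by
  have h := den_pos (hp l) hx
  constructor
  · exact div_nonneg (mul_nonneg (hp l).1 hx.le) h.le
  · rw [tl, div_le_one h]
    linarith [(hp l).2]

theorem one_sub_tl {n : ℕ} {p : Fin n → ℝ} (hp : ∀ l, 0 ≤ p l ∧ p l ≤ 1) {x : ℝ} (hx : 0 < x)
    (l : Fin n) : 1 - tl p x l = (1 - p l) / (1 - p l + p l * x) := by
  have h := den_pos (hp l) hx
  rw [tl, eq_div_iff h.ne', sub_mul, div_mul_cancel₀ _ h.ne']
  ring

theorem tilt {n : ℕ} (U : Finset (Fin n)) {p : Fin n → ℝ} (hp : ∀ l, 0 ≤ p l ∧ p l ≤ 1) {x : ℝ}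
    (hx : 0 < x) (k : ℕ) :
    pb U p k * x ^ k = pb U (tl p x) k * ∏ l ∈ U, (1 - p l + p l * x) := by
  classical
  rw [pb, pb, Finset.sum_mul, Finset.sum_mul]
  refine Finset.sum_congr rfl fun A hA => ?_
  obtain ⟨hA1, hA2⟩ := Finset.mem_powersetCard.1 hA
  have h1 : ∏ l ∈ U, (1 - p l + p l * x) =
      (∏ l ∈ A, (1 - p l + p l * x)) * ∏ l ∈ U \ A, (1 - p l + p l * x) := by
    rw [mul_comm, Finset.prod_sdiff hA1]
  have h2 : (∏ l ∈ A, tl p x l) * ∏ l ∈ A, (1 - p l + p l * x) = (∏ l ∈ A, p l) * x ^ k := by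
    rw [← Finset.prod_mul_distrib, ← hA2, ← Finset.prod_const, ← Finset.prod_mul_distrib]
    refine Finset.prod_congr rfl fun l _ => ?_
    rw [tl, div_mul_cancel₀ _ (den_pos (hp l) hx).ne']
  have h3 : (∏ l ∈ U \ A, (1 - tl p x l)) * ∏ l ∈ U \ A, (1 - p l + p l * x) =
      ∏ l ∈ U \ A, (1 - p l) := by
    rw [← Finset.prod_mul_distrib]
    refine Finset.prod_congr rfl fun l _ => ?_
    rw [one_sub_tl hp hx, div_mul_cancel₀ _ (den_pos (hp l) hx).ne']
  rw [h1]
  calc (∏ l ∈ A, p l) * (∏ l ∈ U \ A, (1 - p l)) * x ^ k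
      = ((∏ l ∈ A, p l) * x ^ k) * ∏ l ∈ U \ A, (1 - p l) := by ring
    _ = ((∏ l ∈ A, tl p x l) * ∏ l ∈ A, (1 - p l + p l * x)) *
        ((∏ l ∈ U \ A, (1 - tl p x l)) * ∏ l ∈ U \ A, (1 - p l + p l * x)) := by rw [h2, h3]
    _ = _ := by ring

/-- the moment generating function of one indicator -/
theorem mgf {p u : ℝ} (hp : 0 ≤ p ∧ p ≤ 1) (hu : |u| ≤ 1) :
    1 - p + p * Real.exp u ≤ Real.exp (u * p + u ^ 2 * (p * (1 - p))) := by
  have hy : ∀ y : ℝ, |y| ≤ 1 → Real.exp y ≤ 1 + y + y ^ 2 := fun y hy => by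
    have := (abs_le.1 (Real.abs_exp_sub_one_sub_id_le hy)).2
    linarith
  have h1 : |u * (1 - p)| ≤ 1 := by
    rw [abs_mul, abs_of_nonneg (by linarith [hp.2] : (0 : ℝ) ≤ 1 - p)]
    have := mul_le_mul hu (by linarith [hp.1] : 1 - p ≤ 1) (by linarith [hp.2]) zero_le_one
    linarith
  have h2 : |-(u * p)| ≤ 1 := by
    rw [abs_neg, abs_mul, abs_of_nonneg hp.1]
    have := mul_le_mul hu hp.2 hp.1 zero_le_one
    linarith
  have e1 := mul_le_mul_of_nonneg_left (hy _ h1) hp.1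
  have e2 := mul_le_mul_of_nonneg_left (hy _ h2) (by linarith [hp.2] : (0 : ℝ) ≤ 1 - p)
  have h3 : (1 - p) * Real.exp (-(u * p)) + p * Real.exp (u * (1 - p)) ≤
      Real.exp (u ^ 2 * (p * (1 - p))) := by
    refine le_trans (add_le_add e2 e1) ?_
    have := Real.add_one_le_exp (u ^ 2 * (p * (1 - p)))
    refine le_trans (le_of_eq ?_) this
    ring
  have h4 := mul_le_mul_of_nonneg_left h3 (Real.exp_pos (u * p)).le
  rw [← Real.exp_add] at h4
  refine le_trans (le_of_eq ?_) h4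
  have h5 : Real.exp (u * p) * Real.exp (-(u * p)) = 1 := by
    rw [← Real.exp_add]; simp
  have h6 : Real.exp (u * p) * Real.exp (u * (1 - p)) = Real.exp u := by
    rw [← Real.exp_add]; congr 1; ring
  calc 1 - p + p * Real.exp u = (1 - p) * (Real.exp (u * p) * Real.exp (-(u * p))) +
        p * (Real.exp (u * p) * Real.exp (u * (1 - p))) := by rw [h5, h6]; ring
    _ = _ := by ring

theorem prod_le {n : ℕ} (U : Finset (Fin n)) {p : Fin n → ℝ} (hp : ∀ l, 0 ≤ p l ∧ p l ≤ 1)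
    {u : ℝ} (hu : |u| ≤ 1) :
    ∏ l ∈ U, (1 - p l + p l * Real.exp u) ≤
      Real.exp (u * ∑ l ∈ U, p l + u ^ 2 * ∑ l ∈ U, p l * (1 - p l)) := by
  rw [Finset.mul_sum, Finset.mul_sum, ← Finset.sum_add_distrib, Real.exp_sum]
  exact Finset.prod_le_prod (fun l _ => (den_pos (hp l) (Real.exp_pos u)).le)
    fun l _ => mgf (hp l) hu

/-- the tilted bound -/
theorem tilt_le {n : ℕ} (U : Finset (Fin n)) {p : Fin n → ℝ} (hp : ∀ l, 0 ≤ p l ∧ p l ≤ 1)
    {u : ℝ} (hu : |u| ≤ 1) (k : ℕ) :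
    pb U p k ≤ pb U (tl p (Real.exp u)) k *
      Real.exp (u * (∑ l ∈ U, p l - k) + u ^ 2 * ∑ l ∈ U, p l * (1 - p l)) := by
  have h := tilt U hp (Real.exp_pos u) k
  have h1 := mul_le_mul_of_nonneg_left (prod_le U hp hu)
    (pb_nonneg U _ (tl_mem hp (Real.exp_pos u)) k)
  rw [← h, ← Real.exp_nat_mul] at h1
  have h2 := mul_le_mul_of_nonneg_right h1 (Real.exp_pos (-((k : ℝ) * u))).le
  rw [mul_assoc, ← Real.exp_add, add_neg_cancel, Real.exp_zero, mul_one, mul_assoc,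
    ← Real.exp_add] at h2
  refine h2.trans (le_of_eq ?_)
  congr 2
  ring

/-- the variance after tilting -/
theorem var_tl {n : ℕ} (U : Finset (Fin n)) {p : Fin n → ℝ} (hp : ∀ l, 0 ≤ p l ∧ p l ≤ 1)
    {u : ℝ} (hu : |u| ≤ 1 / 2) :
    (∑ l ∈ U, p l * (1 - p l)) / 4 ≤
      ∑ l ∈ U, tl p (Real.exp u) l * (1 - tl p (Real.exp u) l) := by
  rw [Finset.sum_div]
  refine Finset.sum_le_sum fun l _ => ?_
  have hx := Real.exp_pos u
  have h := den_pos (hp l) hx
  rw [one_sub_tl hp hx, tl, div_mul_div_comm, le_div_iff₀ (mul_pos h h)]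
  have hq : 0 ≤ p l * (1 - p l) := mul_nonneg (hp l).1 (by linarith [(hp l).2])
  have h2 := abs_le.1 hu
  have e1 : Real.exp u ≤ 2 := by
    have h3 : Real.exp u ≤ Real.exp (1 / 2) := Real.exp_le_exp.2 h2.2
    have h4 : Real.exp (1 / 2) ^ 2 ≤ 2 ^ 2 := by
      rw [← Real.exp_nat_mul]
      have := Real.exp_one_lt_d9
      norm_num
      linarith
    exact h3.trans (le_of_sq_le_sq h4 (by norm_num))
  have e2 : 1 / 2 ≤ Real.exp u := by
    have := Real.add_one_le_exp u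
    linarith
  have key : (1 - p l + p l * Real.exp u) * (1 - p l + p l * Real.exp u) ≤ 4 * Real.exp u := by
    generalize Real.exp u = x at *
    have h5 : 1 - p l + p l * x ≤ max 1 x := by
      rcases le_total 1 x with h6 | h6
      · rw [max_eq_right h6]; nlinarith [(hp l).1, (hp l).2]
      · rw [max_eq_left h6]; nlinarith [(hp l).1, (hp l).2]
    rcases le_total 1 x with h6 | h6
    · rw [max_eq_right h6] at h5
      nlinarith
    · rw [max_eq_left h6] at h5
      nlinarith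
  calc p l * (1 - p l) / 4 * ((1 - p l + p l * Real.exp u) * (1 - p l + p l * Real.exp u))
      ≤ p l * (1 - p l) / 4 * (4 * Real.exp u) := mul_le_mul_of_nonneg_left key (by positivity)
    _ = p l * Real.exp u * (1 - p l) := by ring

end LocL

theorem loc : S_SUP → S_LOC := by
  classical
  rintro ⟨C₀, hC₀, hsup⟩
  refine ⟨16 * C₀ + 4, 1 / 60, by positivity, by norm_num, fun n p hp i j hij k => ?_⟩
  obtain ⟨U, hU⟩ : ∃ U : Finset (Fin n), U = univ \ {i, j} := ⟨_, rfl⟩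
  rw [← hU]
  -- removing two indices
  have hrem : ∀ f : Fin n → ℝ, ∑ l, f l = ∑ l ∈ U, f l + (f i + f j) := by
    intro f
    rw [hU, ← Finset.sum_sdiff (Finset.subset_univ ({i, j} : Finset (Fin n))),
      Finset.sum_pair hij]
  have hF := hrem p
  have hV := hrem fun l => p l * (1 - p l)
  have hq : ∀ l, 0 ≤ p l * (1 - p l) ∧ p l * (1 - p l) ≤ 1 / 4 := fun l =>
    ⟨mul_nonneg (hp l).1 (by linarith [(hp l).2]), by nlinarith [sq_nonneg (p l - 1 / 2)]⟩
  have hUV0 : 0 ≤ ∑ l ∈ U, p l * (1 - p l) := Finset.sum_nonneg fun l _ => (hq l).1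
  have hUVF : ∑ l ∈ U, p l * (1 - p l) ≤ ∑ l ∈ U, p l :=
    Finset.sum_le_sum fun l _ => by nlinarith [(hp l).1, (hp l).2]
  have hpb0 := LocL.pb_nonneg U p hp k
  have hpb1 := LocL.pb_le_one U p hp k
  have htl := fun (u : ℝ) (hu : |u| ≤ 1) => LocL.tilt_le U hp hu k
  have hvt := fun (u : ℝ) (hu : |u| ≤ 1 / 2) => LocL.var_tl U hp hu
  obtain ⟨F, hFd⟩ : ∃ F, F = ∑ l, p l := ⟨_, rfl⟩
  obtain ⟨F', hFd'⟩ : ∃ F', F' = ∑ l ∈ U, p l := ⟨_, rfl⟩
  obtain ⟨V, hVd⟩ : ∃ V, V = ∑ l, p l * (1 - p l) := ⟨_, rfl⟩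
  obtain ⟨V', hVd'⟩ : ∃ V', V' = ∑ l ∈ U, p l * (1 - p l) := ⟨_, rfl⟩
  have hs := hsup n U p hp k
  rw [← hFd, ← hFd'] at hF
  rw [← hVd, ← hVd'] at hV
  rw [← hVd'] at hUV0 hs
  rw [← hVd', ← hFd'] at hUVF
  rw [← hFd, ← hVd]
  have hFF : F' ≤ F ∧ F ≤ F' + 2 := ⟨by linarith [(hp i).1, (hp j).1],
    by linarith [(hp i).2, (hp j).2]⟩
  have hVV : V ≤ V' + 1 / 2 := by linarith [(hq i).2, (hq j).2]
  have hdd : |F - k| ≤ |F' - k| + 2 := by
    rcases abs_cases (F - k) with h | h <;> rcases abs_cases (F' - k) with h' | h' <;>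
      linarith [hFF.1, hFF.2]
  -- choice of the sign
  have hsign : ∀ w : ℝ, 0 ≤ w → ∃ u : ℝ, |u| = w ∧ u * (F' - k) = -(w * |F' - k|) := by
    intro w hw
    rcases le_total 0 (F' - k) with h | h
    · exact ⟨-w, by rw [abs_neg, abs_of_nonneg hw], by rw [abs_of_nonneg h]; ring⟩
    · exact ⟨w, abs_of_nonneg hw, by rw [abs_of_nonpos h]; ring⟩
  refine ⟨fun v hv1 hv => ?_, fun hk => ?_⟩
  · have hV' : v / 2 ≤ V' := by linarith
    have hV'0 : 0 < V' := by linarith
    have hsV := Real.sqrt_pos.2 hV'0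
    have hs1 := hs hV'0
    rw [le_div_iff₀ hsV] at hs1
    constructor
    · have h1 : Real.sqrt v ≤ 2 * Real.sqrt V' := by
        rw [show (2 : ℝ) * Real.sqrt V' = Real.sqrt (4 * V') by
          rw [Real.sqrt_mul (by norm_num), show (4 : ℝ) = 2 ^ 2 by norm_num,
            Real.sqrt_sq (by norm_num)]]
        exact Real.sqrt_le_sqrt (by linarith)
      have h2 := mul_le_mul_of_nonneg_left h1 hpb0
      have h3 : pb U p k * (2 * Real.sqrt V') = 2 * (pb U p k * Real.sqrt V') := by ring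
      rw [h3] at h2
      linarith
    · -- tilting
      obtain ⟨w, hw⟩ : ∃ w, w = 1 / (2 * Real.sqrt (V' + 1)) := ⟨_, rfl⟩
      have hs2 : 1 ≤ Real.sqrt (V' + 1) := by
        rw [Real.one_le_sqrt]; linarith
      have hw0 : 0 < w := by rw [hw]; positivity
      have hw1 : w ≤ 1 / 2 := by
        rw [hw]
        apply one_div_le_one_div_of_le two_pos
        linarith
      have hw2 : w ^ 2 * V' ≤ 1 / 4 := by
        rw [hw, div_pow, mul_pow, Real.sq_sqrt (by linarith), one_pow, div_mul_eq_mul_div,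
          div_le_iff₀ (by positivity)]
        linarith
      obtain ⟨u, hu1, hu2⟩ := hsign w hw0.le
      have h1 := htl u (by rw [hu1]; linarith)
      have h2 := hvt u (by rw [hu1]; exact hw1)
      have h3 := hsup n U (LocL.tl p (Real.exp u)) (LocL.tl_mem hp (Real.exp_pos u)) k
        (by rw [← hVd'] at h2; linarith)
      rw [← hFd', ← hVd', hu2, ← sq_abs u, hu1] at h1
      rw [← hVd'] at h2
      have h4 : Real.sqrt (V' / 4) = Real.sqrt V' / 2 := by
        rw [Real.sqrt_div' V' (by norm_num : (0 : ℝ) ≤ 4), show (4 : ℝ) = 2 ^ 2 by norm_num,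
          Real.sqrt_sq (by norm_num)]
      have h5 : pb U (LocL.tl p (Real.exp u)) k ≤ 2 * C₀ / Real.sqrt V' := by
        refine h3.trans ?_
        have h6 : Real.sqrt V' / 2 ≤ Real.sqrt (∑ l ∈ U, LocL.tl p (Real.exp u) l *
          (1 - LocL.tl p (Real.exp u) l)) := by
          rw [← h4]; exact Real.sqrt_le_sqrt h2
        calc C₀ / Real.sqrt (∑ l ∈ U, LocL.tl p (Real.exp u) l *
              (1 - LocL.tl p (Real.exp u) l)) ≤ C₀ / (Real.sqrt V' / 2) :=
              div_le_div_of_nonneg_left hC₀.le (by positivity) h6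
          _ = 2 * C₀ / Real.sqrt V' := by field_simp
      obtain ⟨d, hd⟩ : ∃ d, d = |F' - k| := ⟨_, rfl⟩
      have hd0 : 0 ≤ d := by rw [hd]; exact abs_nonneg _
      rw [← hd] at h1 hdd
      -- pb * d
      have h7 : Real.exp (-(w * d) + w ^ 2 * V') * d ≤ 2 / w := by
        have h8 : Real.exp (-(w * d) + w ^ 2 * V') ≤ Real.exp (-(w * d)) * 2 := by
          rw [Real.exp_add]
          apply mul_le_mul_of_nonneg_left _ (Real.exp_pos _).le
          have h9 : Real.exp (w ^ 2 * V') ≤ Real.exp (1 / 4) := Real.exp_le_exp.2 hw2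
          have h10 : Real.exp (1 / 4) ≤ Real.exp (Real.log 2) := by
            apply Real.exp_le_exp.2
            have := Real.log_two_gt_d9
            linarith
          rw [Real.exp_log two_pos] at h10
          linarith
        have h11 : Real.exp (-(w * d)) * (w * d) ≤ 1 := by
          have := Real.add_one_le_exp (w * d)
          rw [Real.exp_neg, inv_mul_le_iff₀ (Real.exp_pos _)]
          linarith
        rw [le_div_iff₀ hw0]
        have h12 := mul_le_mul_of_nonneg_right h8 (mul_nonneg hd0 hw0.le)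
        nlinarith
      have h13 : 1 / w = 2 * Real.sqrt (V' + 1) := by rw [hw, one_div_one_div]
      have h14 : Real.sqrt (V' + 1) ≤ 2 * Real.sqrt V' := by
        rw [show (2 : ℝ) * Real.sqrt V' = Real.sqrt (4 * V') by
          rw [Real.sqrt_mul (by norm_num), show (4 : ℝ) = 2 ^ 2 by norm_num,
            Real.sqrt_sq (by norm_num)]]
        exact Real.sqrt_le_sqrt (by linarith)
      have h15 : pb U p k * d ≤ 16 * C₀ := by
        have h16 := mul_le_mul_of_nonneg_right h1 hd0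
        have h17 : pb U (LocL.tl p (Real.exp u)) k * Real.exp (-(w * d) + w ^ 2 * V') * d ≤
            (2 * C₀ / Real.sqrt V') * (2 / w) := by
          rw [mul_assoc]
          exact mul_le_mul h5 h7 (mul_nonneg (Real.exp_pos _).le hd0) (by positivity)
        refine h16.trans (h17.trans ?_)
        rw [show 2 / w = 2 * (1 / w) by ring, h13, div_mul_eq_mul_div, div_le_iff₀ hsV]
        have h19 := mul_le_mul_of_nonneg_left h14 hC₀.le
        linarith
      have h18 := mul_le_mul_of_nonneg_left hdd hpb0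
      rw [mul_add] at h18
      linarith
  · have hD0 : 0 < |F - k| := lt_of_le_of_lt (by positivity) hk
    obtain ⟨u, hu1, hu2⟩ := hsign (1 / 6) (by norm_num)
    have h1 := htl u (by rw [hu1]; norm_num)
    have h3 := LocL.pb_le_one U (LocL.tl p (Real.exp u)) (LocL.tl_mem hp (Real.exp_pos u)) k
    rw [← hFd', ← hVd', hu2, ← sq_abs u, hu1] at h1
    have h4 : pb U p k ≤ Real.exp (-(1 / 6 * |F' - k|) + (1 / 6) ^ 2 * V') := by
      refine h1.trans ?_
      have := mul_le_mul_of_nonneg_right h3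
        (Real.exp_pos (-(1 / 6 * |F' - k|) + (1 / 6) ^ 2 * V')).le
      linarith
    have h5 : F ≤ 3 * |F - k| := by
      rcases abs_cases (F - k) with h | h <;> linarith
    have h6 : F + k ≤ 5 * |F - k| := by
      rcases abs_cases (F - k) with h | h <;> linarith
    have h7 : -(1 / 6 * |F' - k|) + (1 / 6) ^ 2 * V' ≤ 1 / 3 + -(1 / 60 * (F + k)) := by
      nlinarith [hFF.1]
    have h8 : Real.exp (1 / 3) ≤ 4 := by
      have h9 : Real.exp (1 / 3) ≤ Real.exp 1 := Real.exp_le_exp.2 (by norm_num)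
      have := Real.exp_one_lt_d9
      linarith
    calc pb U p k ≤ Real.exp (1 / 3 + -(1 / 60 * (F + k))) :=
          h4.trans (Real.exp_le_exp.2 h7)
      _ = Real.exp (1 / 3) * Real.exp (-(1 / 60 * (F + k))) := Real.exp_add _ _
      _ ≤ (16 * C₀ + 4) * Real.exp (-(1 / 60 * (F + k))) :=
          mul_le_mul_of_nonneg_right (by linarith) (Real.exp_pos _).le

end Pool.Agent.Helper31K9.SR
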