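import Pool.Agent.Helper31K9.SR.St4

/-!
# LOG: logistic noise is tame (project SR)
-/

set_option autoImplicit false

namespace Pool.Agent.Helper31K9.SR

open MeasureTheory Set Filter Topology
open scoped ENNReal

theorem log : S_LOG := by
  intro D b hD
  set g : ℝ → ℝ := fun t => 1 / (1 + Real.exp (-(D * (t - b)))) with hg
  have hgs : ∀ t, g t = Real.sigmoid (D * (t - b)) := by
    intro t
    rw [Real.sigmoid_def]
    exact one_div _
  have hpos : ∀ t, 0 < g t := fun t => by rw [hgs]; exact Real.sigmoid_pos _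
  have hlt : ∀ t, g t < 1 := fun t => by rw [hgs]; exact Real.sigmoid_lt_one _
  have hder : ∀ t, HasDerivAt g (D * (g t * (1 - g t))) t := by
    intro t
    have h1 : HasDerivAt (fun t : ℝ => D * (t - b)) D t := by
      simpa using ((hasDerivAt_id t).sub_const b).const_mul D
    have h2 := (Real.hasDerivAt_sigmoid (D * (t - b))).comp t h1
    have h3 : g = Real.sigmoid ∘ fun t : ℝ => D * (t - b) := by
      funext t
      exact hgs t
    rw [h3]
    refine h2.congr_deriv ?_
    show _ = D * ((Real.sigmoid ∘ fun t : ℝ => D * (t - b)) t *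
      (1 - (Real.sigmoid ∘ fun t : ℝ => D * (t - b)) t))
    simp only [Function.comp]
    ring
  have hgc : Continuous g := by
    rw [continuous_iff_continuousAt]
    exact fun t => (hder t).continuousAt
  set d : ℝ → ℝ := fun t => D * (g t * (1 - g t)) with hd
  have hdc : Continuous d := by
    rw [hd]
    fun_prop
  have hdn : ∀ t, 0 ≤ d t := fun t =>
    mul_nonneg hD.le (mul_nonneg (hpos t).le (sub_nonneg.2 (hlt t).le))
  have hbot : Tendsto g atBot (𝓝 0) := by
    have h1 : Tendsto (fun t : ℝ => D * (t - b)) atBot atBot :=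
      (tendsto_id.atBot_add tendsto_const_nhds).const_mul_atBot hD
    refine (Real.tendsto_sigmoid_atBot.comp h1).congr fun t => ?_
    exact (hgs t).symm
  have htop : Tendsto g atTop (𝓝 1) := by
    have h1 : Tendsto (fun t : ℝ => D * (t - b)) atTop atTop :=
      (tendsto_id.atTop_add tendsto_const_nhds).const_mul_atTop hD
    refine (Real.tendsto_sigmoid_atTop.comp h1).congr fun t => ?_
    exact (hgs t).symm
  have hIic : ∀ t, IntegrableOn d (Iic t) := by
    intro t
    refine integrableOn_Iic_of_intervalIntegral_norm_tendsto (a := id) (l := atBot) (g t - 0) t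
      (fun i => (hdc.integrableOn_Icc).mono_set Ioc_subset_Icc_self) tendsto_id ?_
    have h1 : ∀ i : ℝ, g t - g i = ∫ x in i..t, ‖d x‖ := by
      intro i
      have h2 : ∀ x, ‖d x‖ = d x := fun x => Real.norm_of_nonneg (hdn x)
      simp only [h2]
      exact (intervalIntegral.integral_eq_sub_of_hasDerivAt (fun x _ => hder x)
        (hdc.intervalIntegrable _ _)).symm
    exact (tendsto_const_nhds.sub hbot).congr h1
  have hint : ∀ t, ∫ x in Iic t, d x = g t := by
    intro t
    have h1 := integral_Iic_of_hasDerivAt_of_tendsto' (fun x _ => hder x) (hIic t) hbot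
    rw [h1, sub_zero]
  set ν : Measure ℝ := volume.withDensity (fun t => ENNReal.ofReal (d t)) with hν
  have hνI : ∀ t, ν (Iio t) = ENNReal.ofReal (g t) := by
    intro t
    rw [hν, withDensity_apply _ measurableSet_Iio, ← hint t,
      ofReal_integral_eq_lintegral_ofReal (hIic t) (Eventually.of_forall hdn)]
    exact setLIntegral_congr Iio_ae_eq_Iic
  have hνr : ∀ t, (ν (Iio t)).toReal = g t := fun t => by
    rw [hνI, ENNReal.toReal_ofReal (hpos t).le]
  have huniv : (⋃ n : ℕ, Iio (n : ℝ)) = univ := by
    rw [eq_univ_iff_forall]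
    intro x
    obtain ⟨n, hn⟩ := exists_nat_gt x
    exact mem_iUnion.2 ⟨n, hn⟩
  have hprob : IsProbabilityMeasure ν := by
    constructor
    have h1 : Tendsto (fun n : ℕ => ν (Iio (n : ℝ))) atTop (𝓝 (ν (⋃ n : ℕ, Iio (n : ℝ)))) :=
      tendsto_measure_iUnion_atTop (fun m n hmn => Iio_subset_Iio (by exact_mod_cast hmn))
    have h2 : Tendsto (fun n : ℕ => ν (Iio (n : ℝ))) atTop (𝓝 (ENNReal.ofReal 1)) := by
      simp only [hνI]
      exact ENNReal.tendsto_ofReal (htop.comp tendsto_natCast_atTop_atTop)
    rw [huniv] at h1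
    rw [tendsto_nhds_unique h1 h2, ENNReal.ofReal_one]
  refine ⟨ν, hprob, ?_, hνr⟩
  unfold Tame
  simp only [hνr]
  exact le_refl _

end Pool.Agent.Helper31K9.SR
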