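import Pool.Agent.Helper31K9.SR.St

/-!
SR (MP_a08d0a_co): the leaf WIN (windows of masses for different laws).
-/

set_option autoImplicit false

namespace Pool.Agent.Helper31K9.SR

open Finset MeasureTheory Filter Topology
open Pool.Agent.H189R2.Iid
open scoped ENNReal

namespace WinL

/-- oriented pairs of points in `A` -/
def BB (A : Set ((ℝ × ℝ) × (ℝ × ℝ))) : Set ((ℝ × ℝ) × (ℝ × ℝ)) := {z | z.2.1 < z.1.1 ∧ z ∈ A}

theorem meas_BB {A : Set ((ℝ × ℝ) × (ℝ × ℝ))} (hA : MeasurableSet A) : MeasurableSet (BB A) :=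
  (measurableSet_lt measurable_snd.fst measurable_fst.fst).inter hA

/-- the law of two coordinates -/
theorem law2 {n : ℕ} (μ : Fin n → Measure (ℝ × ℝ)) (hμ : ∀ l, IsProbabilityMeasure (μ l))
    {i j : Fin n} (hij : i ≠ j) :
    (Measure.pi μ).map (fun P : Fin n → ℝ × ℝ => (P i, P j)) = (μ i).prod (μ j) := by
  have h1 : ProbabilityTheory.iIndepFun (fun (i : Fin n) (ω : Fin n → ℝ × ℝ) => id (ω i))
      (Measure.pi μ) := ProbabilityTheory.iIndepFun_pi (fun i => aemeasurable_id)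
  have h2 := h1.indepFun hij
  have h3 := (ProbabilityTheory.indepFun_iff_map_prod_eq_prod_map_map
    (measurable_pi_apply i).aemeasurable (measurable_pi_apply j).aemeasurable).mp h2
  have e1 : (Measure.pi μ).map (fun f : Fin n → ℝ × ℝ => f i) = μ i :=
    (measurePreserving_eval μ i).map_eq
  have e2 : (Measure.pi μ).map (fun f : Fin n → ℝ × ℝ => f j) = μ j :=
    (measurePreserving_eval μ j).map_eq
  rw [e1, e2] at h3
  exact h3

theorem pi_BB {n : ℕ} (μ : Fin n → Measure (ℝ × ℝ)) (hμ : ∀ l, IsProbabilityMeasure (μ l))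
    {i j : Fin n} (hij : i ≠ j) {A : Set ((ℝ × ℝ) × (ℝ × ℝ))} (hA : MeasurableSet A) :
    Measure.pi μ (Ev2 A i j) = (μ i).prod (μ j) (BB A) := by
  rw [← law2 μ hμ hij, Measure.map_apply ((measurable_pi_apply i).prodMk (measurable_pi_apply j))
    (meas_BB hA)]
  rfl

/-- the average law -/
noncomputable def av {n : ℕ} (μ : Fin n → Measure (ℝ × ℝ)) : Measure (ℝ × ℝ) :=
  (n : ℝ≥0∞)⁻¹ • ∑ l, μ l

theorem av_apply {n : ℕ} (μ : Fin n → Measure (ℝ × ℝ)) (s : Set (ℝ × ℝ)) :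
    av μ s = (n : ℝ≥0∞)⁻¹ * ∑ l, μ l s := by
  unfold av
  rw [Measure.smul_apply, Measure.finset_sum_apply, smul_eq_mul]

theorem cancel {n : ℕ} (hn : 0 < n) (x : ℝ≥0∞) : (n : ℝ≥0∞) * ((n : ℝ≥0∞)⁻¹ * x) = x := by
  rw [← mul_assoc, ENNReal.mul_inv_cancel (by exact_mod_cast hn.ne') (ENNReal.natCast_ne_top n),
    one_mul]

theorem av_prob {n : ℕ} (hn : 0 < n) (μ : Fin n → Measure (ℝ × ℝ))
    (hμ : ∀ l, IsProbabilityMeasure (μ l)) : IsProbabilityMeasure (av μ) := by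
  constructor
  rw [av_apply]
  simp only [measure_univ, sum_const, card_univ, Fintype.card_fin, nsmul_eq_mul, mul_one]
  exact ENNReal.inv_mul_cancel (by exact_mod_cast hn.ne') (ENNReal.natCast_ne_top n)

theorem av_LN {n : ℕ} (μ : Fin n → Measure (ℝ × ℝ)) (hL : ∀ l, LN (μ l)) : LN (av μ) := by
  intro a b c h
  rw [av_apply]
  have : ∑ l, μ l {y | a * y.1 + b * y.2 = c} = 0 := sum_eq_zero (fun l _ => hL l a b c h)
  rw [this, mul_zero]

theorem av_prod {n : ℕ} (hn : 0 < n) (μ : Fin n → Measure (ℝ × ℝ))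
    (hμ : ∀ l, IsProbabilityMeasure (μ l)) {B : Set ((ℝ × ℝ) × (ℝ × ℝ))} (hB : MeasurableSet B) :
    (n : ℝ≥0∞) * ((n : ℝ≥0∞) * (av μ).prod (av μ) B) = ∑ i, ∑ j, (μ i).prod (μ j) B := by
  haveI := av_prob hn μ hμ
  have h1 : (av μ).prod (av μ) B = (n : ℝ≥0∞)⁻¹ * ∑ i, ∫⁻ x, av μ (Prod.mk x ⁻¹' B) ∂μ i := by
    rw [Measure.prod_apply hB]
    conv_lhs => rw [show av μ = (n : ℝ≥0∞)⁻¹ • ∑ l, μ l from rfl]
    rw [lintegral_smul_measure, lintegral_finset_sum_measure, smul_eq_mul]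
    rfl
  have h2 : ∀ i, ∫⁻ x, av μ (Prod.mk x ⁻¹' B) ∂μ i =
      (n : ℝ≥0∞)⁻¹ * ∑ j, (μ i).prod (μ j) B := by
    intro i
    simp_rw [av_apply]
    rw [lintegral_const_mul _ (Finset.measurable_sum _
      (fun j _ => measurable_measure_prodMk_left hB)), lintegral_finset_sum _
      (fun j _ => measurable_measure_prodMk_left hB)]
    congr 1
    apply sum_congr rfl
    intro j _
    rw [Measure.prod_apply hB]
  rw [h1]
  simp_rw [h2]
  rw [← mul_sum, cancel hn, cancel hn]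

theorem mean_FF {n : ℕ} (hn : 0 < n) (μ : Fin n → Measure (ℝ × ℝ))
    (hμ : ∀ l, IsProbabilityMeasure (μ l)) (p q : ℝ × ℝ) :
    mean μ (X2 p q) (Y2 p q) = n * FF (av μ) p q := by
  unfold FF
  rw [av_apply, ENNReal.toReal_mul, ENNReal.toReal_inv, ENNReal.toReal_natCast,
    ENNReal.toReal_sum (fun l _ => measure_ne_top _ _), ← mul_assoc,
    mul_inv_cancel₀ (by exact_mod_cast hn.ne'), one_mul]
  rfl

theorem WS_eq {n : ℕ} (hn : 0 < n) (μ : Fin n → Measure (ℝ × ℝ))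
    (hμ : ∀ l, IsProbabilityMeasure (μ l)) (t r : ℝ) (i j : Fin n) :
    WS μ t r i j = Ev2 (WA (av μ) (t / n) (r / n)) i j := by
  have hn0 : (0 : ℝ) < n := by exact_mod_cast hn
  ext P
  unfold WS Ev2 WA
  simp only [Set.mem_setOf_eq, Set.mem_univ, and_true]
  rw [mean_FF hn μ hμ]
  have : |(n : ℝ) * FF (av μ) (P i) (P j) - t| ≤ r ↔ |FF (av μ) (P i) (P j) - t / n| ≤ r / n := by
    have e : (n : ℝ) * FF (av μ) (P i) (P j) - t = n * (FF (av μ) (P i) (P j) - t / n) := by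
      field_simp
    rw [e, abs_mul, abs_of_pos hn0, le_div_iff₀ hn0, mul_comm]
  rw [this]

theorem sum_le {n : ℕ} (hn : 0 < n) (μ : Fin n → Measure (ℝ × ℝ))
    (hμ : ∀ l, IsProbabilityMeasure (μ l)) (t r : ℝ) :
    ∑ q ∈ (univ : Finset (Fin n)).offDiag, (Measure.pi μ (WS μ t r q.1 q.2)).toReal ≤
      n * (n * (ee (av μ) (WA (av μ) (t / n) (r / n))).toReal) := by
  haveI := av_prob hn μ hμ
  set A := WA (av μ) (t / n) (r / n) with hA
  have hAm : MeasurableSet A := meas_WA _ _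
  have hee : ee (av μ) A = (av μ).prod (av μ) (BB A) :=
    pi_BB (fun _ : Fin 2 => av μ) (fun _ => this) (by decide) hAm
  have hfin : ∀ i j, (μ i).prod (μ j) (BB A) ≠ ⊤ := fun i j => measure_ne_top _ _
  have h1 : (n : ℝ) * (n * (ee (av μ) A).toReal) =
      ∑ i, ∑ j, ((μ i).prod (μ j) (BB A)).toReal := by
    have h2 := congrArg ENNReal.toReal (av_prod hn μ hμ (meas_BB hAm))
    rw [ENNReal.toReal_mul, ENNReal.toReal_mul, ENNReal.toReal_natCast,
      ENNReal.toReal_sum (fun i _ => ENNReal.sum_ne_top.mpr (fun j _ => hfin i j))] at h2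
    rw [hee, h2]
    apply sum_congr rfl
    intro i _
    exact ENNReal.toReal_sum (fun j _ => hfin i j)
  rw [h1, ← Fintype.sum_prod_type']
  calc ∑ q ∈ (univ : Finset (Fin n)).offDiag, (Measure.pi μ (WS μ t r q.1 q.2)).toReal =
      ∑ q ∈ (univ : Finset (Fin n)).offDiag, ((μ q.1).prod (μ q.2) (BB A)).toReal := by
        apply sum_congr rfl
        intro q hq
        rw [mem_offDiag] at hq
        rw [WS_eq hn μ hμ, pi_BB μ hμ hq.2.2 hAm]
    _ ≤ ∑ q : Fin n × Fin n, ((μ q.1).prod (μ q.2) (BB A)).toReal :=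
        sum_le_sum_of_subset_of_nonneg (subset_univ _) (fun _ _ _ => ENNReal.toReal_nonneg)

end WinL

open WinL in
theorem win : S_WIN := by
  intro n μ hμ hL
  rcases Nat.eq_zero_or_pos n with hn | hn
  · subst hn
    constructor
    · intro t r hr hrt htn
      push_cast at htn
      linarith
    · intro t ht
      simp
  have hn0 : (0 : ℝ) < n := by exact_mod_cast hn
  haveI := av_prob hn μ hμ
  constructor
  · intro t r hr hrt htn
    refine (sum_le hn μ hμ t r).trans ?_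
    have h1 := ee_le (av_LN μ hL) (α := t / n) (δ := r / n) (by positivity)
      (div_le_div_of_nonneg_right hrt hn0.le) (by rw [div_le_one hn0]; exact htn)
    set x := (ee (av μ) (WA (av μ) (t / n) (r / n))).toReal with hx
    have hx0 : 0 ≤ x := ENNReal.toReal_nonneg
    have htr : 0 ≤ t * r ^ 2 := mul_nonneg (by linarith) (sq_nonneg _)
    have h2 : (n * x) ^ 3 ≤ (650 * (t * r ^ 2) ^ (1 / 3 : ℝ)) ^ 3 := by
      have e1 : (650 * (t * r ^ 2) ^ (1 / 3 : ℝ)) ^ 3 = 650 ^ 3 * (t * r ^ 2) := by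
        rw [mul_pow, ← Real.rpow_natCast ((t * r ^ 2) ^ (1 / 3 : ℝ)) 3, ← Real.rpow_mul htr]
        norm_num
      have e2 : (n : ℝ) ^ 3 * (650 ^ 3 * (t / n * (r / n) ^ 2)) = 650 ^ 3 * (t * r ^ 2) := by
        field_simp
      rw [e1, ← e2, mul_pow]
      exact mul_le_mul_of_nonneg_left h1 (by positivity)
    have h3 : n * x ≤ 650 * (t * r ^ 2) ^ (1 / 3 : ℝ) :=
      (pow_le_pow_iff_left₀ (by positivity) (by positivity) (by norm_num)).mp h2
    calc (n : ℝ) * (n * x) ≤ n * (650 * (t * r ^ 2) ^ (1 / 3 : ℝ)) :=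
          mul_le_mul_of_nonneg_left h3 hn0.le
      _ = 650 * n * (t * r ^ 2) ^ (1 / 3 : ℝ) := by ring
  · intro t ht
    refine (sum_le hn μ hμ 0 t).trans ?_
    have h1 := ee_zero (av_LN μ hL) (t := t / n) (by positivity)
    rw [zero_div]
    calc (n : ℝ) * (n * (ee (av μ) (WA (av μ) 0 (t / n))).toReal) ≤ n * (n * (4 * (t / n))) := by
          apply mul_le_mul_of_nonneg_left _ hn0.le
          exact mul_le_mul_of_nonneg_left h1 hn0.le
      _ = 4 * n * t := by field_simp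

end Pool.Agent.Helper31K9.SR
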