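import Pool.Agent.Helper31K9.SR.St5
import Pool.Agent.Helper86K9.SR.Lov

/-!
# The leaf LOV of project SR, weaker condition (adapted from `Helper86K9/SR/Lov.lean`)
-/

set_option autoImplicit false

namespace Pool.Agent.Helper31K9.SR

open Finset MeasureTheory Filter Topology
open Pool.Agent.H189R2.Iid
open Pool.Agent.Helper31K9.SR.WinL (BB meas_BB law2)
open scoped ENNReal

open Pool.Agent.Helper86K9.SR.LovL in
open Classical in
theorem love (hLA : S_LAWA) (hRN : S_RNK) (hRA : S_RATe) (hPB : S_PBI) (hLN : S_LNPe) : S_LOVe := by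
  intro n τ ν s A D c X v hStd hD hA hX hv1 k
  have hv : 0 ≤ v := by linarith
  have hn0 : (0:ℝ) ≤ 1 / n := by positivity
  have hτ := hStd.1
  have hν := hStd.2.1
  have hsA := hStd.2.2.2.1
  have hT := hStd.2.2.2.2
  set μ : Fin n → Measure (ℝ × ℝ) := two τ ν with hμd
  have hμ : ∀ l, IsProbabilityMeasure (μ l) := by
    intro l
    have := hτ l
    have := hν l
    rw [hμd]
    unfold two
    infer_instance
  have hln : ∀ l, LN (μ l) := hLN n τ ν s A D hStd
  have hAm : MeasurableSet (LowA μ c X v) := meas_LowA μ hμ c X v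
  -- the integrands
  obtain ⟨G, hG⟩ : ∃ G : Fin n → Fin n → ℝ × ℝ → ℝ → ℝ≥0∞, ∀ i j p x, G i j p x =
    if x ∈ Set.Ioo c (c + X) ∧ var μ x (p.1 * x + p.2) < v then
      ENNReal.ofReal (pb (univ \ {i, j}) (pr μ x (p.1 * x + p.2)) k) else 0 :=
    ⟨_, fun _ _ _ _ => rfl⟩
  obtain ⟨F, hF⟩ : ∃ F : Fin n → ℕ → ℝ × ℝ → ℝ → ℝ≥0∞, ∀ i k p x, F i k p x =
    ENNReal.ofReal (pb (univ \ {i}) (pr μ x (p.1 * x + p.2)) k) := ⟨_, fun _ _ _ _ => rfl⟩
  obtain ⟨W, hW⟩ : ∃ W : Fin n → ℝ × ℝ → ℝ → ℝ≥0∞, ∀ j p x, W j p x = ENNReal.ofReal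
      (pr μ x (p.1 * x + p.2) j * (1 - pr μ x (p.1 * x + p.2) j) + 1 / n) :=
    ⟨_, fun _ _ _ => rfl⟩
  have hxy : Measurable (fun z : (ℝ × ℝ) × ℝ => (z.2, z.1.1 * z.2 + z.1.2)) := by fun_prop
  have hGm : ∀ i j, Measurable (fun z : (ℝ × ℝ) × ℝ => G i j z.1 z.2) := by
    intro i j
    simp only [hG]
    refine Measurable.ite ?_ ?_ measurable_const
    · exact (measurable_snd measurableSet_Ioo).inter
        (measurableSet_lt ((meas_var μ hμ).comp hxy) measurable_const)
    · exact ((meas_pb μ hμ _ k).comp hxy).ennreal_ofReal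
  have hFm : ∀ i k, Measurable (fun z : (ℝ × ℝ) × ℝ => F i k z.1 z.2) := by
    intro i k
    simp only [hF]
    exact ((meas_pb μ hμ _ k).comp hxy).ennreal_ofReal
  have hprm : ∀ j, Measurable (fun z : (ℝ × ℝ) × ℝ => W j z.1 z.2) := by
    intro j
    simp only [hW]
    have h1 := (meas_pr μ hμ j).comp hxy
    exact ((h1.mul (measurable_const.sub h1)).add_const _).ennreal_ofReal
  -- one pair
  have hone : ∀ i j : Fin n, i ≠ j →
      Measure.pi μ {P | P ∈ Ev2 (LowA μ c X v) i j ∧ lev P (i, j) = k} ≤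
        ∫⁻ p, ENNReal.ofReal (A * D) * ∫⁻ x, W j p x * G i j p x ∂volume ∂μ i := by
    intro i j hij
    refine (hLA n μ hμ i j hij _ hAm k).trans ?_
    have := hτ j
    have := hν j
    have hgm : Measurable (fun z : (ℝ × ℝ) × (ℝ × ℝ) => ENNReal.ofReal
        (pb (univ \ {i, j}) (pr μ (X2 z.1 z.2) (Y2 z.1 z.2)) k)) := by
      have h1 : Measurable (fun z : (ℝ × ℝ) × (ℝ × ℝ) => X2 z.1 z.2) :=
        measurable_X2 measurable_fst measurable_snd
      have h2 : Measurable (fun z : (ℝ × ℝ) × (ℝ × ℝ) => Y2 z.1 z.2) :=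
        measurable_Y2 measurable_fst measurable_snd
      exact ((meas_pb μ hμ _ k).comp (h1.prodMk h2)).ennreal_ofReal
    have e1 : ∫⁻ P in Ev2 (LowA μ c X v) i j, ENNReal.ofReal
        (pb (univ \ {i, j}) (pr μ (X2 (P i) (P j)) (Y2 (P i) (P j))) k) ∂Measure.pi μ =
        ∫⁻ z in BB (LowA μ c X v), ENNReal.ofReal
          (pb (univ \ {i, j}) (pr μ (X2 z.1 z.2) (Y2 z.1 z.2)) k) ∂(μ i).prod (μ j) := by
      rw [← law2 μ hμ hij, setLIntegral_map (meas_BB hAm) hgm
        ((measurable_pi_apply i).prodMk (measurable_pi_apply j))]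
      rfl
    have := hμ i
    have := hμ j
    rw [e1, ← lintegral_indicator (meas_BB hAm), lintegral_prod _
      (hgm.indicator (meas_BB hAm)).aemeasurable]
    refine lintegral_mono_ae ?_
    have hae : ∀ᵐ p ∂μ i, s ≤ p.1 ∧ p.1 ≤ s + A := by
      have h1 : Measure.QuasiMeasurePreserving (Prod.fst : ℝ × ℝ → ℝ) (μ i) (τ i) := by
        have := hν i
        exact Measure.quasiMeasurePreserving_fst
      exact h1.ae (hsA i)
    filter_upwards [hae] with p hp
    have hGp : Measurable (G i j p) := (hGm i j).comp measurable_prodMk_left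
    have h2 := hRA (τ j) (ν j) s A D (1 / n) (hτ j) (hν j) (hsA j) (hT j) hD hA hn0 p hp.1 hp.2
      (G i j p) hGp
    have h2' : ∫⁻ q in {q : ℝ × ℝ | q.1 < p.1}, G i j p (X2 p q) ∂((τ j).prod (ν j)) ≤
        ENNReal.ofReal (A * D) * ∫⁻ x, W j p x * G i j p x ∂volume := by
      simp only [hW]
      exact h2
    refine le_trans (le_of_eq ?_) h2'
    have hlt : MeasurableSet {q : ℝ × ℝ | q.1 < p.1} :=
      measurableSet_lt measurable_fst measurable_const
    rw [← lintegral_indicator hlt]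
    refine lintegral_congr fun q => ?_
    by_cases hq : q.1 < p.1
    · have hq' : q ∈ {q : ℝ × ℝ | q.1 < p.1} := hq
      rw [Set.indicator_of_mem hq']
      by_cases hz : (p, q) ∈ LowA μ c X v
      · have hz' : (p, q) ∈ BB (LowA μ c X v) := ⟨hq, hz⟩
        rw [Set.indicator_of_mem hz']
        have hz2 : X2 p q ∈ Set.Ioo c (c + X) ∧ var μ (X2 p q) (p.1 * X2 p q + p.2) < v := hz
        rw [hG, if_pos hz2]
        rfl
      · have hz' : (p, q) ∉ BB (LowA μ c X v) := fun h => hz h.2
        rw [Set.indicator_of_notMem hz']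
        have hz2 : ¬ (X2 p q ∈ Set.Ioo c (c + X) ∧ var μ (X2 p q) (p.1 * X2 p q + p.2) < v) := hz
        rw [hG, if_neg hz2]
    · have hq' : q ∉ {q : ℝ × ℝ | q.1 < p.1} := hq
      have hz' : (p, q) ∉ BB (LowA μ c X v) := fun h => hq h.1
      rw [Set.indicator_of_notMem hq', Set.indicator_of_notMem hz']
  -- the sum over `j`
  have hpt : ∀ (i : Fin n) (p : ℝ × ℝ) (x : ℝ),
      ∑ j ∈ univ.filter (fun j => i ≠ j), W j p x * G i j p x ≤
        (Set.Ioo c (c + X)).indicator
          (fun x => ENNReal.ofReal (4 * v) * (F i k p x + F i (k + 1) p x)) x := by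
    intro i p x
    by_cases h : x ∈ Set.Ioo c (c + X) ∧ var μ x (p.1 * x + p.2) < v
    · rw [Set.indicator_of_mem h.1]
      set y := p.1 * x + p.2 with hy
      have hp := pr_mem μ hμ x y
      have hpb0 : ∀ (U : Finset (Fin n)) (k : ℕ), 0 ≤ pb U (pr μ x y) k := by
        intro U k
        unfold pb
        exact Finset.sum_nonneg fun B _ => mul_nonneg
          (Finset.prod_nonneg fun l _ => (hp l).1)
          (Finset.prod_nonneg fun l _ => by linarith [(hp l).2])
      have h1 : ∀ j ∈ univ.filter (fun j => i ≠ j), W j p x * G i j p x ≤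
          ENNReal.ofReal (pr μ x y j * (1 - pr μ x y j) + 1 / n) *
            ENNReal.ofReal (2 * (pb (univ \ {i}) (pr μ x y) k + pb (univ \ {i}) (pr μ x y) (k + 1))) := by
        intro j hj
        rw [hW, hG]
        refine mul_le_mul_right ?_ _
        rw [if_pos h]
        exact ENNReal.ofReal_le_ofReal (hPB n _ hp i j (Finset.mem_filter.1 hj).2 k)
      refine (Finset.sum_le_sum h1).trans ?_
      rw [← Finset.sum_mul, ← ENNReal.ofReal_sum_of_nonneg fun j _ =>
        add_nonneg (mul_nonneg (hp j).1 (by linarith [(hp j).2])) hn0]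
      have h2 : ∑ j ∈ univ.filter (fun j => i ≠ j), pr μ x y j * (1 - pr μ x y j) ≤ v := by
        refine le_trans ?_ h.2.le
        unfold var
        exact Finset.sum_le_sum_of_subset_of_nonneg (Finset.subset_univ _) fun j _ _ =>
          mul_nonneg (hp j).1 (by linarith [(hp j).2])
      have h2' : ∑ j ∈ univ.filter (fun j => i ≠ j), (pr μ x y j * (1 - pr μ x y j) + 1 / n) ≤
          2 * v := by
        rw [Finset.sum_add_distrib, Finset.sum_const, nsmul_eq_mul]
        have h5 : ((univ.filter (fun j => i ≠ j)).card : ℝ) * (1 / n) ≤ 1 := by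
          have h6 : (univ.filter (fun j => i ≠ j)).card ≤ n := by
            refine (Finset.card_filter_le _ _).trans ?_
            rw [Finset.card_univ, Fintype.card_fin]
          have h7 : ((univ.filter (fun j => i ≠ j)).card : ℝ) ≤ n := by exact_mod_cast h6
          have h8 : (0:ℝ) < n := by
            have : 0 < n := i.pos
            exact_mod_cast this
          rw [mul_one_div, div_le_one h8]
          exact h7
        linarith
      have hS0 : 0 ≤ ∑ j ∈ univ.filter (fun j => i ≠ j), (pr μ x y j * (1 - pr μ x y j) + 1 / n) :=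
        Finset.sum_nonneg fun j _ =>
          add_nonneg (mul_nonneg (hp j).1 (by linarith [(hp j).2])) hn0
      rw [hF, hF, ← ENNReal.ofReal_add (hpb0 _ _) (hpb0 _ _),
        ← ENNReal.ofReal_mul (p := 4 * v) (by positivity), ← ENNReal.ofReal_mul hS0]
      refine ENNReal.ofReal_le_ofReal ?_
      have h3 := hpb0 (univ \ {i}) k
      have h4 := hpb0 (univ \ {i}) (k + 1)
      nlinarith
    · have h0 : ∀ j ∈ univ.filter (fun j => i ≠ j), W j p x * G i j p x = 0 := by
        intro j _
        have : G i j p x = 0 := by rw [hG, if_neg h]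
        rw [this, mul_zero]
      rw [Finset.sum_eq_zero h0]
      exact zero_le
  have hsum : ∀ Q : Fin n → Fin n → ℝ≥0∞, ∑ q ∈ (univ : Finset (Fin n)).offDiag, Q q.1 q.2 =
      ∑ i, ∑ j ∈ univ.filter (fun j => i ≠ j), Q i j := by
    intro Q
    have h1 : (univ : Finset (Fin n)).offDiag =
        (univ : Finset (Fin n × Fin n)).filter (fun q => q.1 ≠ q.2) := by
      ext q
      simp [Finset.mem_offDiag]
    rw [h1, Finset.sum_filter, Fintype.sum_prod_type]
    refine Finset.sum_congr rfl fun i _ => ?_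
    rw [Finset.sum_filter]
  have hone' : ∀ i, ∑ j ∈ univ.filter (fun j => i ≠ j),
      Measure.pi μ {P | P ∈ Ev2 (LowA μ c X v) i j ∧ lev P (i, j) = k} ≤
        ENNReal.ofReal (A * D) * (ENNReal.ofReal (4 * v) *
          ∫⁻ x in Set.Ioo c (c + X), ∫⁻ p, (F i k p x + F i (k + 1) p x) ∂μ i ∂volume) := by
    intro i
    have := hμ i
    have hm1 : ∀ j, Measurable (fun z : (ℝ × ℝ) × ℝ => W j z.1 z.2 * G i j z.1 z.2) :=
      fun j => (hprm j).mul (hGm i j)
    have hm4 : ∀ j, Measurable (fun p : ℝ × ℝ => ∫⁻ x, W j p x * G i j p x ∂volume) :=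
      fun j => (hm1 j).lintegral_prod_right'
    have hm5 : ∀ (j : Fin n) (p : ℝ × ℝ), Measurable (fun x : ℝ => W j p x * G i j p x) :=
      fun j p => (hm1 j).comp measurable_prodMk_left
    calc ∑ j ∈ univ.filter (fun j => i ≠ j),
          Measure.pi μ {P | P ∈ Ev2 (LowA μ c X v) i j ∧ lev P (i, j) = k}
        ≤ ∑ j ∈ univ.filter (fun j => i ≠ j),
          ∫⁻ p, ENNReal.ofReal (A * D) * ∫⁻ x, W j p x * G i j p x ∂volume ∂μ i :=
          Finset.sum_le_sum fun j hj => hone i j (Finset.mem_filter.1 hj).2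
      _ = ∫⁻ p, ENNReal.ofReal (A * D) * ∫⁻ x, ∑ j ∈ univ.filter (fun j => i ≠ j),
          W j p x * G i j p x ∂volume ∂μ i := by
          rw [← lintegral_finsetSum _ (fun j _ => (hm4 j).const_mul _)]
          refine lintegral_congr fun p => ?_
          rw [← Finset.mul_sum, lintegral_finsetSum _ (fun j _ => hm5 j p)]
      _ ≤ ∫⁻ p, ENNReal.ofReal (A * D) * ∫⁻ x in Set.Ioo c (c + X), ENNReal.ofReal (4 * v) *
          (F i k p x + F i (k + 1) p x) ∂volume ∂μ i := by
          refine lintegral_mono fun p => mul_le_mul_right ?_ _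
          rw [← lintegral_indicator measurableSet_Ioo]
          exact lintegral_mono fun x => hpt i p x
      _ = ENNReal.ofReal (A * D) * (ENNReal.ofReal (4 * v) *
          ∫⁻ x in Set.Ioo c (c + X), ∫⁻ p, (F i k p x + F i (k + 1) p x) ∂μ i ∂volume) := by
          have hm2 : Measurable (fun z : (ℝ × ℝ) × ℝ => F i k z.1 z.2 + F i (k + 1) z.1 z.2) :=
            (hFm i k).add (hFm i (k + 1))
          rw [lintegral_const_mul]
          · congr 1
            have e3 : ∫⁻ x in Set.Ioo c (c + X), ∫⁻ p, (F i k p x + F i (k + 1) p x) ∂μ i ∂volume =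
                ∫⁻ p, ∫⁻ x in Set.Ioo c (c + X), (F i k p x + F i (k + 1) p x) ∂volume ∂μ i :=
              (lintegral_lintegral_swap (μ := μ i) (ν := volume.restrict (Set.Ioo c (c + X)))
                (f := fun p x => F i k p x + F i (k + 1) p x) hm2.aemeasurable).symm
            have hm3 : Measurable (fun p : ℝ × ℝ =>
                ∫⁻ x in Set.Ioo c (c + X), (F i k p x + F i (k + 1) p x) ∂volume) :=
              hm2.lintegral_prod_right'
            have hm6 : ∀ p : ℝ × ℝ, Measurable (fun x : ℝ => F i k p x + F i (k + 1) p x) :=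
              fun p => hm2.comp measurable_prodMk_left
            rw [e3, ← lintegral_const_mul _ hm3]
            refine lintegral_congr fun p => ?_
            rw [lintegral_const_mul _ (hm6 p)]
          · exact (hm2.const_mul _).lintegral_prod_right'
  calc ∑ q ∈ (univ : Finset (Fin n)).offDiag,
        Measure.pi μ {P | P ∈ Ev2 (LowA μ c X v) q.1 q.2 ∧ lev P (q.1, q.2) = k}
      = ∑ i, ∑ j ∈ univ.filter (fun j => i ≠ j),
        Measure.pi μ {P | P ∈ Ev2 (LowA μ c X v) i j ∧ lev P (i, j) = k} :=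
        hsum fun i j => Measure.pi μ {P | P ∈ Ev2 (LowA μ c X v) i j ∧ lev P (i, j) = k}
    _ ≤ ∑ i, ENNReal.ofReal (A * D) * (ENNReal.ofReal (4 * v) *
          ∫⁻ x in Set.Ioo c (c + X), ∫⁻ p, (F i k p x + F i (k + 1) p x) ∂μ i ∂volume) :=
        Finset.sum_le_sum fun i _ => hone' i
    _ = ENNReal.ofReal (A * D) * (ENNReal.ofReal (4 * v) *
          ∫⁻ x in Set.Ioo c (c + X), ∑ i, ∫⁻ p, (F i k p x + F i (k + 1) p x) ∂μ i ∂volume) := by
        rw [← Finset.mul_sum, ← Finset.mul_sum, lintegral_finsetSum]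
        intro i _
        have := hμ i
        have hm2 : Measurable (fun z : (ℝ × ℝ) × ℝ => F i k z.1 z.2 + F i (k + 1) z.1 z.2) :=
          (hFm i k).add (hFm i (k + 1))
        exact hm2.lintegral_prod_left'
    _ ≤ ENNReal.ofReal (A * D) * (ENNReal.ofReal (4 * v) *
          ∫⁻ x in Set.Ioo c (c + X), 2 ∂volume) := by
        refine mul_le_mul_right (mul_le_mul_right (lintegral_mono fun x => ?_) _) _
        have h1 : ∀ i, ∫⁻ p, (F i k p x + F i (k + 1) p x) ∂μ i =
            ∫⁻ p, F i k p x ∂μ i + ∫⁻ p, F i (k + 1) p x ∂μ i := fun i =>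
          lintegral_add_left ((hFm i k).comp measurable_prodMk_right) _
        have h2 : ∑ i, ∫⁻ p, F i k p x ∂μ i ≤ 1 := by
          simp only [hF]
          exact hRN n μ hμ hln x k
        have h3 : ∑ i, ∫⁻ p, F i (k + 1) p x ∂μ i ≤ 1 := by
          simp only [hF]
          exact hRN n μ hμ hln x (k + 1)
        rw [Finset.sum_congr rfl fun i _ => h1 i, Finset.sum_add_distrib]
        calc _ ≤ (1 : ℝ≥0∞) + 1 := add_le_add h2 h3
          _ = 2 := one_add_one_eq_two
    _ = ENNReal.ofReal (8 * A * D * X * v) := by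
        rw [setLIntegral_const, Real.volume_Ioo, add_sub_cancel_left,
          show (2 : ℝ≥0∞) = ENNReal.ofReal 2 by simp, ← ENNReal.ofReal_mul (by norm_num),
          ← ENNReal.ofReal_mul (by positivity), ← ENNReal.ofReal_mul (by positivity)]
        congr 1
        ring

end Pool.Agent.Helper31K9.SR
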