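import Pool.Agent.Helper31K9.SR.St

/-!
# Project SR, leaf [LSC]: the number of vertices of a level is lower semicontinuous
-/

set_option autoImplicit false

namespace Pool.Agent.Helper31K9.SR

open Finset MeasureTheory Filter Topology
open Pool.Agent.H189R2.Lev (ht cr)
open Pool.Agent.H189R2.Iid
open Pool.Agent.Results.MP_a08d0a_co.IidLevel (Simple level psi sl ic level_eq exists_level)

/-- two affine functions which agree at two points -/
theorem ht_eq_of_two {n : ℕ} {a B : Fin n → ℝ} {l : Fin n} {α β p q : ℝ} (hpq : p ≠ q)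
    (hp : ht a B l p = α * p + β) (hq : ht a B l q = α * q + β) :
    ∀ x, ht a B l x = α * x + β := by
  unfold ht at *
  have h1 : (a l - α) * (p - q) = 0 := by linarith
  have h2 : a l = α := by
    rcases mul_eq_zero.1 h1 with h | h
    · linarith
    · exact absurd (sub_eq_zero.1 h) hpq
  intro x
  rw [h2] at hp ⊢
  linarith

/-- the level is the height of a line -/
theorem level_spec {n : ℕ} (a B : Fin n → ℝ) {k : ℕ} (hk : k < n) (x : ℝ) :
    {l | ht a B l x < level a B k x}.ncard ≤ k ∧ k < {l | ht a B l x ≤ level a B k x}.ncard ∧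
      ∃ i, level a B k x = ht a B i x := by
  obtain ⟨i, h1, h2⟩ := exists_level a B hk x
  rw [level_eq h1 h2]
  exact ⟨h1, h2, i, rfl⟩

theorem level_mono {n : ℕ} {a B a' B' : Fin n → ℝ} {k : ℕ} (hk : k < n) {x δ : ℝ}
    (h : ∀ l, ht a B l x ≤ ht a' B' l x + δ) : level a B k x ≤ level a' B' k x + δ := by
  obtain ⟨h1, -, -⟩ := level_spec a B hk x
  obtain ⟨-, h2, -⟩ := level_spec a' B' hk x
  by_contra hcon
  push Not at hcon
  have := Set.ncard_le_ncard (s := {l | ht a' B' l x ≤ level a' B' k x})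
    (t := {l | ht a B l x < level a B k x})
    (fun l hl => lt_of_le_of_lt ((h l).trans (by
      have : ht a' B' l x ≤ level a' B' k x := hl
      linarith)) hcon) (Set.toFinite _)
  omega

/-- the level depends continuously on the lines -/
theorem continuous_level {n k : ℕ} (hk : k < n) (x : ℝ) :
    Continuous fun P : Fin n → ℝ × ℝ => level (sl P) (ic P) k x := by
  rw [continuous_iff_continuousAt]
  intro P₀
  rw [ContinuousAt, Metric.tendsto_nhds]
  intro ε hε
  have h1 : ∀ l : Fin n, ∀ᶠ P in 𝓝 P₀, |ht (sl P) (ic P) l x - ht (sl P₀) (ic P₀) l x| < ε / 2 := by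
    intro l
    have hc : Continuous fun P : Fin n → ℝ × ℝ => ht (sl P) (ic P) l x := by
      unfold ht
      show Continuous fun P : Fin n → ℝ × ℝ => (P l).1 * x + (P l).2
      fun_prop
    have := Metric.tendsto_nhds.1 (hc.tendsto P₀) (ε / 2) (by positivity)
    simpa [Real.dist_eq] using this
  filter_upwards [Filter.eventually_all.2 h1] with P hP
  rw [Real.dist_eq]
  have h2 := level_mono (a := sl P) (B := ic P) (a' := sl P₀) (B' := ic P₀) hk (x := x)
    (δ := ε / 2) (fun l => by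
      have := (abs_lt.1 (hP l)).2
      linarith)
  have h3 := level_mono (a := sl P₀) (B := ic P₀) (a' := sl P) (B' := ic P) hk (x := x)
    (δ := ε / 2) (fun l => by
      have := (abs_lt.1 (hP l)).1
      linarith)
  rw [abs_lt]
  constructor <;> linarith

/-- without breakpoints the level is a line -/
theorem line_of_no_break {n k : ℕ} {a B : Fin n → ℝ} {I : Set ℝ} (hI : IsPreconnected I)
    {x₁ : ℝ} (hx₁ : x₁ ∈ I) (h : ∀ x ∈ I, ∃ l, level a B k =ᶠ[𝓝 x] ht a B l) :
    ∃ l, ∀ x ∈ I, level a B k x = ht a B l x := by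
  obtain ⟨l₁, hl₁⟩ := h x₁ hx₁
  set u : Set ℝ := {x | level a B k =ᶠ[𝓝 x] ht a B l₁} with hu
  set v : Set ℝ := {x | ∃ l, ht a B l ≠ ht a B l₁ ∧ level a B k =ᶠ[𝓝 x] ht a B l} with hv
  have huo : IsOpen u := by
    rw [isOpen_iff_mem_nhds]
    intro x hx
    exact eventually_eventually_nhds.2 hx
  have hvo : IsOpen v := by
    rw [isOpen_iff_mem_nhds]
    rintro x ⟨l, hl, hx⟩
    filter_upwards [eventually_eventually_nhds.2 hx] with y hy
    exact ⟨l, hl, hy⟩
  have huv : Disjoint u v := by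
    rw [Set.disjoint_left]
    rintro x hx ⟨l, hl, hx'⟩
    apply hl
    have h1 : ht a B l₁ =ᶠ[𝓝 x] ht a B l := (Filter.EventuallyEq.symm hx).trans hx'
    obtain ⟨ε, hε, hball⟩ := Metric.eventually_nhds_iff_ball.1 h1
    have e1 := hball x (Metric.mem_ball_self hε)
    have e2 := hball (x + ε / 2) (by
      rw [Metric.mem_ball, Real.dist_eq, add_sub_cancel_left, abs_of_pos (by positivity)]
      linarith)
    funext z
    have h2 := ht_eq_of_two (a := a) (B := B) (l := l) (α := a l₁) (β := B l₁) (p := x)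
      (q := x + ε / 2) (by linarith) e1.symm e2.symm z
    rw [h2]
    rfl
  have hsub : I ⊆ u ∪ v := by
    intro x hx
    obtain ⟨l, hl⟩ := h x hx
    by_cases he : ht a B l = ht a B l₁
    · left
      rw [he] at hl
      exact hl
    · right
      exact ⟨l, he, hl⟩
  have hIu := IsPreconnected.subset_left_of_subset_union huo hvo huv hsub ⟨x₁, hx₁, hl₁⟩ hI
  exact ⟨l₁, fun x hx => (hIu hx).self_of_nhds⟩

/-- a breakpoint gives three points on the level which are not collinear -/
theorem exists_triple {n k : ℕ} (hk : k < n) {a B : Fin n → ℝ} {x₀ ε : ℝ} (hε : 0 < ε)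
    (hx₀ : ¬ ∃ l, level a B k =ᶠ[𝓝 x₀] ht a B l) :
    ∃ p ∈ Metric.ball x₀ ε, ∃ q ∈ Metric.ball x₀ ε, ∃ r ∈ Metric.ball x₀ ε,
      (level a B k r - level a B k p) * (q - p) ≠ (level a B k q - level a B k p) * (r - p) := by
  by_contra hcon
  push Not at hcon
  apply hx₀
  have hp : x₀ ∈ Metric.ball x₀ ε := Metric.mem_ball_self hε
  have hq : x₀ + ε / 2 ∈ Metric.ball x₀ ε := by
    rw [Metric.mem_ball, Real.dist_eq, add_sub_cancel_left, abs_of_pos (by positivity)]
    linarith
  have h1 := hcon x₀ hp (x₀ + ε / 2) hq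
  set α : ℝ := (level a B k (x₀ + ε / 2) - level a B k x₀) / (ε / 2) with hα
  have haff : ∀ x ∈ Metric.ball x₀ ε, level a B k x = α * x + (level a B k x₀ - α * x₀) := by
    intro x hx
    have h2 := h1 x hx
    have h3 : x₀ + ε / 2 - x₀ = ε / 2 := by ring
    rw [h3] at h2
    have h4 : level a B k (x₀ + ε / 2) - level a B k x₀ = α * (ε / 2) := by
      rw [hα]; field_simp
    rw [h4] at h2
    have h5 : (level a B k x - level a B k x₀ - α * (x - x₀)) * (ε / 2) = 0 := by linarith
    rcases mul_eq_zero.1 h5 with h6 | h6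
    · linarith
    · linarith
  have hinf : (Metric.ball x₀ ε).Infinite := by
    rw [Real.ball_eq_Ioo]
    exact Set.Ioo_infinite (by linarith)
  choose g hg using fun x => (level_spec a B hk x).2.2
  obtain ⟨p, hp', q, hq', hpq, hgpq⟩ := hinf.exists_ne_map_eq_of_mapsTo (f := g) (t := Set.univ)
    (fun _ _ => Set.mem_univ _) Set.finite_univ
  have e1 : ht a B (g p) p = α * p + (level a B k x₀ - α * x₀) := by
    rw [← hg p]; exact haff p hp'
  have e2 : ht a B (g p) q = α * q + (level a B k x₀ - α * x₀) := by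
    rw [hgpq, ← hg q]; exact haff q hq'
  have h6 := ht_eq_of_two hpq e1 e2
  refine ⟨g p, ?_⟩
  filter_upwards [Metric.ball_mem_nhds x₀ hε] with x hx
  rw [haff x hx, h6]

/-- near a breakpoint of `P₀` every close family of lines has a breakpoint -/
theorem eventually_break {n k : ℕ} (hk : k < n) {P₀ : Fin n → ℝ × ℝ} {x₀ ε : ℝ} (hε : 0 < ε)
    (hx₀ : ¬ ∃ l, level (sl P₀) (ic P₀) k =ᶠ[𝓝 x₀] ht (sl P₀) (ic P₀) l) :
    ∀ᶠ P in 𝓝 P₀, ∃ x ∈ Metric.ball x₀ ε,
      ¬ ∃ l, level (sl P) (ic P) k =ᶠ[𝓝 x] ht (sl P) (ic P) l := by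
  obtain ⟨p, hp, q, hq, r, hr, hne⟩ := exists_triple hk hε hx₀
  have hc := fun x => continuous_level (k := k) hk x
  have h1 : Continuous fun P : Fin n → ℝ × ℝ =>
      (level (sl P) (ic P) k r - level (sl P) (ic P) k p) * (q - p) -
        (level (sl P) (ic P) k q - level (sl P) (ic P) k p) * (r - p) :=
    (((hc r).sub (hc p)).mul continuous_const).sub (((hc q).sub (hc p)).mul continuous_const)
  have h2 := h1.continuousAt.eventually_ne (x := P₀) (y := 0) (sub_ne_zero.2 hne)
  filter_upwards [h2] with P hP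
  by_contra hcon
  push Not at hcon
  obtain ⟨l, hl⟩ := line_of_no_break (a := sl P) (B := ic P) (k := k)
    (convex_ball x₀ ε).isPreconnected hp hcon
  apply hP
  rw [hl p hp, hl q hq, hl r hr]
  unfold ht
  ring

theorem lsc : S_LSC := by
  intro n k hk P₀ y hy
  have hyt : y ≠ ⊤ := (lt_of_lt_of_le hy le_top).ne
  obtain ⟨t, ht1, ht2⟩ := Set.exists_subset_encard_eq (Order.add_one_le_of_lt hy)
  have htf : t.Finite := by
    rw [← Set.encard_lt_top_iff, ht2]
    exact ENat.add_lt_top.2 ⟨hyt.lt_top, by simp⟩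
  obtain ⟨U, hU, hdis⟩ := htf.t2_separation
  have h1 : ∀ x ∈ t, ∀ᶠ P in 𝓝 P₀, ∃ z ∈ U x,
      ¬ ∃ l, level (sl P) (ic P) k =ᶠ[𝓝 z] ht (sl P) (ic P) l := by
    intro x hx
    obtain ⟨ε, hε, hball⟩ := Metric.isOpen_iff.1 (hU x).2 x (hU x).1
    filter_upwards [eventually_break hk hε (ht1 hx)] with P hP
    obtain ⟨z, hz, hz'⟩ := hP
    exact ⟨z, hball hz, hz'⟩
  filter_upwards [(Filter.eventually_all_finite htf).2 h1] with P hP
  choose! z hz hz' using hP
  have hle : t.encard ≤ psi (sl P) (ic P) k := by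
    refine Set.encard_le_encard_of_injOn (f := z) (fun x hx => hz' x hx) ?_
    intro x hx x' hx' hxx
    by_contra hne
    exact Set.disjoint_left.1 (hdis hx hx' hne) (hz x hx) (hxx ▸ hz x' hx')
  rw [ht2] at hle
  exact lt_of_lt_of_le ((ENat.lt_add_one_iff hyt).2 le_rfl) hle

end Pool.Agent.Helper31K9.SR
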