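import Pool.Agent.Helper31K9.SR.St2

/-!
# Project SR, leaf [MKV]: Markov's inequality for the number of replaced lines
-/

set_option autoImplicit false

namespace Pool.Agent.Helper31K9.SR

open Finset MeasureTheory Filter Topology
open scoped ENNReal

namespace MkvL

theorem prob {n : ℕ} (ν : Fin n → Measure (ℝ × ℝ)) (μ₀ : Measure (ℝ × ℝ))
    (hν : ∀ l, IsProbabilityMeasure (ν l)) (h0 : IsProbabilityMeasure μ₀) {δ : ℝ} (hδ : 0 < δ)
    (hδ1 : δ ≤ 1) (l : Fin n) : IsProbabilityMeasure (mix δ ν μ₀ l) := by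
  constructor
  haveI := hν l
  simp only [mix, Measure.add_apply, Measure.smul_apply, smul_eq_mul, measure_univ, mul_one]
  rw [← ENNReal.ofReal_add (by linarith) hδ.le]
  simp

theorem coord {n : ℕ} (b : Fin n → ℝ × ℝ) (μ₀ : Measure (ℝ × ℝ))
    (h0 : IsProbabilityMeasure μ₀) {δ : ℝ} (hδ : 0 < δ) (hδ1 : δ ≤ 1) (l : Fin n) :
    Measure.pi (mix δ (fun l => Measure.dirac (b l)) μ₀) {P : Fin n → ℝ × ℝ | P l ≠ b l} ≤
      ENNReal.ofReal δ := by
  haveI : ∀ l, IsProbabilityMeasure (mix δ (fun l => Measure.dirac (b l)) μ₀ l) :=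
    prob _ μ₀ (fun l => inferInstance) h0 hδ hδ1
  have hm : MeasurableSet {r : ℝ × ℝ | r ≠ b l} := (measurableSet_singleton _).compl
  have he : {P : Fin n → ℝ × ℝ | P l ≠ b l} = (Function.eval l) ⁻¹' {r | r ≠ b l} := rfl
  rw [he, (measurePreserving_eval _ l).measure_preimage hm.nullMeasurableSet]
  simp only [mix, Measure.add_apply, Measure.smul_apply, smul_eq_mul]
  rw [Measure.dirac_apply' _ hm]
  have : Set.indicator {r : ℝ × ℝ | r ≠ b l} (1 : ℝ × ℝ → ℝ≥0∞) (b l) = 0 := by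
    simp
  rw [this, mul_zero, zero_add]
  calc ENNReal.ofReal δ * μ₀ {r | r ≠ b l} ≤ ENNReal.ofReal δ * 1 := by
        gcongr
        exact prob_le_one
    _ = ENNReal.ofReal δ := mul_one _

open Classical in
/-- the number of replaced lines -/
noncomputable def num {n : ℕ} (b : Fin n → ℝ × ℝ) (P : Fin n → ℝ × ℝ) : ℝ≥0∞ :=
  ∑ l, Set.indicator {P : Fin n → ℝ × ℝ | P l ≠ b l} (1 : (Fin n → ℝ × ℝ) → ℝ≥0∞) P

theorem meas_ne {n : ℕ} (b : Fin n → ℝ × ℝ) (l : Fin n) :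
    MeasurableSet {P : Fin n → ℝ × ℝ | P l ≠ b l} :=
  (measurable_pi_apply l) (measurableSet_singleton _).compl

theorem num_meas {n : ℕ} (b : Fin n → ℝ × ℝ) : Measurable (num b) := by
  unfold num
  exact Finset.measurable_sum _ fun l _ => measurable_one.indicator (meas_ne b l)

theorem num_eq {n : ℕ} (b : Fin n → ℝ × ℝ) (P : Fin n → ℝ × ℝ) :
    num b P = (({l | P l ≠ b l}.ncard : ℕ) : ℝ≥0∞) := by
  classical
  have h1 : {l | P l ≠ b l} = ((univ.filter fun l => P l ≠ b l : Finset (Fin n)) : Set (Fin n)) := by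
    ext l; simp
  rw [h1, Set.ncard_coe_finset, Finset.card_filter]
  unfold num
  push_cast
  refine Finset.sum_congr rfl fun l _ => ?_
  by_cases h : P l = b l
  · simp [h]
  · simp [h]

end MkvL

open MkvL in
/-- [MKV] -/
theorem mkv : S_MKV := by
  intro n b μ₀ h0 δ hδ hδ1 t ht h2
  haveI : ∀ l, IsProbabilityMeasure (mix δ (fun l => Measure.dirac (b l)) μ₀ l) :=
    prob _ μ₀ (fun l => inferInstance) h0 hδ hδ1
  set π := Measure.pi (mix δ (fun l => Measure.dirac (b l)) μ₀) with hπ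
  have hset : {P : Fin n → ℝ × ℝ | {l | P l ≠ b l}.ncard ≤ t} =
      {P | ((t : ℝ≥0∞) + 1) ≤ num b P}ᶜ := by
    ext P
    simp only [Set.mem_setOf_eq, Set.mem_compl_iff, not_le, num_eq]
    rw [show ((t : ℝ≥0∞) + 1) = ((t + 1 : ℕ) : ℝ≥0∞) by push_cast; rfl, Nat.cast_lt]
    omega
  have hms : MeasurableSet {P : Fin n → ℝ × ℝ | ((t : ℝ≥0∞) + 1) ≤ num b P} :=
    measurableSet_le measurable_const (num_meas b)
  refine ⟨?_, by rw [hset]; exact hms.compl⟩
  rw [hset, prob_compl_eq_one_sub hms]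
  have hint : ∫⁻ P, num b P ∂π ≤ ENNReal.ofReal (n * δ) := by
    unfold num
    rw [lintegral_finsetSum _ fun l _ => measurable_one.indicator (meas_ne b l)]
    calc ∑ l, ∫⁻ P, Set.indicator {P : Fin n → ℝ × ℝ | P l ≠ b l}
          (1 : (Fin n → ℝ × ℝ) → ℝ≥0∞) P ∂π
        = ∑ l, π {P : Fin n → ℝ × ℝ | P l ≠ b l} := by
          refine Finset.sum_congr rfl fun l _ => ?_
          exact lintegral_indicator_one (meas_ne b l)
      _ ≤ ∑ _l : Fin n, ENNReal.ofReal δ := Finset.sum_le_sum fun l _ =>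
          coord b μ₀ h0 hδ hδ1 l
      _ = ENNReal.ofReal (n * δ) := by
          rw [Finset.sum_const, card_univ, Fintype.card_fin, nsmul_eq_mul,
            ENNReal.ofReal_mul (Nat.cast_nonneg n), ENNReal.ofReal_natCast]
  have hmk := mul_meas_ge_le_lintegral (μ := π) (num_meas b) ((t : ℝ≥0∞) + 1)
  have hle : ((t : ℝ≥0∞) + 1) * π {P | ((t : ℝ≥0∞) + 1) ≤ num b P} ≤
      ((t : ℝ≥0∞) + 1) * (1 / 2) := by
    refine hmk.trans (hint.trans ?_)
    have h3 : (n : ℝ) * δ ≤ ((t : ℝ) + 1) * (1 / 2) := by nlinarith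
    refine (ENNReal.ofReal_le_ofReal h3).trans ?_
    rw [ENNReal.ofReal_mul (by positivity)]
    have e1 : ENNReal.ofReal ((t : ℝ) + 1) = (t : ℝ≥0∞) + 1 := by
      rw [ENNReal.ofReal_add (by positivity) zero_le_one]
      simp
    have e2 : ENNReal.ofReal (1 / 2) = 1 / 2 := by
      rw [ENNReal.ofReal_div_of_pos (by norm_num)]
      simp
    rw [e1, e2]
  have hhalf : π {P | ((t : ℝ≥0∞) + 1) ≤ num b P} ≤ 1 / 2 := by
    rwa [ENNReal.mul_le_mul_iff_right (by simp) (by simp)] at hle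
  have : (1 : ℝ≥0∞) - 1 / 2 = 1 / 2 := by
    rw [one_div]
    exact ENNReal.one_sub_inv_two
  calc (1 / 2 : ℝ≥0∞) = 1 - 1 / 2 := this.symm
    _ ≤ 1 - π {P | ((t : ℝ≥0∞) + 1) ≤ num b P} := tsub_le_tsub_left hhalf _

end Pool.Agent.Helper31K9.SR
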