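import Pool.Agent.Helper31K9.SR.Cnt

/-!
# The leaf ONE of project SR
-/

set_option autoImplicit false

namespace Pool.Agent.Helper31K9.SR

open Finset MeasureTheory Filter Topology
open Pool.Agent.H189R2.Lev (ht cr)
open Pool.Agent.H189R2.Iid
open Pool.Agent.Results.MP_a08d0a_co.IidLevel (Simple level psi sl ic crossings simple_of_GP psi_le
  crossings_lev crossings_flip measurable_levcount LN_neg measurable_crossings count3)
open scoped ENNReal

namespace OneL

variable {n : ℕ}

open Classical in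
theorem cross_le' {μ : Fin n → Measure (ℝ × ℝ)} (hgp : ∀ᵐ P ∂Measure.pi μ, GP P) (c : ℕ)
    {B : ℝ≥0∞} (h : c + 2 ≤ n →
      ∫⁻ P, (((T P).filter (fun q => lev P q = c)).card : ℝ≥0∞) ∂Measure.pi μ ≤ B) :
    ∫⁻ P, ((crossings (sl P) (ic P) c).ncard : ℝ≥0∞) ∂Measure.pi μ ≤ B := by
  by_cases hc : c + 2 ≤ n
  · refine le_trans (lintegral_mono (fun P => ?_)) (h hc)
    exact Nat.cast_le.mpr (crossings_lev (P := P) c)
  · have hz : ∀ᵐ P ∂Measure.pi μ, ((crossings (sl P) (ic P) c).ncard : ℝ≥0∞) = 0 := by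
      filter_upwards [hgp] with P hP
      have : crossings (sl P) (ic P) c = ∅ := by
        ext ⟨i, j⟩
        rw [Set.mem_empty_iff_false, iff_false]
        rintro ⟨h1, h2, h3⟩
        simp only at h1 h2 h3
        have h5 := count3 (simple_of_GP hP) h1.ne
          (Pool.Agent.H189R2.Lev.ht_cr (B := ic P) h2).symm
        omega
      rw [this]
      simp
    rw [lintegral_congr_ae hz, lintegral_zero]
    exact zero_le

theorem psi_int {μ : Fin n → Measure (ℝ × ℝ)} (hgp : ∀ᵐ P ∂Measure.pi μ, GP P) {k : ℕ}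
    (hk : k < n) {B : ℝ} (hB : 0 ≤ B)
    (h1 : ∫⁻ P, ((crossings (sl P) (ic P) k).ncard : ℝ≥0∞) ∂Measure.pi μ ≤ ENNReal.ofReal B)
    (h2 : k ≠ 0 → ∫⁻ P, ((crossings (sl P) (ic P) (k - 1)).ncard : ℝ≥0∞) ∂Measure.pi μ ≤
      ENNReal.ofReal B) :
    ∫⁻ P, (psi (sl P) (ic P) k : ℝ≥0∞) ∂Measure.pi μ ≤ ENNReal.ofReal (2 * B) := by
  have b2 : ∫⁻ P, (if k = 0 then 0 else ((crossings (sl P) (ic P) (k - 1)).ncard : ℝ≥0∞))
      ∂Measure.pi μ ≤ ENNReal.ofReal B := by
    split_ifs with h0
    · rw [lintegral_zero]; exact zero_le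
    · exact h2 h0
  calc ∫⁻ P, (psi (sl P) (ic P) k : ℝ≥0∞) ∂Measure.pi μ
      ≤ ∫⁻ P, (((crossings (sl P) (ic P) k).ncard : ℝ≥0∞) +
        (if k = 0 then 0 else ((crossings (sl P) (ic P) (k - 1)).ncard : ℝ≥0∞)))
        ∂Measure.pi μ := by
        apply lintegral_mono_ae
        filter_upwards [hgp] with P hP
        have hP' := psi_le (simple_of_GP hP) hk
        have h1 : (psi (sl P) (ic P) k : ℝ≥0∞) ≤ (((crossings (sl P) (ic P) k).ncard +
          (if k = 0 then 0 else (crossings (sl P) (ic P) (k - 1)).ncard) : ℕ) : ℕ∞) := by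
          exact_mod_cast hP'
        refine h1.trans ?_
        rw [ENat.toENNReal_coe]
        split_ifs with h
        · simp
        · push_cast
          rfl
    _ = _ := lintegral_add_left (measurable_crossings k) _
    _ ≤ ENNReal.ofReal B + ENNReal.ofReal B := add_le_add h1 b2
    _ = ENNReal.ofReal (2 * B) := by
        rw [← ENNReal.ofReal_add hB hB]
        congr 1
        ring

end OneL

open OneL in
theorem one (hgp : S_GP) (hcnt : S_CNT) : S_ONE := by
  classical
  obtain ⟨C, hC, hcnt⟩ := hcnt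
  refine ⟨2 * C, by positivity, ?_⟩
  intro n μ hp hLN k v hk hv1 hvk hvar
  have hv0 : 0 < v := by linarith
  have hk1 : 1 ≤ k := by
    have : (1:ℝ) ≤ k := hv1.trans hvk
    exact_mod_cast this
  have hk1' : (1:ℝ) ≤ k := by exact_mod_cast hk1
  have hG := hgp n μ hp hLN
  have hB : 0 ≤ C * n * ((k : ℝ) + 1) ^ (1 / 3 : ℝ) / v ^ (1 / 6 : ℝ) := by positivity
  have h := psi_int hG hk hB ?_ ?_
  · refine h.trans (le_of_eq ?_)
    congr 1
    ring
  · apply cross_le' hG
    intro h2
    refine hcnt n μ hp hLN k v h2 hv1 (by linarith) (fun x y hxy => hvar x y (by linarith))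
  · intro _
    apply cross_le' hG
    intro h2
    have hk' : ((k - 1 : ℕ) : ℝ) = k - 1 := by rw [Nat.cast_sub hk1]; simp
    refine (hcnt n μ hp hLN (k - 1) v h2 hv1 (by rw [hk']; linarith)
      (fun x y hxy => hvar x y ?_)).trans ?_
    · rw [hk', abs_le] at hxy
      rw [abs_le]
      constructor <;> linarith [hxy.1, hxy.2]
    · apply ENNReal.ofReal_le_ofReal
      rw [hk']
      apply div_le_div_of_nonneg_right _ (by positivity)
      apply mul_le_mul_of_nonneg_left _ (by positivity)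
      apply Real.rpow_le_rpow (by linarith) (by linarith) (by norm_num)

end Pool.Agent.Helper31K9.SR
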