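import Pool.Agent.Helper31K9.SR.St3

/-!
# Project SR, leaves [PON] and [OPT]
-/

set_option autoImplicit false

namespace Pool.Agent.Helper31K9.SR

open Finset MeasureTheory Filter Topology
open Pool.Agent.H189R2.Lev (ht cr cr_symm ht_cr)
open Pool.Agent.H189R2.Iid
open Pool.Agent.Results.MP_a08d0a_co.IidLevel (Simple level psi sl ic level_eq exists_level count3
  simple_of_GP)
open scoped ENNReal

namespace PonL

/-- a vertex of the `k`-level is a crossing with `k` or `k - 1` lines below (proof of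
`IidLevel.psi_le`) -/
theorem vertex {n : ℕ} {a B : Fin n → ℝ} (hS : Simple a B) {k : ℕ} (hk : k < n) {x : ℝ}
    (hx : ¬ ∃ l, level a B k =ᶠ[𝓝 x] ht a B l) :
    ∃ i j, a i ≠ a j ∧ x = cr a B i j ∧ ht a B j x = ht a B i x ∧
      ({l | ht a B l x < ht a B i x}.ncard = k ∨
        (k ≠ 0 ∧ {l | ht a B l x < ht a B i x}.ncard = k - 1)) := by
  classical
  obtain ⟨i, hi1, hi2⟩ := exists_level a B hk x
  have hcont : ∀ l, Continuous (ht a B l) := by
    intro l; unfold ht; fun_prop
  have hex : ∃ j, j ≠ i ∧ ht a B j x = ht a B i x := by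
    by_contra hcon
    push Not at hcon
    apply hx
    refine ⟨i, ?_⟩
    have hev : ∀ᶠ x' in 𝓝 x, ∀ l ∈ (univ : Finset (Fin n)),
        (ht a B l x < ht a B i x → ht a B l x' < ht a B i x') ∧
        (ht a B i x < ht a B l x → ht a B i x' < ht a B l x') := by
      rw [Filter.eventually_all_finset]
      intro l _
      rw [Filter.eventually_and]
      constructor
      · by_cases h : ht a B l x < ht a B i x
        · filter_upwards [((hcont l).tendsto x).eventually_lt ((hcont i).tendsto x) h]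
            with x' hx' _
          exact hx'
        · exact Eventually.of_forall (fun _ h' => absurd h' h)
      · by_cases h : ht a B i x < ht a B l x
        · filter_upwards [((hcont i).tendsto x).eventually_lt ((hcont l).tendsto x) h]
            with x' hx' _
          exact hx'
        · exact Eventually.of_forall (fun _ h' => absurd h' h)
    filter_upwards [hev] with x' hx'
    apply level_eq
    · refine le_trans (Set.ncard_le_ncard ?_ (Set.toFinite _)) hi1
      intro l hl
      rw [Set.mem_ofPred_eq] at hl ⊢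
      by_contra h
      push Not at h
      rcases h.lt_or_eq with h | h
      · have := (hx' l (mem_univ l)).2 h
        linarith
      · by_cases hli : l = i
        · subst hli; exact lt_irrefl _ hl
        · exact hcon l hli h.symm
    · refine lt_of_lt_of_le hi2 (Set.ncard_le_ncard ?_ (Set.toFinite _))
      intro l hl
      rw [Set.mem_ofPred_eq] at hl ⊢
      rcases hl.lt_or_eq with h | h
      · exact ((hx' l (mem_univ l)).1 h).le
      · by_cases hli : l = i
        · subst hli; exact le_rfl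
        · exact absurd h (hcon l hli)
  obtain ⟨j, hji, hj⟩ := hex
  have haij : a i ≠ a j := by
    intro h
    apply hS.1 i j (Ne.symm hji) h
    unfold ht at hj
    rw [h] at hj
    linarith
  have hcrx : x = cr a B i j := by
    unfold cr
    rw [eq_div_iff (sub_ne_zero.mpr haij)]
    unfold ht at hj
    linarith
  have hc3 := count3 hS (Ne.symm hji) hj.symm
  have hle : {l | ht a B l x ≤ ht a B i x}.ncard = {l | ht a B l x < ht a B i x}.ncard + 2 := by
    have e : {l | ht a B l x ≤ ht a B i x} = {l | ht a B i x < ht a B l x}ᶜ := by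
      ext l
      simp
    have e' := Set.ncard_compl ({l | ht a B i x < ht a B l x}) (Set.toFinite _)
    rw [← e] at e'
    simp only [Nat.card_eq_fintype_card, Fintype.card_fin] at e'
    omega
  exact ⟨i, j, haij, hcrx, hj, by omega⟩

/-- the number of lines below, at a crossing -/
theorem lev_eq {n : ℕ} (P : Fin n → ℝ × ℝ) (u v : Fin n) {x : ℝ}
    (hx : x = cr (sl P) (ic P) u v) :
    {l | ht (sl P) (ic P) l x < ht (sl P) (ic P) u x}.ncard = lev P (u, v) := by
  subst hx
  unfold lev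
  rw [← Set.ncard_coe_finset]
  congr 1
  ext l
  simp only [coe_filter, mem_univ, true_and]
  exact Iff.rfl

end PonL

open PonL in
open Classical in
/-- [PON] -/
theorem pon : S_PON := by
  intro n P hP k hk I
  set F : ℕ → Finset (Fin n × Fin n) := fun m =>
    (T P).filter (fun q => lev P q = m ∧ X2 (P q.1) (P q.2) ∈ I) with hF
  set G : Finset (Fin n × Fin n) := if k = 0 then ∅ else F (k - 1) with hG
  have hGc : G.card = if k = 0 then 0 else (F (k - 1)).card := by
    rw [hG]
    split_ifs <;> simp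
  have hsub : {x : ℝ | x ∈ I ∧ ¬ ∃ l, level (sl P) (ic P) k =ᶠ[𝓝 x] ht (sl P) (ic P) l} ⊆
      (fun q : Fin n × Fin n => X2 (P q.1) (P q.2)) '' ((F k ∪ G : Finset _) : Set _) := by
    rintro x ⟨hxI, hx⟩
    obtain ⟨i, j, haij, hcr, hj, hkk⟩ := vertex (simple_of_GP hP) hk hx
    have hmem : ∀ u v : Fin n, (P v).1 < (P u).1 → x = cr (sl P) (ic P) u v →
        ht (sl P) (ic P) u x = ht (sl P) (ic P) i x → (u, v) ∈ F k ∪ G := by
      intro u v huv hcr' hu
      have hlev := lev_eq P u v hcr'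
      rw [hu] at hlev
      have hX : X2 (P u) (P v) = x := hcr'.symm
      rw [mem_union]
      rcases hkk with h | ⟨h0, h⟩
      · left
        rw [hF]
        simp only [mem_filter, mem_T]
        exact ⟨huv, by rw [← hlev, h], by rw [hX]; exact hxI⟩
      · right
        rw [hG, if_neg h0, hF]
        simp only [mem_filter, mem_T]
        exact ⟨huv, by rw [← hlev, h], by rw [hX]; exact hxI⟩
    rcases lt_or_gt_of_ne haij with h | h
    · have hc : x = cr (sl P) (ic P) j i := by rw [hcr, cr_symm]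
      exact ⟨(j, i), mem_coe.2 (hmem j i h hc hj), hc.symm⟩
    · exact ⟨(i, j), mem_coe.2 (hmem i j h hcr rfl), hcr.symm⟩
  unfold psiOn
  calc ({x : ℝ | x ∈ I ∧ ¬ ∃ l, level (sl P) (ic P) k =ᶠ[𝓝 x] ht (sl P) (ic P) l}).encard
      ≤ ((fun q : Fin n × Fin n => X2 (P q.1) (P q.2)) '' ((F k ∪ G : Finset _) : Set _)).encard :=
        Set.encard_le_encard hsub
    _ ≤ ((F k ∪ G : Finset (Fin n × Fin n)) : Set (Fin n × Fin n)).encard :=
        Set.encard_image_le _ _
    _ = ((F k ∪ G).card : ℕ∞) := Set.encard_coe_eq_coe_finsetCard _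
    _ ≤ (((F k).card + G.card : ℕ) : ℕ∞) := by exact_mod_cast card_union_le _ _
    _ = _ := by rw [hGc]

/-- [OPT] -/
theorem opt : S_OPT := by
  intro C hC
  refine ⟨C + 22, by linarith, ?_⟩
  intro n k W E hW h18 h
  set K : ℝ := (k : ℝ) + 1 with hK
  have hK1 : 1 ≤ K := by
    have : (0 : ℝ) ≤ k := Nat.cast_nonneg k
    rw [hK]; linarith
  have hK0 : 0 < K := by linarith
  set M : ℝ := n * K ^ (1 / 3 : ℝ) with hM
  have hn0 : (0 : ℝ) ≤ n := Nat.cast_nonneg n
  have hM0 : 0 ≤ M := by positivity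
  have ht1 : 0 ≤ (n : ℝ) * K ^ (1 / 6 : ℝ) := by positivity
  have ht2 : 0 ≤ M ^ (6 / 7 : ℝ) * W ^ (1 / 7 : ℝ) := by positivity
  have h18' : E ≤ 18 * M := by rw [hM]; linarith
  rcases hM0.eq_or_lt with hM0' | hMpos
  · rw [← hM0'] at h18'
    have : 0 ≤ (C + 22) * ((n : ℝ) * K ^ (1 / 6 : ℝ) + M ^ (6 / 7 : ℝ) * W ^ (1 / 7 : ℝ)) := by
      positivity
    linarith
  have hMsplit : M = M ^ (6 / 7 : ℝ) * M ^ (1 / 7 : ℝ) := by
    rw [← Real.rpow_add hMpos]; norm_num
  have hWsplit : W = W ^ (6 / 7 : ℝ) * W ^ (1 / 7 : ℝ) := by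
    rw [← Real.rpow_add hW]; norm_num
  set v : ℝ := (M / W) ^ (6 / 7 : ℝ) with hv
  have hMW : 0 < M / W := div_pos hMpos hW
  have hv0 : 0 < v := by positivity
  have hWv : W * v = M ^ (6 / 7 : ℝ) * W ^ (1 / 7 : ℝ) := by
    rw [hv, Real.div_rpow hM0 hW.le]
    nth_rewrite 1 [hWsplit]
    have : W ^ (6 / 7 : ℝ) ≠ 0 := by positivity
    field_simp
  have hMv : M / v ^ (1 / 6 : ℝ) = M ^ (6 / 7 : ℝ) * W ^ (1 / 7 : ℝ) := by
    rw [hv, ← Real.rpow_mul hMW.le, show (6 / 7 * (1 / 6) : ℝ) = 1 / 7 by norm_num,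
      Real.div_rpow hM0 hW.le]
    nth_rewrite 1 [hMsplit]
    have : M ^ (1 / 7 : ℝ) ≠ 0 := by positivity
    have : W ^ (1 / 7 : ℝ) ≠ 0 := by positivity
    field_simp
  rcases lt_or_ge v 1 with hv1 | hv1
  · -- `M < W`
    have hlt : M / W < 1 := by
      by_contra hcon
      push Not at hcon
      have := Real.one_le_rpow hcon (show (0 : ℝ) ≤ 6 / 7 by norm_num)
      rw [← hv] at this
      linarith
    have hMW' : M ≤ W := by
      rw [div_lt_one hW] at hlt
      exact hlt.le
    have : M ≤ M ^ (6 / 7 : ℝ) * W ^ (1 / 7 : ℝ) := by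
      nth_rewrite 1 [hMsplit]
      exact mul_le_mul_of_nonneg_left (Real.rpow_le_rpow hM0 hMW' (by norm_num)) (by positivity)
    nlinarith
  rcases le_or_gt v K with hvK | hvK
  · have h1 := h v hv1 hvK
    have e1 : C * n * K ^ (1 / 3 : ℝ) / v ^ (1 / 6 : ℝ) = C * (M / v ^ (1 / 6 : ℝ)) := by
      rw [hM]; ring
    rw [e1, hMv] at h1
    nlinarith
  · have h1 := h K hK1 le_rfl
    have e1 : C * n * K ^ (1 / 3 : ℝ) / K ^ (1 / 6 : ℝ) = C * (n * K ^ (1 / 6 : ℝ)) := by
      have : K ^ (1 / 3 : ℝ) = K ^ (1 / 6 : ℝ) * K ^ (1 / 6 : ℝ) := by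
        rw [← Real.rpow_add hK0]; norm_num
      rw [this]
      have h0 : K ^ (1 / 6 : ℝ) ≠ 0 := by positivity
      field_simp
    rw [e1] at h1
    have h2 : W * K ≤ M ^ (6 / 7 : ℝ) * W ^ (1 / 7 : ℝ) := by
      rw [← hWv]
      exact mul_le_mul_of_nonneg_left hvK.le hW.le
    nlinarith

end Pool.Agent.Helper31K9.SR
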