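import Pool.Agent.Helper31K9.SR.St3

/-!
# The leaf RAT of project SR
-/

set_option autoImplicit false

namespace Pool.Agent.Helper31K9.SR

open Finset MeasureTheory Filter Topology
open Pool.Agent.H189R2.Iid
open scoped ENNReal

namespace RatL

/-- distribution function -/
noncomputable def G (ν : Measure ℝ) (t : ℝ) : ℝ := (ν (Set.Iio t)).toReal

theorem G_nonneg (ν : Measure ℝ) (t : ℝ) : 0 ≤ G ν t := ENNReal.toReal_nonneg

theorem G_le_one (ν : Measure ℝ) [IsProbabilityMeasure ν] (t : ℝ) : G ν t ≤ 1 :=
  ENNReal.toReal_le_of_le_ofReal zero_le_one (by simpa using prob_le_one)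

theorem G_mono (ν : Measure ℝ) [IsProbabilityMeasure ν] : Monotone (G ν) := fun s t h =>
  ENNReal.toReal_mono (measure_ne_top _ _) (measure_mono (Set.Iio_subset_Iio h))

theorem meas_G (ν : Measure ℝ) [IsProbabilityMeasure ν] : Measurable (G ν) := (G_mono ν).measurable

/-- substitution -/
theorem subst {r b : ℝ} (hr : 0 < r) {h : ℝ → ℝ≥0∞} (hh : Measurable h) :
    ∫⁻ t, h t = ENNReal.ofReal r * ∫⁻ x, h (b + r * x) := by
  have h1 : ∫⁻ x, h (b + r * x) = ENNReal.ofReal r⁻¹ * ∫⁻ t, h t := by
    have e1 : ∫⁻ x, h (b + r * x) = ∫⁻ y, h (b + y) ∂(Measure.map (r * ·) volume) := by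
      have hm : Measurable (fun y : ℝ => h (b + y)) := hh.comp (measurable_const.add measurable_id)
      rw [lintegral_map hm (measurable_const_mul r)]
    rw [e1, Real.map_volume_mul_left hr.ne', lintegral_smul_measure, abs_of_pos (inv_pos.mpr hr),
      lintegral_add_left_eq_self]
    rfl
  rw [h1, ← mul_assoc, ← ENNReal.ofReal_mul hr.le, mul_inv_cancel₀ hr.ne', ENNReal.ofReal_one,
    one_mul]

/-- Jensen's inequality for `t (1 - t)` -/
theorem jensen (τ : Measure ℝ) [IsProbabilityMeasure τ] {g : ℝ → ℝ} (hg : Measurable g)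
    (h0 : ∀ t, 0 ≤ g t) (h1 : ∀ t, g t ≤ 1) :
    ∫⁻ t, ENNReal.ofReal (g t * (1 - g t)) ∂τ ≤
      ENNReal.ofReal ((∫ t, g t ∂τ) * (1 - ∫ t, g t ∂τ)) := by
  have hb : ∀ t, ‖g t‖ ≤ 1 := fun t => by rw [Real.norm_of_nonneg (h0 t)]; exact h1 t
  have hi : Integrable g τ := (integrable_const (1:ℝ)).mono' hg.aestronglyMeasurable
    (Eventually.of_forall hb)
  have hi2 : Integrable (fun t => g t * g t) τ := by
    have hgg : Measurable (fun t => g t * g t) := hg.mul hg
    apply (integrable_const (1:ℝ)).mono' hgg.aestronglyMeasurable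
    refine Eventually.of_forall (fun t => ?_)
    rw [norm_mul]
    have := hb t
    have := norm_nonneg (g t)
    nlinarith
  set m := ∫ t, g t ∂τ with hm
  have h2 : 0 ≤ ∫ t, (g t - m) ^ 2 ∂τ := integral_nonneg (fun t => sq_nonneg _)
  have h3 : ∫ t, (g t - m) ^ 2 ∂τ = ∫ t, g t * g t ∂τ - m ^ 2 := by
    have e : ∀ t, (g t - m) ^ 2 = (g t * g t - 2 * m * g t) + m ^ 2 := fun t => by ring
    simp_rw [e]
    have hI1 : Integrable (fun t => g t * g t - 2 * m * g t) τ := hi2.sub (hi.const_mul _)
    rw [integral_add hI1 (integrable_const _),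
      integral_sub hi2 (hi.const_mul _), integral_const_mul, ← hm]
    simp
    ring
  have hi3 : Integrable (fun t => g t * (1 - g t)) τ := by
    have : (fun t => g t * (1 - g t)) = fun t => g t - g t * g t := by funext t; ring
    rw [this]
    exact hi.sub hi2
  have h4 : ∫ t, g t * (1 - g t) ∂τ = m - ∫ t, g t * g t ∂τ := by
    have : (fun t => g t * (1 - g t)) = fun t => g t - g t * g t := by funext t; ring
    rw [this, integral_sub hi hi2]
  rw [← ofReal_integral_eq_lintegral_ofReal hi3 (Eventually.of_forall (fun t =>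
    mul_nonneg (h0 t) (by linarith [h1 t])))]
  apply ENNReal.ofReal_le_ofReal
  rw [h4]
  nlinarith

theorem mass (τ ν : Measure ℝ) [IsProbabilityMeasure τ] [IsProbabilityMeasure ν] (x y : ℝ) :
    ((τ.prod ν) {r | r.1 * x + r.2 < y}).toReal = ∫ β, G ν (y - β * x) ∂τ := by
  have hm : MeasurableSet {r : ℝ × ℝ | r.1 * x + r.2 < y} :=
    measurableSet_lt ((measurable_fst.mul_const x).add measurable_snd) measurable_const
  rw [Measure.prod_apply hm]
  have e : ∀ β : ℝ, Prod.mk β ⁻¹' {r : ℝ × ℝ | r.1 * x + r.2 < y} = Set.Iio (y - β * x) := by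
    intro β
    ext b
    simp only [Set.mem_preimage, Set.mem_ofPred_eq, Set.mem_Iio]
    constructor <;> intro h <;> linarith
  simp_rw [e]
  unfold G
  have hmm : Measurable (fun β : ℝ => ν (Set.Iio (y - β * x))) := by
    have := measurable_measure_prodMk_left (ν := ν) hm
    simp_rw [e] at this
    exact this
  rw [integral_toReal hmm.aemeasurable (Eventually.of_forall (fun β => measure_lt_top _ _))]

end RatL

open RatL in
theorem rat : S_RAT := by
  classical
  intro τ ν s A D hτ hν hsup ht hD hA p hp1 hp2 Φ hΦ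
  have hmX : Measurable (fun q : ℝ × ℝ => X2 p q) := measurable_X2 measurable_const measurable_id
  have hset : MeasurableSet {q : ℝ × ℝ | q.1 < p.1} := measurableSet_lt measurable_fst
    measurable_const
  have hf : Measurable ({q : ℝ × ℝ | q.1 < p.1}.indicator (fun q => Φ (X2 p q))) :=
    (hΦ.comp hmX).indicator hset
  rw [← lintegral_indicator hset, lintegral_prod _ hf.aemeasurable]
  -- the inner integral
  have hin : ∀ᵐ β ∂τ, ∫⁻ b, {q : ℝ × ℝ | q.1 < p.1}.indicator (fun q => Φ (X2 p q)) (β, b) ∂ν ≤
      ENNReal.ofReal (A * D) * ∫⁻ x, ENNReal.ofReal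
        (G ν (p.1 * x + p.2 - β * x) * (1 - G ν (p.1 * x + p.2 - β * x))) * Φ x := by
    filter_upwards [hsup] with β hβ
    by_cases h : β < p.1
    · have e : ∀ b, {q : ℝ × ℝ | q.1 < p.1}.indicator (fun q => Φ (X2 p q)) (β, b) =
          Φ ((b - p.2) / (p.1 - β)) := by
        intro b
        rw [Set.indicator_of_mem (show (β, b) ∈ {q : ℝ × ℝ | q.1 < p.1} from h)]
        rfl
      simp_rw [e]
      set r := p.1 - β with hr
      have hr0 : 0 < r := by rw [hr]; linarith
      have hrA : r ≤ A := by rw [hr]; linarith [hβ.1]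
      have hm2 : Measurable (fun b : ℝ => Φ ((b - p.2) / r)) :=
        hΦ.comp ((measurable_id.sub measurable_const).div measurable_const)
      have hmd : Measurable (fun t => ENNReal.ofReal
          (D * ((ν (Set.Iio t)).toReal * (1 - (ν (Set.Iio t)).toReal)))) := by
        have h1 := meas_G ν
        exact ((h1.mul (measurable_const.sub h1)).const_mul D).ennreal_ofReal
      calc ∫⁻ b, Φ ((b - p.2) / r) ∂ν
          ≤ ∫⁻ b, Φ ((b - p.2) / r) ∂(volume.withDensity (fun t => ENNReal.ofReal
              (D * ((ν (Set.Iio t)).toReal * (1 - (ν (Set.Iio t)).toReal))))) :=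
            lintegral_mono' ht le_rfl
        _ = ∫⁻ b, ENNReal.ofReal (D * (G ν b * (1 - G ν b))) * Φ ((b - p.2) / r) := by
            rw [lintegral_withDensity_eq_lintegral_mul _ hmd hm2]
            rfl
        _ = ENNReal.ofReal r * ∫⁻ x, ENNReal.ofReal (D * (G ν (p.2 + r * x) *
              (1 - G ν (p.2 + r * x)))) * Φ x := by
            have hmh : Measurable (fun b : ℝ => ENNReal.ofReal (D * (G ν b * (1 - G ν b))) *
                Φ ((b - p.2) / r)) := hmd.mul hm2
            rw [subst (b := p.2) hr0 hmh]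
            congr 1
            apply lintegral_congr
            intro x
            have e2 : (p.2 + r * x - p.2) / r = x := by field_simp; ring
            simp only [e2]
        _ ≤ ENNReal.ofReal A * ∫⁻ x, ENNReal.ofReal (D * (G ν (p.2 + r * x) *
              (1 - G ν (p.2 + r * x)))) * Φ x := mul_le_mul_left (ENNReal.ofReal_le_ofReal hrA) _
        _ = _ := by
            rw [ENNReal.ofReal_mul hA, mul_assoc]
            congr 1
            rw [← lintegral_const_mul' _ _ ENNReal.ofReal_ne_top]
            apply lintegral_congr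
            intro x
            have e3 : p.2 + r * x = p.1 * x + p.2 - β * x := by rw [hr]; ring
            rw [e3, ENNReal.ofReal_mul hD, mul_assoc]
    · have e : ∀ b, {q : ℝ × ℝ | q.1 < p.1}.indicator (fun q => Φ (X2 p q)) (β, b) = 0 := by
        intro b
        rw [Set.indicator_of_notMem]
        exact h
      simp_rw [e]
      rw [lintegral_zero]
      exact zero_le
  refine (lintegral_mono_ae hin).trans ?_
  rw [lintegral_const_mul' _ _ ENNReal.ofReal_ne_top]
  apply mul_le_mul_right
  have hGm : Measurable (fun z : ℝ × ℝ => G ν (p.1 * z.2 + p.2 - z.1 * z.2)) :=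
    (meas_G ν).comp ((((measurable_snd.const_mul p.1).add measurable_const)).sub
      (measurable_fst.mul measurable_snd))
  rw [lintegral_lintegral_swap]
  · apply lintegral_mono
    intro x
    beta_reduce
    have hg1 : Measurable (fun β : ℝ => G ν (p.1 * x + p.2 - β * x)) :=
      (meas_G ν).comp (measurable_const.sub (measurable_id.mul measurable_const))
    have hg2 : Measurable (fun β : ℝ => ENNReal.ofReal (G ν (p.1 * x + p.2 - β * x) *
        (1 - G ν (p.1 * x + p.2 - β * x)))) :=
      (hg1.mul (measurable_const.sub hg1)).ennreal_ofReal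
    rw [lintegral_mul_const _ hg2, mass]
    apply mul_le_mul_left
    exact jensen τ hg1 (fun _ => G_nonneg ν _) (fun _ => G_le_one ν _)
  · exact (((hGm.mul (measurable_const.sub hGm)).ennreal_ofReal).mul
      (hΦ.comp measurable_snd)).aemeasurable

end Pool.Agent.Helper31K9.SR
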