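import Pool.Agent.Helper31K9.SR.St5
import Pool.Agent.Helper31K9.SR.Rat

/-!
# The leaf RAT of project SR, weaker condition
-/

set_option autoImplicit false

namespace Pool.Agent.Helper31K9.SR

open Finset MeasureTheory Filter Topology
open Pool.Agent.H189R2.Iid
open scoped ENNReal

namespace RatL

/-- Jensen's inequality for `t (1 - t) + e` -/
theorem jensenE (τ : Measure ℝ) [IsProbabilityMeasure τ] {g : ℝ → ℝ} (hg : Measurable g)
    (h0 : ∀ t, 0 ≤ g t) (h1 : ∀ t, g t ≤ 1) {e : ℝ} (he : 0 ≤ e) :
    ∫⁻ t, ENNReal.ofReal (g t * (1 - g t) + e) ∂τ ≤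
      ENNReal.ofReal ((∫ t, g t ∂τ) * (1 - ∫ t, g t ∂τ) + e) := by
  have hm0 : 0 ≤ ∫ t, g t ∂τ := integral_nonneg h0
  have hm1 : ∫ t, g t ∂τ ≤ 1 := by
    have hb : ∀ t, ‖g t‖ ≤ 1 := fun t => by rw [Real.norm_of_nonneg (h0 t)]; exact h1 t
    have hi : Integrable g τ := (integrable_const (1:ℝ)).mono' hg.aestronglyMeasurable
      (Eventually.of_forall hb)
    calc ∫ t, g t ∂τ ≤ ∫ _t, (1:ℝ) ∂τ := integral_mono hi (integrable_const _) h1
      _ = 1 := by simp
  have e1 : ∀ t, ENNReal.ofReal (g t * (1 - g t) + e) =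
      ENNReal.ofReal (g t * (1 - g t)) + ENNReal.ofReal e := fun t =>
    ENNReal.ofReal_add (mul_nonneg (h0 t) (by linarith [h1 t])) he
  simp_rw [e1]
  rw [lintegral_add_right _ measurable_const, lintegral_const, measure_univ, mul_one,
    ENNReal.ofReal_add (mul_nonneg hm0 (by linarith)) he]
  exact add_le_add (jensen τ hg h0 h1) le_rfl

end RatL

open RatL in
theorem rate : S_RATe := by
  classical
  intro τ ν s A D e' hτ hν hsup ht hD hA he p hp1 hp2 Φ hΦ
  have hmX : Measurable (fun q : ℝ × ℝ => X2 p q) := measurable_X2 measurable_const measurable_id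
  have hset : MeasurableSet {q : ℝ × ℝ | q.1 < p.1} := measurableSet_lt measurable_fst
    measurable_const
  have hf : Measurable ({q : ℝ × ℝ | q.1 < p.1}.indicator (fun q => Φ (X2 p q))) :=
    (hΦ.comp hmX).indicator hset
  rw [← lintegral_indicator hset, lintegral_prod _ hf.aemeasurable]
  -- the inner integral
  have hin : ∀ᵐ β ∂τ, ∫⁻ b, {q : ℝ × ℝ | q.1 < p.1}.indicator (fun q => Φ (X2 p q)) (β, b) ∂ν ≤
      ENNReal.ofReal (A * D) * ∫⁻ x, ENNReal.ofReal
        (G ν (p.1 * x + p.2 - β * x) * (1 - G ν (p.1 * x + p.2 - β * x)) + e') * Φ x := by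
    filter_upwards [hsup] with β hβ
    by_cases h : β < p.1
    · have e : ∀ b, {q : ℝ × ℝ | q.1 < p.1}.indicator (fun q => Φ (X2 p q)) (β, b) =
          Φ ((b - p.2) / (p.1 - β)) := by
        intro b
        rw [Set.indicator_of_mem (show (β, b) ∈ {q : ℝ × ℝ | q.1 < p.1} from h)]
        rfl
      simp_rw [e]
      set r := p.1 - β with hr
      have hr0 : 0 < r := by rw [hr]; linarith
      have hrA : r ≤ A := by rw [hr]; linarith [hβ.1]
      have hm2 : Measurable (fun b : ℝ => Φ ((b - p.2) / r)) :=
        hΦ.comp ((measurable_id.sub measurable_const).div measurable_const)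
      have hmd : Measurable (fun t => ENNReal.ofReal
          (D * ((ν (Set.Iio t)).toReal * (1 - (ν (Set.Iio t)).toReal) + e'))) := by
        have h1 := meas_G ν
        exact (((h1.mul (measurable_const.sub h1)).add_const e').const_mul D).ennreal_ofReal
      calc ∫⁻ b, Φ ((b - p.2) / r) ∂ν
          ≤ ∫⁻ b, Φ ((b - p.2) / r) ∂(volume.withDensity (fun t => ENNReal.ofReal
              (D * ((ν (Set.Iio t)).toReal * (1 - (ν (Set.Iio t)).toReal) + e')))) :=
            lintegral_mono' ht le_rfl
        _ = ∫⁻ b, ENNReal.ofReal (D * (G ν b * (1 - G ν b) + e')) * Φ ((b - p.2) / r) := by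
            rw [lintegral_withDensity_eq_lintegral_mul _ hmd hm2]
            rfl
        _ = ENNReal.ofReal r * ∫⁻ x, ENNReal.ofReal (D * (G ν (p.2 + r * x) *
              (1 - G ν (p.2 + r * x)) + e')) * Φ x := by
            have hmh : Measurable (fun b : ℝ => ENNReal.ofReal (D * (G ν b * (1 - G ν b) + e')) *
                Φ ((b - p.2) / r)) := hmd.mul hm2
            rw [subst (b := p.2) hr0 hmh]
            congr 1
            apply lintegral_congr
            intro x
            have e2 : (p.2 + r * x - p.2) / r = x := by field_simp; ring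
            simp only [e2]
        _ ≤ ENNReal.ofReal A * ∫⁻ x, ENNReal.ofReal (D * (G ν (p.2 + r * x) *
              (1 - G ν (p.2 + r * x)) + e')) * Φ x := mul_le_mul_left (ENNReal.ofReal_le_ofReal hrA) _
        _ = _ := by
            rw [ENNReal.ofReal_mul hA, mul_assoc]
            congr 1
            rw [← lintegral_const_mul' _ _ ENNReal.ofReal_ne_top]
            apply lintegral_congr
            intro x
            have e3 : p.2 + r * x = p.1 * x + p.2 - β * x := by rw [hr]; ring
            rw [e3, ENNReal.ofReal_mul hD, mul_assoc]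
    · have e : ∀ b, {q : ℝ × ℝ | q.1 < p.1}.indicator (fun q => Φ (X2 p q)) (β, b) = 0 := by
        intro b
        rw [Set.indicator_of_notMem]
        exact h
      simp_rw [e]
      rw [lintegral_zero]
      exact zero_le
  refine (lintegral_mono_ae hin).trans ?_
  rw [lintegral_const_mul' _ _ ENNReal.ofReal_ne_top]
  apply mul_le_mul_right
  have hGm : Measurable (fun z : ℝ × ℝ => G ν (p.1 * z.2 + p.2 - z.1 * z.2)) :=
    (meas_G ν).comp ((((measurable_snd.const_mul p.1).add measurable_const)).sub
      (measurable_fst.mul measurable_snd))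
  rw [lintegral_lintegral_swap]
  · apply lintegral_mono
    intro x
    beta_reduce
    have hg1 : Measurable (fun β : ℝ => G ν (p.1 * x + p.2 - β * x)) :=
      (meas_G ν).comp (measurable_const.sub (measurable_id.mul measurable_const))
    have hg2 : Measurable (fun β : ℝ => ENNReal.ofReal (G ν (p.1 * x + p.2 - β * x) *
        (1 - G ν (p.1 * x + p.2 - β * x)) + e')) :=
      ((hg1.mul (measurable_const.sub hg1)).add_const e').ennreal_ofReal
    rw [lintegral_mul_const _ hg2, mass]
    apply mul_le_mul_left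
    exact jensenE τ hg1 (fun _ => G_nonneg ν _) (fun _ => G_le_one ν _) he
  · exact ((((hGm.mul (measurable_const.sub hGm)).add_const e').ennreal_ofReal).mul
      (hΦ.comp measurable_snd)).aemeasurable

end Pool.Agent.Helper31K9.SR
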