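import Pool.Agent.Helper31K9.SR.Law
import Pool.Agent.Helper31K9.SR.Gp
import Pool.Agent.Helper31K9.SR.St3

/-!
# The leaf RNK of project SR
-/

set_option autoImplicit false

namespace Pool.Agent.Helper31K9.SR

open Finset MeasureTheory Filter Topology
open Pool.Agent.H189R2.Lev (ht cr pi_update)
open Pool.Agent.H189R2.Iid
open scoped ENNReal

namespace RnkL

variable {n : ℕ}

/-- height at `x` -/
def hh (x : ℝ) (p : ℝ × ℝ) : ℝ := p.1 * x + p.2

theorem meas_hh (x : ℝ) : Measurable (hh x) :=
  (measurable_fst.mul_const x).add measurable_snd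

/-- the lines below the line `i` at `x` -/
def RS (x : ℝ) (i : Fin n) : RandSet n (univ \ {i}) (ℝ × ℝ) where
  Lo P y := hh x y < hh x (P i)
  meas := measurableSet_lt ((meas_hh x).comp measurable_snd)
    ((meas_hh x).comp ((measurable_pi_apply i).comp measurable_fst))
  inv := by
    intro l hl P y z
    have hli : i ≠ l := by
      intro h
      rw [← h] at hl
      simp at hl
    rw [Function.update_of_ne hli]

theorem pr_cont (μ : Fin n → Measure (ℝ × ℝ)) (hp : ∀ l, IsProbabilityMeasure (μ l)) (x : ℝ)
    (l : Fin n) : Measurable (fun p : ℝ × ℝ => pr μ x (p.1 * x + p.2) l) := by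
  have := hp l
  have h : MeasurableSet {w : (ℝ × ℝ) × (ℝ × ℝ) | hh x w.2 < hh x w.1} :=
    measurableSet_lt ((meas_hh x).comp measurable_snd) ((meas_hh x).comp measurable_fst)
  exact (measurable_measure_prodMk_left (ν := μ l) h).ennreal_toReal

theorem meas_pb (U : Finset (Fin n)) (k : ℕ) {Y : Type*} [MeasurableSpace Y] {f : Y → Fin n → ℝ}
    (hf : ∀ l, Measurable (fun y => f y l)) : Measurable (fun y => pb U (f y) k) := by
  unfold pb
  exact Finset.measurable_sum _ (fun A _ => (Finset.measurable_prod A (fun l _ => hf l)).mul
    (Finset.measurable_prod (U \ A) (fun l _ => measurable_const.sub (hf l))))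

theorem no_tie (μ : Fin n → Measure (ℝ × ℝ)) (hp : ∀ l, IsProbabilityMeasure (μ l))
    (hLN : ∀ l, LN (μ l)) (x : ℝ) : ∀ᵐ P ∂Measure.pi μ, ∀ i j, i ≠ j → hh x (P i) ≠ hh x (P j) := by
  rw [ae_all_iff]; intro i
  rw [ae_all_iff]; intro j
  by_cases hij : i = j
  · exact Eventually.of_forall (fun _ h => absurd hij h)
  · have : ∀ᵐ P ∂Measure.pi μ, hh x (P i) ≠ hh x (P j) := by
      rw [ae_iff]
      simp only [ne_eq, not_not]
      apply GpL.null_coord i (measurableSet_eq_fun ((meas_hh x).comp (measurable_pi_apply i))
        ((meas_hh x).comp (measurable_pi_apply j)))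
      intro P
      refine measure_mono_null ?_ (hLN i x 1 (hh x (P j)) (Or.inr one_ne_zero))
      intro y hy
      have hy' : hh x (Function.update P i y i) = hh x (Function.update P i y j) := hy
      rw [Function.update_self, Function.update_of_ne (Ne.symm hij)] at hy'
      show x * y.1 + 1 * y.2 = hh x (P j)
      rw [← hy']
      unfold hh
      ring
    filter_upwards [this] with P hP _
    exact hP

end RnkL

open RnkL in
theorem rnk : S_RNK := by
  classical
  intro n μ hp hLN x k
  have hev : ∀ i : Fin n, ∫⁻ p, ENNReal.ofReal (pb (univ \ {i}) (pr μ x (p.1 * x + p.2)) k) ∂μ i =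
      Measure.pi μ {P | (RS x i).cnt P = k} := by
    intro i
    have h := LawL.binomial (RS x i) μ (B := Set.univ) MeasurableSet.univ
      (fun _ _ _ _ => Iff.rfl) k
    have e : {P | P ∈ Set.univ ∧ (RS x i).cnt P = k} = {P | (RS x i).cnt P = k} := by
      ext P; simp
    rw [e] at h
    rw [h, Measure.restrict_univ]
    have hm : Measurable (fun p : ℝ × ℝ =>
        ENNReal.ofReal (pb (univ \ {i}) (pr μ x (p.1 * x + p.2)) k)) :=
      (meas_pb _ k (pr_cont μ hp x)).ennreal_ofReal
    rw [← (measurePreserving_eval μ i).lintegral_comp hm]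
    rfl
  have hms : ∀ i : Fin n, MeasurableSet {P : Fin n → ℝ × ℝ | (RS x i).cnt P = k} := by
    intro i
    have h1 : Measurable (fun P : Fin n → ℝ × ℝ => (RS x i).cnt P) := by
      have : (fun P : Fin n → ℝ × ℝ => (RS x i).cnt P) =
          fun P => ∑ l ∈ univ \ {i}, if hh x (P l) < hh x (P i) then 1 else 0 := by
        funext P
        unfold RandSet.cnt
        rw [card_filter]
        rfl
      rw [this]
      exact Finset.measurable_sum _ (fun l _ => Measurable.ite
        (measurableSet_lt ((meas_hh x).comp (measurable_pi_apply l))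
          ((meas_hh x).comp (measurable_pi_apply i))) measurable_const measurable_const)
    exact h1 (measurableSet_singleton k)
  simp_rw [hev]
  have h2 := lintegral_card (Measure.pi μ) (fun i : Fin n => {P | (RS x i).cnt P = k}) hms
  rw [← h2]
  calc ∫⁻ P, ((univ.filter (fun i => P ∈ {P | (RS x i).cnt P = k})).card : ℝ≥0∞) ∂Measure.pi μ
      ≤ ∫⁻ _P : Fin n → ℝ × ℝ, 1 ∂Measure.pi μ := by
        apply lintegral_mono_ae
        filter_upwards [no_tie μ hp hLN x] with P hP
        have h3 : (univ.filter (fun i => P ∈ {P | (RS x i).cnt P = k})).card ≤ 1 := by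
          rw [card_le_one]
          intro i hi j hj
          rw [mem_filter] at hi hj
          have hi2 : (RS x i).cnt P = k := hi.2
          have hj2 : (RS x j).cnt P = k := hj.2
          by_contra hij
          have key : ∀ u v : Fin n, u ≠ v → hh x (P u) < hh x (P v) →
              (RS x u).cnt P < (RS x v).cnt P := by
            intro u v huv hlt
            unfold RandSet.cnt
            apply card_lt_card
            rw [Finset.ssubset_iff_of_subset]
            · refine ⟨u, ?_, ?_⟩
              · rw [mem_filter]
                exact ⟨by simpa using huv, hlt⟩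
              · rw [mem_filter]
                rintro ⟨_, h⟩
                exact lt_irrefl _ h
            · intro l hl
              rw [mem_filter] at hl ⊢
              have hl2 : hh x (P l) < hh x (P u) := hl.2
              refine ⟨?_, hl2.trans hlt⟩
              simp only [Finset.mem_sdiff, Finset.mem_univ, mem_singleton, true_and]
              intro h
              rw [h] at hl2
              exact lt_irrefl _ (hl2.trans hlt)
          rcases lt_or_gt_of_ne (hP i j hij) with h | h
          · have := key i j hij h
            omega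
          · have := key j i (Ne.symm hij) h
            omega
        calc (((univ.filter (fun i => P ∈ {P | (RS x i).cnt P = k})).card : ℕ) : ℝ≥0∞)
            ≤ ((1:ℕ) : ℝ≥0∞) := by exact_mod_cast h3
          _ = 1 := by simp
    _ = 1 := by rw [lintegral_const, measure_univ, mul_one]

end Pool.Agent.Helper31K9.SR
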