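import Pool.Agent.Helper31K9.SR.St2

/-!
# The contaminated arrangement is almost surely simple (project SR, leaf SIM)
-/

set_option autoImplicit false

namespace Pool.Agent.Helper31K9.SR

open Finset MeasureTheory Filter Topology
open Pool.Agent.H189R2.Lev (ht cr pi_update)
open Pool.Agent.H189R2.Iid
open Pool.Agent.Results.MP_a08d0a_co.IidLevel (Simple level psi sl ic)
open scoped ENNReal

namespace SimL

theorem prob_mix {n : ℕ} (ν : Fin n → Measure (ℝ × ℝ)) (μ₀ : Measure (ℝ × ℝ)) (δ : ℝ)
    (hν : ∀ l, IsProbabilityMeasure (ν l)) (hμ : IsProbabilityMeasure μ₀) (h0 : 0 < δ)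
    (h1 : δ ≤ 1) (l : Fin n) : IsProbabilityMeasure (mix δ ν μ₀ l) := by
  constructor
  unfold mix
  rw [Measure.add_apply, Measure.smul_apply, Measure.smul_apply, (hν l).measure_univ,
    measure_univ, smul_eq_mul, smul_eq_mul, mul_one, mul_one, ← ENNReal.ofReal_add (by linarith)
    h0.le]
  simp

/-- an event that is null in one coordinate is null -/
theorem null_coord {X : Type*} [MeasurableSpace X] {n : ℕ} {μ : Fin n → Measure X}
    [∀ l, IsProbabilityMeasure (μ l)] (l : Fin n)
    {s : Set (Fin n → X)} (hs : MeasurableSet s)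
    (h : ∀ P, μ l {y | Function.update P l y ∈ s} = 0) :
    Measure.pi μ s = 0 := by
  rw [← lintegral_indicator_one hs, pi_update μ l (measurable_one.indicator hs)]
  have : ∀ P, ∫⁻ y, s.indicator 1 (Function.update P l y) ∂μ l =
      μ l {y | Function.update P l y ∈ s} := by
    intro P
    have h1 : MeasurableSet {y | Function.update P l y ∈ s} := (measurable_update P) hs
    rw [← lintegral_indicator_one h1]
    rfl
  simp [this, h]

/-- a set avoiding the given line and contained in a dual line is null -/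
theorem mix_null {n : ℕ} (b : Fin n → ℝ × ℝ) (μ₀ : Measure (ℝ × ℝ)) (δ : ℝ) (l : Fin n)
    {s t : Set (ℝ × ℝ)} (hs : MeasurableSet s) (hb : b l ∉ s) (hst : s ⊆ t) (ht : μ₀ t = 0) :
    mix δ (fun l => Measure.dirac (b l)) μ₀ l s = 0 := by
  unfold mix
  rw [Measure.add_apply, Measure.smul_apply, Measure.smul_apply, Measure.dirac_apply' _ hs,
    Set.indicator_of_notMem hb, measure_mono_null hst ht]
  simp

end SimL

theorem sim : S_SIM := by
  intro n a B hS μ₀ hμ₀ hLN δ hδ hδ1
  set b : Fin n → ℝ × ℝ := fun l => (a l, B l) with hb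
  set μ : Fin n → Measure (ℝ × ℝ) := mix δ (fun l => Measure.dirac (b l)) μ₀ with hμ
  have hprob : ∀ l, IsProbabilityMeasure (μ l) :=
    SimL.prob_mix _ μ₀ δ (fun l => inferInstance) hμ₀ hδ hδ1
  have m1 : ∀ i : Fin n, Measurable (fun P : Fin n → ℝ × ℝ => P i) := fun i => measurable_pi_apply i
  -- the event of equality
  have h1 : ∀ᵐ P ∂Measure.pi μ, ∀ i j, i ≠ j → P i = P j → P i = b i := by
    rw [ae_all_iff]; intro i
    rw [ae_all_iff]; intro j
    by_cases hij : i = j
    · exact Eventually.of_forall (fun _ h => absurd hij h)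
    · have hms : MeasurableSet {P : Fin n → ℝ × ℝ | P i = P j ∧ P i ≠ b i} :=
        (measurableSet_eq_fun (m1 i) (m1 j)).inter
          (measurableSet_eq_fun (m1 i) measurable_const).compl
      have : ∀ᵐ P ∂Measure.pi μ, ¬ (P i = P j ∧ P i ≠ b i) := by
        rw [ae_iff]
        simp only [not_not]
        apply SimL.null_coord i hms
        intro P
        refine SimL.mix_null b μ₀ δ i ((measurable_update P) hms) ?_
          (t := {y | 1 * y.1 + 0 * y.2 = (P j).1}) ?_ (hLN 1 0 _ (Or.inl one_ne_zero))
        · intro h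
          have h' : Function.update P i (b i) i ≠ b i := h.2
          rw [Function.update_self] at h'
          exact h' rfl
        · intro y hy
          have hy' : Function.update P i y i = Function.update P i y j := hy.1
          rw [Function.update_self, Function.update_of_ne (Ne.symm hij)] at hy'
          show 1 * y.1 + 0 * y.2 = (P j).1
          rw [hy']; ring
      filter_upwards [this] with P hP _ h
      by_contra hne
      exact hP ⟨h, hne⟩
  -- the event of concurrence
  have h2 : ∀ᵐ P ∂Measure.pi μ, ∀ i j l, i ≠ l → j ≠ l → (P i).1 ≠ (P j).1 →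
      (P l).1 * ((P j).2 - (P i).2) + (P l).2 * ((P i).1 - (P j).1) =
        (P i).1 * ((P j).2 - (P i).2) + (P i).2 * ((P i).1 - (P j).1) → P l = b l := by
    rw [ae_all_iff]; intro i
    rw [ae_all_iff]; intro j
    rw [ae_all_iff]; intro l
    by_cases hil : i = l
    · exact Eventually.of_forall (fun _ h => absurd hil h)
    by_cases hjl : j = l
    · exact Eventually.of_forall (fun _ _ h => absurd hjl h)
    have hms : MeasurableSet {P : Fin n → ℝ × ℝ | ((P i).1 ≠ (P j).1 ∧
        (P l).1 * ((P j).2 - (P i).2) + (P l).2 * ((P i).1 - (P j).1) =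
          (P i).1 * ((P j).2 - (P i).2) + (P i).2 * ((P i).1 - (P j).1)) ∧ P l ≠ b l} := by
      refine MeasurableSet.inter (MeasurableSet.inter ?_ ?_) ?_
      · exact (measurableSet_eq_fun (m1 i).fst (m1 j).fst).compl
      · refine measurableSet_eq_fun ?_ ?_
        · exact ((m1 l).fst.mul ((m1 j).snd.sub (m1 i).snd)).add
            ((m1 l).snd.mul ((m1 i).fst.sub (m1 j).fst))
        · exact ((m1 i).fst.mul ((m1 j).snd.sub (m1 i).snd)).add
            ((m1 i).snd.mul ((m1 i).fst.sub (m1 j).fst))
      · exact (measurableSet_eq_fun (m1 l) measurable_const).compl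
    have : ∀ᵐ P ∂Measure.pi μ, ¬ (((P i).1 ≠ (P j).1 ∧
        (P l).1 * ((P j).2 - (P i).2) + (P l).2 * ((P i).1 - (P j).1) =
          (P i).1 * ((P j).2 - (P i).2) + (P i).2 * ((P i).1 - (P j).1)) ∧ P l ≠ b l) := by
      rw [ae_iff]
      simp only [not_not]
      apply SimL.null_coord l hms
      intro P
      by_cases hij : (P i).1 = (P j).1
      · have : {y | Function.update P l y ∈ {P : Fin n → ℝ × ℝ | ((P i).1 ≠ (P j).1 ∧
            (P l).1 * ((P j).2 - (P i).2) + (P l).2 * ((P i).1 - (P j).1) =
            (P i).1 * ((P j).2 - (P i).2) + (P i).2 * ((P i).1 - (P j).1)) ∧ P l ≠ b l}} = ∅ := by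
          rw [Set.eq_empty_iff_forall_notMem]
          rintro y ⟨⟨hy, -⟩, -⟩
          rw [Function.update_of_ne hil, Function.update_of_ne hjl] at hy
          exact hy hij
        rw [this, measure_empty]
      · refine SimL.mix_null b μ₀ δ l ((measurable_update P) hms) ?_
          (t := {y | ((P j).2 - (P i).2) * y.1 + ((P i).1 - (P j).1) * y.2 =
            (P i).1 * ((P j).2 - (P i).2) + (P i).2 * ((P i).1 - (P j).1)}) ?_
          (hLN _ _ _ (Or.inr (sub_ne_zero.2 hij)))
        · intro h
          have h' : Function.update P l (b l) l ≠ b l := h.2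
          rw [Function.update_self] at h'
          exact h' rfl
        · rintro y ⟨⟨-, hy⟩, -⟩
          rw [Function.update_of_ne hil, Function.update_of_ne hjl, Function.update_self] at hy
          show ((P j).2 - (P i).2) * y.1 + ((P i).1 - (P j).1) * y.2 = _
          rw [← hy]; ring
    filter_upwards [this] with P hP _ _ h h'
    by_contra hne
    exact hP ⟨⟨h, h'⟩, hne⟩
  filter_upwards [h1, h2] with P hP1 hP2
  -- no two lines coincide
  have hne : ∀ i j, i ≠ j → P i ≠ P j := by
    intro i j hij h
    have e1 := hP1 i j hij h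
    have e2 := hP1 j i hij.symm h.symm
    rw [e1, e2] at h
    have h' : (a i, B i) = (a j, B j) := h
    exact hS.1 i j hij (congrArg Prod.fst h') (congrArg Prod.snd h')
  refine ⟨?_, ?_⟩
  · intro i j hij h h'
    exact hne i j hij (Prod.ext h h')
  · rintro i j l hij hil hjl ⟨x, e1, e2⟩
    have f1 : (P i).1 * x + (P i).2 = (P j).1 * x + (P j).2 := e1
    have f2 : (P i).1 * x + (P i).2 = (P l).1 * x + (P l).2 := e2
    have hslope : ∀ u v : Fin n, u ≠ v →
        (P u).1 * x + (P u).2 = (P v).1 * x + (P v).2 → (P u).1 ≠ (P v).1 := by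
      intro u v huv h hs
      refine hne u v huv (Prod.ext hs ?_)
      rw [hs] at h
      linarith
    have g : ∀ u v w : Fin n, (P u).1 * x + (P u).2 = (P v).1 * x + (P v).2 →
        (P u).1 * x + (P u).2 = (P w).1 * x + (P w).2 →
        (P w).1 * ((P v).2 - (P u).2) + (P w).2 * ((P u).1 - (P v).1) =
          (P u).1 * ((P v).2 - (P u).2) + (P u).2 * ((P u).1 - (P v).1) := by
      intro u v w h h'
      have s1 : (P v).2 - (P u).2 = ((P u).1 - (P v).1) * x := by linarith
      rw [s1]
      have s2 : (P w).2 = (P u).1 * x + (P u).2 - (P w).1 * x := by linarith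
      rw [s2]; ring
    have bl := hP2 i j l hil hjl (hslope i j hij f1) (g i j l f1 f2)
    have bj := hP2 i l j hij hjl.symm (hslope i l hil f2) (g i l j f2 f1)
    have f3 : (P j).1 * x + (P j).2 = (P l).1 * x + (P l).2 := by rw [← f1, f2]
    have bi := hP2 j l i hij.symm hil.symm (hslope j l hjl f3) (g j l i f3 f1.symm)
    refine hS.2 i j l hij hil hjl ⟨x, ?_, ?_⟩
    · rw [bi, bj] at f1
      exact f1
    · rw [bi, bl] at f2
      exact f2

end Pool.Agent.Helper31K9.SR
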