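import Pool.Agent.Helper31K9.SR.Hiv
import Pool.Agent.Helper31K9.SR.Conta

/-!
# The leaf SMO of project SR
-/

set_option autoImplicit false

namespace Pool.Agent.Helper31K9.SR

open Finset MeasureTheory Filter Topology
open Pool.Agent.H189R2.Lev (ht cr)
open Pool.Agent.H189R2.Iid
open Pool.Agent.Results.MP_a08d0a_co.IidLevel (Simple level psi sl ic)
open scoped ENNReal

namespace SmoL

variable {n : ℕ}

/-- the pairs whose crossing has abscissa in `I` -/
def XI (I : Set ℝ) : Set ((ℝ × ℝ) × (ℝ × ℝ)) := {z | X2 z.1 z.2 ∈ I}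

theorem meas_XI {I : Set ℝ} (hI : MeasurableSet I) : MeasurableSet (XI I) :=
  (measurable_X2 measurable_fst measurable_snd) hI

open Classical in
theorem meas_ev {I : Set ℝ} (hI : MeasurableSet I) (k : ℕ) (q : Fin n × Fin n) :
    MeasurableSet {P : Fin n → ℝ × ℝ | P ∈ Ev2 (XI I) q.1 q.2 ∧ lev P (q.1, q.2) = k} :=
  (meas_Ev2 (meas_XI hI) q.1 q.2).inter ((measurable_lev q) (measurableSet_singleton k))

open Classical in
theorem filter_eq (I : Set ℝ) (k : ℕ) (P : Fin n → ℝ × ℝ) :
    (T P).filter (fun q => lev P q = k ∧ X2 (P q.1) (P q.2) ∈ I) =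
      univ.filter (fun q : Fin n × Fin n =>
        P ∈ {P | P ∈ Ev2 (XI I) q.1 q.2 ∧ lev P (q.1, q.2) = k}) := by
  ext q
  rw [mem_filter, mem_T, mem_filter]
  constructor
  · rintro ⟨h1, h2, h3⟩; exact ⟨mem_univ _, ⟨h1, h3⟩, h2⟩
  · rintro ⟨_, ⟨h1, h3⟩, h2⟩; exact ⟨h1, h2, h3⟩

open Classical in
theorem meas_cnt {I : Set ℝ} (hI : MeasurableSet I) (k : ℕ) :
    Measurable (fun P : Fin n → ℝ × ℝ =>
      (((T P).filter (fun q => lev P q = k ∧ X2 (P q.1) (P q.2) ∈ I)).card : ℝ≥0∞)) := by
  have h1 : (fun P : Fin n → ℝ × ℝ =>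
      (((T P).filter (fun q => lev P q = k ∧ X2 (P q.1) (P q.2) ∈ I)).card : ℝ≥0∞)) =
      fun P => ∑ q : Fin n × Fin n,
        {P : Fin n → ℝ × ℝ | P ∈ Ev2 (XI I) q.1 q.2 ∧ lev P (q.1, q.2) = k}.indicator 1 P := by
    funext P
    rw [filter_eq, card_filter]
    push_cast
    apply sum_congr rfl
    intro q _
    simp [Set.indicator_apply]
  rw [h1]
  exact Finset.measurable_sum _ (fun q _ => measurable_one.indicator (meas_ev hI k q))

open Classical in
theorem E_on (μ : Fin n → Measure (ℝ × ℝ)) {I : Set ℝ} (hI : MeasurableSet I) (k : ℕ) :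
    ∫⁻ P, (((T P).filter (fun q => lev P q = k ∧ X2 (P q.1) (P q.2) ∈ I)).card : ℝ≥0∞)
      ∂Measure.pi μ = ∑ q ∈ (univ : Finset (Fin n)).offDiag, Measure.pi μ
        {P | P ∈ Ev2 (XI I) q.1 q.2 ∧ lev P (q.1, q.2) = k} := by
  simp_rw [filter_eq]
  rw [lintegral_card (Measure.pi μ) (fun q : Fin n × Fin n =>
    {P | P ∈ Ev2 (XI I) q.1 q.2 ∧ lev P (q.1, q.2) = k}) (fun q => meas_ev hI k q)]
  symm
  apply sum_subset (subset_univ _)
  intro q _ hq
  rw [mem_offDiag] at hq
  simp only [mem_univ, true_and, not_not] at hq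
  have : {P : Fin n → ℝ × ℝ | P ∈ Ev2 (XI I) q.1 q.2 ∧ lev P (q.1, q.2) = k} = ∅ := by
    ext P
    constructor
    · rintro ⟨h1, _⟩
      have := h1.1
      rw [hq] at this
      exact absurd this (lt_irrefl _)
    · intro h; exact absurd h (Set.notMem_empty _)
  rw [this, measure_empty]

theorem lev_add_two {P : Fin n → ℝ × ℝ} {q : Fin n × Fin n} (hq : q ∈ T P) : lev P q + 2 ≤ n := by
  classical
  rw [mem_T] at hq
  have hne : q.1 ≠ q.2 := by
    intro h
    rw [h] at hq
    exact lt_irrefl _ hq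
  have h1 : (univ.filter (fun l => P l ∈ low (P q.1) (P q.2))) ⊆
      (univ.erase q.1).erase q.2 := by
    intro l hl
    rw [mem_filter] at hl
    rw [mem_erase, mem_erase]
    refine ⟨?_, ?_, mem_univ _⟩
    · intro h; rw [h] at hl; exact snd_notMem_low hq hl.2
    · intro h; rw [h] at hl; exact fst_notMem_low _ _ hl.2
  have h2 := card_le_card h1
  rw [card_erase_of_mem (by rw [mem_erase]; exact ⟨hne.symm, mem_univ _⟩),
    card_erase_of_mem (mem_univ _), card_univ, Fintype.card_fin] at h2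
  have h3 : 2 ≤ n := by
    have h4 := q.1.isLt
    have h5 := q.2.isLt
    have h6 : (q.1 : ℕ) ≠ q.2 := fun h => hne (Fin.ext h)
    omega
  unfold lev
  have h7 : (univ.filter (fun l => P l ∈ low (P q.1) (P q.2))).card ≤ n - 1 - 1 := h2
  have h8 : (univ.filter (fun l => P l ∈ low (P q.1) (P q.2))).card + 2 ≤ n := by omega
  convert h8

end SmoL

open SmoL Classical in
theorem smo (hlnp : S_LNP) (hgp : S_GP) (hlov : S_LOV) (hhiv : S_HIV) (hpon : S_PON)
    (hopt : S_OPT) : S_SMO := by
  obtain ⟨C, hC, hhiv⟩ := hhiv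
  obtain ⟨C', hC', hopt⟩ := hopt C hC
  refine ⟨2 * C', by positivity, ?_⟩
  intro n τ ν s A D c X hst hD hA hX k hk
  have hLN := hlnp n τ ν s A D hst
  have hprob : ∀ l, IsProbabilityMeasure (two τ ν l) := by
    intro l
    have h1 := hst.1 l
    have h2 := hst.2.1 l
    unfold two
    infer_instance
  have hG := hgp n _ hprob hLN
  obtain ⟨I, hI⟩ : ∃ I : Set ℝ, I = Set.Ioo c (c + X) := ⟨_, rfl⟩
  have hIm : MeasurableSet I := by rw [hI]; exact measurableSet_Ioo
  rw [← hI]
  set μ := two τ ν with hμ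
  set W : ℝ := A * D * X with hW
  have hW0 : 0 < W := by positivity
  -- the bound as a function of the level
  set bd : ℕ → ℝ := fun j => C' * (n * ((j : ℝ) + 1) ^ (1 / 6 : ℝ) +
        (n * ((j : ℝ) + 1) ^ (1 / 3 : ℝ)) ^ (6 / 7 : ℝ) * W ^ (1 / 7 : ℝ)) with hbd
  have hbd0 : ∀ j, 0 ≤ bd j := by intro j; rw [hbd]; positivity
  have hbdm : ∀ j ≤ k, bd j ≤ bd k := by
    intro j hj
    have hjr : (j:ℝ) ≤ k := by exact_mod_cast hj
    rw [hbd]
    simp only
    gcongr
  have hN : ∀ j ≤ k, ∫⁻ P, (((T P).filter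
      (fun q => lev P q = j ∧ X2 (P q.1) (P q.2) ∈ I)).card : ℝ≥0∞) ∂Measure.pi μ ≤
      ENNReal.ofReal (bd k) := by
    intro j hj
    refine le_trans ?_ (ENNReal.ofReal_le_ofReal (hbdm j hj))
    by_cases hjn : j + 2 ≤ n
    · set N := ∫⁻ P, (((T P).filter
        (fun q => lev P q = j ∧ X2 (P q.1) (P q.2) ∈ I)).card : ℝ≥0∞) ∂Measure.pi μ with hNd
      have hdey : N ≤ ENNReal.ofReal (18 * n * ((j : ℝ) + 1) ^ (1 / 3 : ℝ)) := by
        calc N ≤ ∫⁻ _P : Fin n → ℝ × ℝ, ENNReal.ofReal (18 * n * ((j : ℝ) + 1) ^ (1 / 3 : ℝ))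
              ∂Measure.pi μ := by
              apply lintegral_mono_ae
              filter_upwards [hG] with P hP
              have h := Pool.Agent.Y344.KD.window hP {j} (K := j) (by simp)
              rw [card_singleton, Nat.cast_one, Real.one_rpow, mul_one] at h
              have e1 : (T P).filter (fun q => lev P q = j ∧ X2 (P q.1) (P q.2) ∈ I) ⊆
                  Pool.Agent.Y344.KD.EW P {j} := by
                unfold Pool.Agent.Y344.KD.EW
                intro q hq
                rw [mem_filter] at hq ⊢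
                exact ⟨hq.1, mem_singleton.mpr hq.2.1⟩
              rw [← ENNReal.ofReal_natCast]
              apply ENNReal.ofReal_le_ofReal
              refine le_trans ?_ h
              exact_mod_cast card_le_card e1
          _ = _ := by rw [lintegral_const, measure_univ, mul_one]
      have hfin : N ≠ ⊤ := ne_top_of_le_ne_top ENNReal.ofReal_ne_top hdey
      have hE := hopt n j W N.toReal hW0 (by
        have := ENNReal.toReal_mono ENNReal.ofReal_ne_top hdey
        rwa [ENNReal.toReal_ofReal (by positivity)] at this) (by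
        intro v hv1 hv2
        have h1 := hlov n τ ν s A D c X v hst hD.le hA.le hX.le (by linarith) j
        have h2 := hhiv n μ hprob hLN j v hjn hv1 hv2
        have h3 : N ≤ ENNReal.ofReal (C * n * ((j : ℝ) + 1) ^ (1 / 3 : ℝ) / v ^ (1 / 6 : ℝ)) +
            ENNReal.ofReal (4 * A * D * X * v) := by
          rw [hNd, E_on μ hIm j]
          refine le_trans ?_ (add_le_add h2 h1)
          rw [← sum_add_distrib]
          apply sum_le_sum
          intro q _
          refine le_trans (measure_mono ?_) (measure_union_le _ _)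
          rintro P ⟨⟨g1, g2⟩, g3⟩
          rcases le_or_gt v (var μ (X2 (P q.1) (P q.2)) (Y2 (P q.1) (P q.2))) with hv | hv
          · left
            exact ⟨⟨g1, hv⟩, g3⟩
          · right
            have g2' : X2 (P q.1) (P q.2) ∈ Set.Ioo c (c + X) := hI ▸ g2
            exact ⟨⟨g1, g2', hv⟩, g3⟩
        have hv0 : 0 < v := by linarith
        rw [← ENNReal.ofReal_add (by positivity) (by positivity)] at h3
        have h4 := ENNReal.toReal_mono ENNReal.ofReal_ne_top h3
        rw [ENNReal.toReal_ofReal (by positivity)] at h4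
        refine h4.trans (le_of_eq ?_)
        rw [hW]
        ring)
      rw [← ENNReal.ofReal_toReal hfin]
      exact ENNReal.ofReal_le_ofReal hE
    · have hz : ∀ P : Fin n → ℝ × ℝ, (((T P).filter
          (fun q => lev P q = j ∧ X2 (P q.1) (P q.2) ∈ I)).card : ℝ≥0∞) = 0 := by
        intro P
        rw [filter_false_of_mem]
        · simp
        · rintro q hq ⟨h1, _⟩
          have := lev_add_two hq
          omega
      simp_rw [hz]
      rw [lintegral_zero]
      exact zero_le
  calc ∫⁻ P, (psiOn (sl P) (ic P) k I : ℝ≥0∞) ∂Measure.pi μ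
      ≤ ∫⁻ P, ((((T P).filter (fun q => lev P q = k ∧ X2 (P q.1) (P q.2) ∈ I)).card : ℝ≥0∞) +
        (((T P).filter (fun q => lev P q = k - 1 ∧ X2 (P q.1) (P q.2) ∈ I)).card : ℝ≥0∞))
        ∂Measure.pi μ := by
        apply lintegral_mono_ae
        filter_upwards [hG] with P hP
        have h1 := hpon n P hP k hk I
        have h2 : (psiOn (sl P) (ic P) k I : ℝ≥0∞) ≤
            ((((((T P).filter (fun q => lev P q = k ∧ X2 (P q.1) (P q.2) ∈ I)).card +
            (if k = 0 then 0 else
              ((T P).filter (fun q => lev P q = k - 1 ∧ X2 (P q.1) (P q.2) ∈ I)).card) : ℕ) :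
                ℕ∞)) : ℝ≥0∞) := by
          rw [ENat.toENNReal_le]
          convert h1
        refine h2.trans ?_
        rw [ENat.toENNReal_coe]
        split_ifs with h
        · push_cast
          rw [add_zero]
          exact le_self_add
        · push_cast
          exact le_rfl
    _ = _ := lintegral_add_left (meas_cnt hIm k) _
    _ ≤ ENNReal.ofReal (bd k) + ENNReal.ofReal (bd k) :=
        add_le_add (hN k le_rfl) (hN (k - 1) (by omega))
    _ = _ := by
        rw [← ENNReal.ofReal_add (hbd0 k) (hbd0 k)]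
        congr 1
        rw [hbd]
        ring

end Pool.Agent.Helper31K9.SR
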