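import Pool.Agent.Helper31K9.SR.St5
import Pool.Agent.Helper31K9.SR.Smo

/-!
# The leaf SMO of project SR, weaker condition
-/

set_option autoImplicit false

namespace Pool.Agent.Helper31K9.SR

open Finset MeasureTheory Filter Topology
open Pool.Agent.H189R2.Lev (ht cr)
open Pool.Agent.H189R2.Iid
open Pool.Agent.Results.MP_a08d0a_co.IidLevel (Simple level psi sl ic)
open scoped ENNReal

open SmoL Classical in
theorem smoe (hlnp : S_LNPe) (hgp : S_GP) (hlov : S_LOVe) (hhiv : S_HIV) (hpon : S_PON)
    (hopt : S_OPT) : S_SMOe := by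
  obtain ⟨C, hC, hhiv⟩ := hhiv
  obtain ⟨C', hC', hopt⟩ := hopt C hC
  refine ⟨4 * C', by positivity, ?_⟩
  intro n τ ν s A D c X hst hD hA hX k hk
  have hLN := hlnp n τ ν s A D hst
  have hprob : ∀ l, IsProbabilityMeasure (two τ ν l) := by
    intro l
    have h1 := hst.1 l
    have h2 := hst.2.1 l
    unfold two
    infer_instance
  have hG := hgp n _ hprob hLN
  obtain ⟨I, hI⟩ : ∃ I : Set ℝ, I = Set.Ioo c (c + X) := ⟨_, rfl⟩
  have hIm : MeasurableSet I := by rw [hI]; exact measurableSet_Ioo
  rw [← hI]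
  set μ := two τ ν with hμ
  set W : ℝ := 2 * (A * D * X) with hW
  have hW0 : 0 < W := by positivity
  -- the bound as a function of the level
  set bd : ℕ → ℝ := fun j => C' * (n * ((j : ℝ) + 1) ^ (1 / 6 : ℝ) +
        (n * ((j : ℝ) + 1) ^ (1 / 3 : ℝ)) ^ (6 / 7 : ℝ) * W ^ (1 / 7 : ℝ)) with hbd
  have hbd0 : ∀ j, 0 ≤ bd j := by intro j; rw [hbd]; positivity
  have hbdm : ∀ j ≤ k, bd j ≤ bd k := by
    intro j hj
    have hjr : (j:ℝ) ≤ k := by exact_mod_cast hj
    rw [hbd]
    simp only
    gcongr
  have hN : ∀ j ≤ k, ∫⁻ P, (((T P).filter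
      (fun q => lev P q = j ∧ X2 (P q.1) (P q.2) ∈ I)).card : ℝ≥0∞) ∂Measure.pi μ ≤
      ENNReal.ofReal (bd k) := by
    intro j hj
    refine le_trans ?_ (ENNReal.ofReal_le_ofReal (hbdm j hj))
    by_cases hjn : j + 2 ≤ n
    · set N := ∫⁻ P, (((T P).filter
        (fun q => lev P q = j ∧ X2 (P q.1) (P q.2) ∈ I)).card : ℝ≥0∞) ∂Measure.pi μ with hNd
      have hdey : N ≤ ENNReal.ofReal (18 * n * ((j : ℝ) + 1) ^ (1 / 3 : ℝ)) := by
        calc N ≤ ∫⁻ _P : Fin n → ℝ × ℝ, ENNReal.ofReal (18 * n * ((j : ℝ) + 1) ^ (1 / 3 : ℝ))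
              ∂Measure.pi μ := by
              apply lintegral_mono_ae
              filter_upwards [hG] with P hP
              have h := Pool.Agent.Y344.KD.window hP {j} (K := j) (by simp)
              rw [card_singleton, Nat.cast_one, Real.one_rpow, mul_one] at h
              have e1 : (T P).filter (fun q => lev P q = j ∧ X2 (P q.1) (P q.2) ∈ I) ⊆
                  Pool.Agent.Y344.KD.EW P {j} := by
                unfold Pool.Agent.Y344.KD.EW
                intro q hq
                rw [mem_filter] at hq ⊢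
                exact ⟨hq.1, mem_singleton.mpr hq.2.1⟩
              rw [← ENNReal.ofReal_natCast]
              apply ENNReal.ofReal_le_ofReal
              refine le_trans ?_ h
              exact_mod_cast card_le_card e1
          _ = _ := by rw [lintegral_const, measure_univ, mul_one]
      have hfin : N ≠ ⊤ := ne_top_of_le_ne_top ENNReal.ofReal_ne_top hdey
      have hE := hopt n j W N.toReal hW0 (by
        have := ENNReal.toReal_mono ENNReal.ofReal_ne_top hdey
        rwa [ENNReal.toReal_ofReal (by positivity)] at this) (by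
        intro v hv1 hv2
        have h1 := hlov n τ ν s A D c X v hst hD.le hA.le hX.le hv1 j
        have h2 := hhiv n μ hprob hLN j v hjn hv1 hv2
        have h3 : N ≤ ENNReal.ofReal (C * n * ((j : ℝ) + 1) ^ (1 / 3 : ℝ) / v ^ (1 / 6 : ℝ)) +
            ENNReal.ofReal (8 * A * D * X * v) := by
          rw [hNd, E_on μ hIm j]
          refine le_trans ?_ (add_le_add h2 h1)
          rw [← sum_add_distrib]
          apply sum_le_sum
          intro q _
          refine le_trans (measure_mono ?_) (measure_union_le _ _)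
          rintro P ⟨⟨g1, g2⟩, g3⟩
          rcases le_or_gt v (var μ (X2 (P q.1) (P q.2)) (Y2 (P q.1) (P q.2))) with hv | hv
          · left
            exact ⟨⟨g1, hv⟩, g3⟩
          · right
            have g2' : X2 (P q.1) (P q.2) ∈ Set.Ioo c (c + X) := hI ▸ g2
            exact ⟨⟨g1, g2', hv⟩, g3⟩
        have hv0 : 0 < v := by linarith
        rw [← ENNReal.ofReal_add (by positivity) (by positivity)] at h3
        have h4 := ENNReal.toReal_mono ENNReal.ofReal_ne_top h3
        rw [ENNReal.toReal_ofReal (by positivity)] at h4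
        refine h4.trans (le_of_eq ?_)
        rw [hW]
        ring)
      rw [← ENNReal.ofReal_toReal hfin]
      exact ENNReal.ofReal_le_ofReal hE
    · have hz : ∀ P : Fin n → ℝ × ℝ, (((T P).filter
          (fun q => lev P q = j ∧ X2 (P q.1) (P q.2) ∈ I)).card : ℝ≥0∞) = 0 := by
        intro P
        rw [filter_false_of_mem]
        · simp
        · rintro q hq ⟨h1, _⟩
          have := lev_add_two hq
          omega
      simp_rw [hz]
      rw [lintegral_zero]
      exact zero_le
  calc ∫⁻ P, (psiOn (sl P) (ic P) k I : ℝ≥0∞) ∂Measure.pi μ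
      ≤ ∫⁻ P, ((((T P).filter (fun q => lev P q = k ∧ X2 (P q.1) (P q.2) ∈ I)).card : ℝ≥0∞) +
        (((T P).filter (fun q => lev P q = k - 1 ∧ X2 (P q.1) (P q.2) ∈ I)).card : ℝ≥0∞))
        ∂Measure.pi μ := by
        apply lintegral_mono_ae
        filter_upwards [hG] with P hP
        have h1 := hpon n P hP k hk I
        have h2 : (psiOn (sl P) (ic P) k I : ℝ≥0∞) ≤
            ((((((T P).filter (fun q => lev P q = k ∧ X2 (P q.1) (P q.2) ∈ I)).card +
            (if k = 0 then 0 else
              ((T P).filter (fun q => lev P q = k - 1 ∧ X2 (P q.1) (P q.2) ∈ I)).card) : ℕ) :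
                ℕ∞)) : ℝ≥0∞) := by
          rw [ENat.toENNReal_le]
          convert h1
        refine h2.trans ?_
        rw [ENat.toENNReal_coe]
        split_ifs with h
        · push_cast
          rw [add_zero]
          exact le_self_add
        · push_cast
          exact le_rfl
    _ = _ := lintegral_add_left (meas_cnt hIm k) _
    _ ≤ ENNReal.ofReal (bd k) + ENNReal.ofReal (bd k) :=
        add_le_add (hN k le_rfl) (hN (k - 1) (by omega))
    _ ≤ _ := by
        rw [← ENNReal.ofReal_add (hbd0 k) (hbd0 k)]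
        apply ENNReal.ofReal_le_ofReal
        have h17 : W ^ (1 / 7 : ℝ) ≤ 2 * (A * D * X) ^ (1 / 7 : ℝ) := by
          rw [hW, Real.mul_rpow (by norm_num) (by positivity)]
          apply mul_le_mul_of_nonneg_right _ (by positivity)
          calc (2:ℝ) ^ (1 / 7 : ℝ) ≤ 2 ^ (1:ℝ) :=
                Real.rpow_le_rpow_of_exponent_le (by norm_num) (by norm_num)
            _ = 2 := Real.rpow_one 2
        have h18 : (n * ((k : ℝ) + 1) ^ (1 / 3 : ℝ)) ^ (6 / 7 : ℝ) * W ^ (1 / 7 : ℝ) ≤
            (n * ((k : ℝ) + 1) ^ (1 / 3 : ℝ)) ^ (6 / 7 : ℝ) * (2 * (A * D * X) ^ (1 / 7 : ℝ)) :=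
          mul_le_mul_of_nonneg_left h17 (by positivity)
        have h19 : (0:ℝ) ≤ n * ((k : ℝ) + 1) ^ (1 / 6 : ℝ) := by positivity
        rw [hbd]
        simp only
        nlinarith

end Pool.Agent.Helper31K9.SR
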