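import Pool.Agent.Results.MP_a08d0a_co.IidLevel
import Pool.Agent.Y344.KD.Win
import Pool.Agent.Y344.KD.Pert

/-!
# Single levels of independent random lines with different laws: statements (project SR)

`T P`, `lev P q`, `X2`, `Y2`, `low`, `Ev2`, `LN`, `GP`, `ee`, `WA`: `Pool/Agent/H189R2/Iid`.
-/

set_option autoImplicit false

namespace Pool.Agent.Helper31K9.SR

open Finset MeasureTheory Filter Topology
open Pool.Agent.H189R2.Lev (ht cr)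
open Pool.Agent.H189R2.Iid
open Pool.Agent.Results.MP_a08d0a_co.IidLevel (Simple level psi sl ic)
open scoped ENNReal

/-- probability that the `l`-th line passes below the point `(x, y)` -/
noncomputable def pr {n : ℕ} (μ : Fin n → Measure (ℝ × ℝ)) (x y : ℝ) (l : Fin n) : ℝ :=
  (μ l {r | r.1 * x + r.2 < y}).toReal

/-- expected number of lines below the point `(x, y)` -/
noncomputable def mean {n : ℕ} (μ : Fin n → Measure (ℝ × ℝ)) (x y : ℝ) : ℝ :=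
  ∑ l, pr μ x y l

/-- variance of the number of lines below the point `(x, y)` -/
noncomputable def var {n : ℕ} (μ : Fin n → Measure (ℝ × ℝ)) (x y : ℝ) : ℝ :=
  ∑ l, pr μ x y l * (1 - pr μ x y l)

/-- with probability `1 - δ` the law `ν l`, with probability `δ` the common law `μ₀` -/
noncomputable def mix {n : ℕ} (δ : ℝ) (ν : Fin n → Measure (ℝ × ℝ)) (μ₀ : Measure (ℝ × ℝ)) :
    Fin n → Measure (ℝ × ℝ) :=
  fun l => ENNReal.ofReal (1 - δ) • ν l + ENNReal.ofReal δ • μ₀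

/-- probability that exactly `k` of the independent events with probabilities `p l`, `l ∈ U`,
occur -/
noncomputable def pb {n : ℕ} (U : Finset (Fin n)) (p : Fin n → ℝ) (k : ℕ) : ℝ :=
  ∑ A ∈ U.powersetCard k, (∏ l ∈ A, p l) * ∏ l ∈ U \ A, (1 - p l)

/-- the pair `(i, j)` is oriented and its crossing lies where the mean is within `r` of `t` -/
def WS {n : ℕ} (μ : Fin n → Measure (ℝ × ℝ)) (t r : ℝ) (i j : Fin n) : Set (Fin n → ℝ × ℝ) :=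
  {P | P ∈ Ev2 Set.univ i j ∧ |mean μ (X2 (P i) (P j)) (Y2 (P i) (P j)) - t| ≤ r}

/-- [LAW] as `Iid.lev_prob` (copy `Prob.lean` `coord_prod`, `RandSet.binomial` with `μ l`) -/
def S_LAW : Prop := ∀ (n : ℕ) (μ : Fin n → Measure (ℝ × ℝ)), (∀ l, IsProbabilityMeasure (μ l)) →
  ∀ i j : Fin n, i ≠ j → ∀ k : ℕ,
    Measure.pi μ {P | P ∈ Ev2 Set.univ i j ∧ lev P (i, j) = k} ≤
      ∫⁻ P in Ev2 Set.univ i j, ENNReal.ofReal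
        (pb (univ \ {i, j}) (pr μ (X2 (P i) (P j)) (Y2 (P i) (P j))) k) ∂Measure.pi μ

/-- [GP] as `Iid.ae_GP` -/
def S_GP : Prop := ∀ (n : ℕ) (μ : Fin n → Measure (ℝ × ℝ)), (∀ l, IsProbabilityMeasure (μ l)) →
  (∀ l, LN (μ l)) → ∀ᵐ P ∂Measure.pi μ, GP P

/-- [WIN] from `Iid.ee_le`, `Iid.ee_zero` for the average law `(1 / n) ∑ l, μ l` -/
def S_WIN : Prop := ∀ (n : ℕ) (μ : Fin n → Measure (ℝ × ℝ)), (∀ l, IsProbabilityMeasure (μ l)) →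
  (∀ l, LN (μ l)) →
    (∀ t r : ℝ, 0 < r → r ≤ t → t ≤ n →
      ∑ q ∈ (univ : Finset (Fin n)).offDiag, (Measure.pi μ (WS μ t r q.1 q.2)).toReal ≤
        650 * n * (t * r ^ 2) ^ (1 / 3 : ℝ)) ∧
    ∀ t : ℝ, 0 < t →
      ∑ q ∈ (univ : Finset (Fin n)).offDiag, (Measure.pi μ (WS μ 0 t q.1 q.2)).toReal ≤ 4 * n * t

/-- [SUP] `sup` bound for sums of independent indicators -/
def S_SUP : Prop := ∃ C : ℝ, 0 < C ∧ ∀ (n : ℕ) (U : Finset (Fin n)) (p : Fin n → ℝ),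
  (∀ l, 0 ≤ p l ∧ p l ≤ 1) → ∀ k : ℕ, 0 < ∑ l ∈ U, p l * (1 - p l) →
    pb U p k ≤ C / Real.sqrt (∑ l ∈ U, p l * (1 - p l))

/-- [LOC] (by tilting from `S_SUP`) -/
def S_LOC : Prop := ∃ C κ : ℝ, 0 < C ∧ 0 < κ ∧ ∀ (n : ℕ) (p : Fin n → ℝ),
  (∀ l, 0 ≤ p l ∧ p l ≤ 1) → ∀ i j : Fin n, i ≠ j → ∀ k : ℕ,
    (∀ v : ℝ, 1 ≤ v → v ≤ ∑ l, p l * (1 - p l) →
      pb (univ \ {i, j}) p k * Real.sqrt v ≤ C ∧ pb (univ \ {i, j}) p k * |∑ l, p l - k| ≤ C) ∧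
    (((k : ℝ) + 1) / 2 < |∑ l, p l - k| →
      pb (univ \ {i, j}) p k ≤ C * Real.exp (-(κ * (∑ l, p l + k))))

open Classical in
/-- [CNT] expected number of crossings with exactly `k` lines below -/
def S_CNT : Prop := ∃ C : ℝ, 0 < C ∧ ∀ (n : ℕ) (μ : Fin n → Measure (ℝ × ℝ)),
  (∀ l, IsProbabilityMeasure (μ l)) → (∀ l, LN (μ l)) → ∀ (k : ℕ) (v : ℝ), k + 2 ≤ n →
    1 ≤ v → v ≤ k + 1 → (∀ x y : ℝ, |mean μ x y - k| ≤ ((k : ℝ) + 1) / 2 → v ≤ var μ x y) →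
    ∫⁻ P, (((T P).filter (fun q => lev P q = k)).card : ℝ≥0∞) ∂Measure.pi μ ≤
      ENNReal.ofReal (C * n * ((k : ℝ) + 1) ^ (1 / 3 : ℝ) / v ^ (1 / 6 : ℝ))

/-- [ONE] the first theorem -/
def S_ONE : Prop := ∃ C : ℝ, 0 < C ∧ ∀ (n : ℕ) (μ : Fin n → Measure (ℝ × ℝ)),
  (∀ l, IsProbabilityMeasure (μ l)) → (∀ l, LN (μ l)) → ∀ (k : ℕ) (v : ℝ), k < n →
    1 ≤ v → v ≤ k → (∀ x y : ℝ, |mean μ x y - k| ≤ (k : ℝ) / 2 + 1 → v ≤ var μ x y) →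
    ∫⁻ P, (psi (sl P) (ic P) k : ℝ≥0∞) ∂Measure.pi μ ≤
      ENNReal.ofReal (C * n * ((k : ℝ) + 1) ^ (1 / 3 : ℝ) / v ^ (1 / 6 : ℝ))

/-- [HUB] variance of contaminated laws -/
def S_HUB : Prop := ∀ (n : ℕ) (ν : Fin n → ℝ) (m δ : ℝ), (∀ l, 0 ≤ ν l ∧ ν l ≤ 1) → 0 ≤ m →
  m ≤ 1 → 0 < δ → δ ≤ 1 / 2 → ∀ p : Fin n → ℝ, (∀ l, p l = (1 - δ) * ν l + δ * m) →
    δ / 2 * ((∑ l, p l) * (n - ∑ l, p l)) ≤ n * ∑ l, p l * (1 - p l)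

/-- [CON] contaminated laws without atoms -/
def S_CON : Prop := ∃ C : ℝ, 0 < C ∧ ∀ (n : ℕ) (ν : Fin n → Measure (ℝ × ℝ))
  (μ₀ : Measure (ℝ × ℝ)) (δ : ℝ), (∀ l, IsProbabilityMeasure (ν l)) → IsProbabilityMeasure μ₀ →
    (∀ l, LN (ν l)) → LN μ₀ → 0 < δ → δ ≤ 1 → ∀ k < n,
    ∫⁻ P, (psi (sl P) (ic P) k : ℝ≥0∞) ∂Measure.pi (mix δ ν μ₀) ≤
      ENNReal.ofReal (C * n * (((min k (n - 1 - k) : ℕ) + 1 : ℝ) / δ) ^ (1 / 6 : ℝ))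

/-- [LSC] the number of vertices of the level is lower semicontinuous -/
def S_LSC : Prop := ∀ n k : ℕ, k < n →
  LowerSemicontinuous (fun P : Fin n → ℝ × ℝ => psi (sl P) (ic P) k)

/-- [TWO] the second theorem: arbitrary laws -/
def S_TWO : Prop := ∃ C : ℝ, 0 < C ∧ ∀ (n : ℕ) (ν : Fin n → Measure (ℝ × ℝ))
  (μ₀ : Measure (ℝ × ℝ)) (δ : ℝ), (∀ l, IsProbabilityMeasure (ν l)) → IsProbabilityMeasure μ₀ →
    0 < δ → δ ≤ 1 → ∀ k < n,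
    Measurable (fun P : Fin n → ℝ × ℝ => (psi (sl P) (ic P) k : ℝ≥0∞)) ∧
    ∫⁻ P, (psi (sl P) (ic P) k : ℝ≥0∞) ∂Measure.pi (mix δ ν μ₀) ≤
      ENNReal.ofReal (C * n * (((min k (n - 1 - k) : ℕ) + 1 : ℝ) / δ) ^ (1 / 6 : ℝ))

end Pool.Agent.Helper31K9.SR
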