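import Pool.Agent.Helper31K9.SR.St

/-!
# Contaminated arrangements, lower bound: statements (project SR, third theorem)
-/

set_option autoImplicit false

namespace Pool.Agent.Helper31K9.SR

open Finset MeasureTheory Filter Topology
open Pool.Agent.H189R2.Iid
open Pool.Agent.Results.MP_a08d0a_co.IidLevel (Simple level psi sl ic)
open scoped ENNReal

/-- [SIM] the contaminated arrangement is almost surely simple. Proof: for `i ≠ j` the event
`P i = P j` and for distinct `i, j, l` the event that the lines `P i, P j, P l` pass through a common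
point `z` (and are different) are null: given the other coordinates, coordinate `l` lies on a dual
line, which is null for `μ₀` and for the dirac unless `(a l, B l)` passes through `z`; if all three of
the given lines pass through `z`, this contradicts `Simple a B`. (`Iid.null_coord` with `μ l`.) -/
def S_SIM : Prop := ∀ (n : ℕ) (a B : Fin n → ℝ), Simple a B → ∀ μ₀ : Measure (ℝ × ℝ),
  IsProbabilityMeasure μ₀ → LN μ₀ → ∀ δ : ℝ, 0 < δ → δ ≤ 1 →
    ∀ᵐ P ∂Measure.pi (mix δ (fun l => Measure.dirac (a l, B l)) μ₀), Simple (sl P) (ic P)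

/-- [MKV] Markov: at most `2 δ n` lines are replaced with probability at least `1 / 2` -/
def S_MKV : Prop := ∀ (n : ℕ) (b : Fin n → ℝ × ℝ) (μ₀ : Measure (ℝ × ℝ)),
  IsProbabilityMeasure μ₀ → ∀ δ : ℝ, 0 < δ → δ ≤ 1 → ∀ t : ℕ, 0 < t → 2 * δ * n ≤ t →
    (1 / 2 : ℝ≥0∞) ≤ Measure.pi (mix δ (fun l => Measure.dirac (b l)) μ₀)
      {P : Fin n → ℝ × ℝ | {l | P l ≠ b l}.ncard ≤ t} ∧
    MeasurableSet {P : Fin n → ℝ × ℝ | {l | P l ≠ b l}.ncard ≤ t}

/-- [EXP] `D = ⌊1 / (200 δ)⌋ - 1` or so; `D ≥ √(1 / δ)` -/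
def S_EXP : Prop := ∀ D₀ : ℕ, ∃ δ₀ : ℝ, 0 < δ₀ ∧ ∀ δ : ℝ, 0 < δ → δ ≤ δ₀ →
  ∃ D : ℕ, D₀ ≤ D ∧ 200 * δ * (D + 1) ≤ 1 ∧
    (1 / δ) ^ (1 / Real.log (Real.log (1 / δ)) ^ 6) ≤
      (D : ℝ) ^ (1 / Real.log (Real.log (D : ℝ)) ^ 5)

/-- [THR] the third theorem: lower bound for contaminated arrangements, all levels near `n / 2` -/
def S_THR : Prop := ∃ δ₀ : ℝ, 0 < δ₀ ∧ ∀ δ : ℝ, 0 < δ → δ ≤ δ₀ → ∀ n : ℕ, 1 ≤ δ * n →
  ∃ a B : Fin n → ℝ, Simple a B ∧ ∀ μ₀ : Measure (ℝ × ℝ), IsProbabilityMeasure μ₀ → LN μ₀ →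
    ∀ k : ℕ, |(k : ℝ) - n / 2| ≤ δ * n →
      ENNReal.ofReal (n / 16 * (1 / δ) ^ (1 / Real.log (Real.log (1 / δ)) ^ 6)) ≤
        ∫⁻ P, (psi (sl P) (ic P) k : ℝ≥0∞)
          ∂Measure.pi (mix δ (fun l => Measure.dirac (a l, B l)) μ₀)

end Pool.Agent.Helper31K9.SR
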