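import Pool.Agent.Helper31K9.SR.St3

/-!
# Logistic noise is tame (project SR)
-/

set_option autoImplicit false

namespace Pool.Agent.Helper31K9.SR

open MeasureTheory
open scoped ENNReal

/-- [LOG] the logistic law with centre `b` and scale `1 / D` is tame. Proof: `ν` with density
`D g (1 - g)`, `g t = 1 / (1 + exp (-(D (t - b))))`; `g' = D g (1 - g)`, so `ν (Iio t) = g t`. -/
def S_LOG : Prop := ∀ D b : ℝ, 0 < D → ∃ ν : Measure ℝ, IsProbabilityMeasure ν ∧ Tame D ν ∧
  ∀ t : ℝ, (ν (Set.Iio t)).toReal = 1 / (1 + Real.exp (-(D * (t - b))))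

end Pool.Agent.Helper31K9.SR
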