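import Pool.Agent.Helper31K9.SR.St3
import Mathlib.Probability.Distributions.Gaussian.Real

/-!
# Smoothed analysis of a single level, weaker condition on the noise (Gaussian noise)
-/

set_option autoImplicit false

namespace Pool.Agent.Helper31K9.SR

open Finset MeasureTheory Filter Topology
open Pool.Agent.H189R2.Iid
open Pool.Agent.Results.MP_a08d0a_co.IidLevel (Simple level psi sl ic)
open scoped ENNReal

/-- `ν` has a density which is at most `D * (G * (1 - G) + e)`, where `G` is the distribution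
function of `ν` -/
def TameUpTo (e D : ℝ) (ν : Measure ℝ) : Prop :=
  ν ≤ volume.withDensity (fun t => ENNReal.ofReal
    (D * ((ν (Set.Iio t)).toReal * (1 - (ν (Set.Iio t)).toReal) + e)))

/-- [GAU] Gaussian laws. Proof: for `s = |t - b| / σ` the tail is at least
`φ (s) exp (-3 / 2) / (1 + s)` (integrate over `[s, s + 1 / (1 + s)]`), so the density
`φ (s) / σ` is at most `2 exp (3 / 2) (1 + s) / σ * G (1 - G)`; if `s > √(2 log n)`, it is at most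
`1 / (n σ)`. -/
def S_GAU : Prop := ∃ C : ℝ, 0 < C ∧ ∀ (n : ℕ) (b σ : ℝ) (hσ : 0 < σ), 2 ≤ n →
  TameUpTo (1 / n) (C * Real.sqrt (Real.log n) / σ)
    (ProbabilityTheory.gaussianReal b ⟨σ ^ 2, sq_nonneg σ⟩)

/-- the standing assumptions on slopes and intercepts -/
def StdE {n : ℕ} (τ ν : Fin n → Measure ℝ) (s A D : ℝ) : Prop :=
  (∀ l, IsProbabilityMeasure (τ l)) ∧ (∀ l, IsProbabilityMeasure (ν l)) ∧
  (∀ l, ∀ t : ℝ, τ l {t} = 0) ∧ (∀ l, ∀ᵐ t ∂τ l, s ≤ t ∧ t ≤ s + A) ∧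
  (∀ l, TameUpTo (1 / n) D (ν l))

def S_LNPe : Prop := ∀ (n : ℕ) (τ ν : Fin n → Measure ℝ) (s A D : ℝ), StdE τ ν s A D →
  ∀ l, LN (two τ ν l)

def S_RATe : Prop := ∀ (τ ν : Measure ℝ) (s A D e : ℝ), IsProbabilityMeasure τ →
  IsProbabilityMeasure ν → (∀ᵐ t ∂τ, s ≤ t ∧ t ≤ s + A) → TameUpTo e D ν → 0 ≤ D → 0 ≤ A → 0 ≤ e →
  ∀ p : ℝ × ℝ, s ≤ p.1 → p.1 ≤ s + A → ∀ Φ : ℝ → ℝ≥0∞, Measurable Φ →
    ∫⁻ q in {q : ℝ × ℝ | q.1 < p.1}, Φ (X2 p q) ∂(τ.prod ν) ≤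
      ENNReal.ofReal (A * D) * ∫⁻ x, ENNReal.ofReal
        (((τ.prod ν) {r | r.1 * x + r.2 < p.1 * x + p.2}).toReal *
          (1 - ((τ.prod ν) {r | r.1 * x + r.2 < p.1 * x + p.2}).toReal) + e) * Φ x

def S_LOVe : Prop := ∀ (n : ℕ) (τ ν : Fin n → Measure ℝ) (s A D c X v : ℝ), StdE τ ν s A D →
  0 ≤ D → 0 ≤ A → 0 ≤ X → 1 ≤ v → ∀ k : ℕ,
    ∑ q ∈ (univ : Finset (Fin n)).offDiag, Measure.pi (two τ ν)
      {P | P ∈ Ev2 (LowA (two τ ν) c X v) q.1 q.2 ∧ lev P (q.1, q.2) = k} ≤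
      ENNReal.ofReal (8 * A * D * X * v)

def S_SMOe : Prop := ∃ C : ℝ, 0 < C ∧ ∀ (n : ℕ) (τ ν : Fin n → Measure ℝ) (s A D c X : ℝ),
  StdE τ ν s A D → 0 < D → 0 < A → 0 < X → ∀ k < n,
    ∫⁻ P, (psiOn (sl P) (ic P) k (Set.Ioo c (c + X)) : ℝ≥0∞) ∂Measure.pi (two τ ν) ≤
      ENNReal.ofReal (C * (n * ((k : ℝ) + 1) ^ (1 / 6 : ℝ) +
        (n * ((k : ℝ) + 1) ^ (1 / 3 : ℝ)) ^ (6 / 7 : ℝ) * (A * D * X) ^ (1 / 7 : ℝ)))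

def S_FOUe : Prop := ∃ C : ℝ, 0 < C ∧ ∀ (n : ℕ) (a : Fin n → ℝ) (ν : Fin n → Measure ℝ)
  (A D c X : ℝ), (∀ l, IsProbabilityMeasure (ν l)) → (∀ l, TameUpTo (1 / n) D (ν l)) → 0 < D →
  0 < A → 0 < X → (∀ i j, a i - a j ≤ A) → ∀ k < n,
    Measurable (fun B : Fin n → ℝ => (psiOn a B k (Set.Ioo c (c + X)) : ℝ≥0∞)) ∧
    ∫⁻ B, (psiOn a B k (Set.Ioo c (c + X)) : ℝ≥0∞) ∂Measure.pi ν ≤
      ENNReal.ofReal (C * (n * ((k : ℝ) + 1) ^ (1 / 6 : ℝ) +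
        (n * ((k : ℝ) + 1) ^ (1 / 3 : ℝ)) ^ (6 / 7 : ℝ) * (A * D * X) ^ (1 / 7 : ℝ)))

end Pool.Agent.Helper31K9.SR
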