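import Pool.Agent.Helper31K9.SR.St

/-!
# Supremum bound for sums of independent indicators (project SR, leaf SUP)
-/

set_option autoImplicit false

namespace Pool.Agent.Helper31K9.SR

open Finset Polynomial

namespace SupL

/-- `(1 / 2 + X / 2) ^ t` -/
noncomputable def qq (t : ℕ) : Polynomial ℝ := (C (1 / 2 : ℝ) * (1 + X)) ^ t

/-- generating function of the sum of the indicators in `U` -/
noncomputable def gp {n : ℕ} (U : Finset (Fin n)) (p : Fin n → ℝ) : Polynomial ℝ :=
  ∏ l ∈ U, (C (p l) * X + C (1 - p l))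

theorem coeff_gp {n : ℕ} (U : Finset (Fin n)) (p : Fin n → ℝ) (k : ℕ) :
    (gp U p).coeff k = pb U p k := by
  classical
  rw [gp, Finset.prod_add, Polynomial.finset_sum_coeff, pb, Finset.powersetCard_eq_filter,
    Finset.sum_filter]
  refine Finset.sum_congr rfl fun A _ => ?_
  have h1 : (∏ l ∈ A, (C (p l) * X)) * ∏ l ∈ U \ A, C (1 - p l) =
      C ((∏ l ∈ A, p l) * ∏ l ∈ U \ A, (1 - p l)) * X ^ A.card := by
    rw [Finset.prod_mul_distrib, Finset.prod_const, map_mul, map_prod, map_prod]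
    ring
  rw [h1, Polynomial.coeff_C_mul, Polynomial.coeff_X_pow]
  by_cases h : A.card = k
  · rw [if_pos h, if_pos h.symm, mul_one]
  · rw [if_neg h, if_neg (fun h' => h h'.symm), mul_zero]

theorem central (n : ℕ) : (n.centralBinom) ^ 2 * (2 * n + 1) ≤ 16 ^ n := by
  induction n with
  | zero => simp [Nat.centralBinom]
  | succ n ih =>
    have h := Nat.succ_mul_centralBinom_succ n
    have h2 : (n + 1) ^ 2 * ((n + 1).centralBinom ^ 2 * (2 * (n + 1) + 1)) ≤
        (n + 1) ^ 2 * 16 ^ (n + 1) := by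
      calc (n + 1) ^ 2 * ((n + 1).centralBinom ^ 2 * (2 * (n + 1) + 1))
          = ((n + 1) * (n + 1).centralBinom) ^ 2 * (2 * n + 3) := by ring
        _ = (2 * (2 * n + 1) * n.centralBinom) ^ 2 * (2 * n + 3) := by rw [h]
        _ = (4 * (2 * n + 1) * (2 * n + 3)) * (n.centralBinom ^ 2 * (2 * n + 1)) := by ring
        _ ≤ (4 * (2 * n + 1) * (2 * n + 3)) * 16 ^ n := Nat.mul_le_mul_left _ ih
        _ ≤ (16 * (n + 1) ^ 2) * 16 ^ n := Nat.mul_le_mul_right _ (by nlinarith)
        _ = (n + 1) ^ 2 * 16 ^ (n + 1) := by ring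
    exact Nat.le_of_mul_le_mul_left h2 (by positivity)

theorem choose_sq (t k : ℕ) : (t.choose k) ^ 2 * (t + 1) ≤ 4 ^ t := by
  have h0 : t.choose k ≤ t.choose (t / 2) := Nat.choose_le_middle k t
  have h1 : (t.choose (t / 2)) ^ 2 * (t + 1) ≤ 4 ^ t := by
    rcases Nat.even_or_odd' t with ⟨n, rfl | rfl⟩
    · have h2 : 2 * n / 2 = n := by omega
      rw [h2]
      have := central n
      rw [Nat.centralBinom] at this
      calc _ ≤ 16 ^ n := this
        _ = 4 ^ (2 * n) := by rw [pow_mul]; norm_num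
    · have h2 : (2 * n + 1) / 2 = n := by omega
      rw [h2]
      have h3 := central (n + 1)
      have h4 : (n + 1).centralBinom = 2 * (2 * n + 1).choose n := by
        rw [Nat.centralBinom, show 2 * (n + 1) = (2 * n + 1) + 1 by ring, Nat.choose_succ_succ]
        have h5 : (2 * n + 1).choose (n + 1) = (2 * n + 1).choose n := by
          apply Nat.choose_symm_of_eq_add
          omega
        rw [Nat.succ_eq_add_one, h5]; ring
      rw [h4] at h3
      have h6 : 4 * (((2 * n + 1).choose n) ^ 2 * (2 * n + 1 + 1)) ≤ 4 * 4 ^ (2 * n + 1) := by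
        calc 4 * (((2 * n + 1).choose n) ^ 2 * (2 * n + 1 + 1))
            ≤ (2 * (2 * n + 1).choose n) ^ 2 * (2 * (n + 1) + 1) := by nlinarith
          _ ≤ 16 ^ (n + 1) := h3
          _ = 4 * 4 ^ (2 * n + 1) := by
              rw [show (16 : ℕ) = 4 ^ 2 by norm_num, ← pow_mul, ← pow_succ']
              congr 1
      omega
  exact (Nat.mul_le_mul_right _ (Nat.pow_le_pow_left h0 2)).trans h1

theorem coeff_qq (t k : ℕ) : (qq t).coeff k ≤ 1 / Real.sqrt (1 + t) := by
  rw [qq, mul_pow, ← C_pow, Polynomial.coeff_C_mul, Polynomial.coeff_one_add_X_pow]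
  have h1 : (0 : ℝ) < 1 + t := by positivity
  rw [le_div_iff₀ (Real.sqrt_pos.2 h1)]
  have h2 := choose_sq t k
  have h3 : ((t.choose k : ℝ)) ^ 2 * (1 + t) ≤ 4 ^ t := by
    have : ((t.choose k : ℝ)) ^ 2 * (t + 1) ≤ 4 ^ t := by exact_mod_cast h2
    linarith
  have h4 : ((1 / 2 : ℝ) ^ t * (t.choose k) * Real.sqrt (1 + t)) ^ 2 ≤ 1 ^ 2 := by
    rw [mul_pow, mul_pow, Real.sq_sqrt h1.le, mul_assoc, ← pow_mul, mul_comm t 2, pow_mul]
    calc ((1 / 2 : ℝ) ^ 2) ^ t * ((t.choose k : ℝ) ^ 2 * (1 + t))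
        ≤ ((1 / 2 : ℝ) ^ 2) ^ t * 4 ^ t := mul_le_mul_of_nonneg_left h3 (by positivity)
      _ = 1 ^ 2 := by rw [← mul_pow]; norm_num
  exact le_of_sq_le_sq h4 (by norm_num)

/-- the inequality of the induction step -/
theorem step {a r : ℝ} (ha : 0 ≤ a) (hr : 0 ≤ r) (hr1 : r ≤ 1) :
    (1 - r) * (1 / Real.sqrt (1 + a)) + r * (1 / Real.sqrt (1 + (a + 1))) ≤
      1 / Real.sqrt (1 + (a + r / 4)) := by
  obtain ⟨s, hs⟩ : ∃ s, s = 1 + a := ⟨_, rfl⟩
  have hs1 : 1 ≤ s := by linarith
  rw [show 1 + (a + 1) = s + 1 by rw [hs]; ring, show 1 + (a + r / 4) = s + r / 4 by rw [hs]; ring,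
    ← hs]
  have hA := Real.sqrt_pos.2 (show (0 : ℝ) < s by linarith)
  have hB := Real.sqrt_pos.2 (show (0 : ℝ) < s + 1 by linarith)
  have hD := Real.sqrt_pos.2 (show (0 : ℝ) < s + r / 4 by linarith)
  have hA2 := Real.sq_sqrt (show (0 : ℝ) ≤ s by linarith)
  have hB2 := Real.sq_sqrt (show (0 : ℝ) ≤ s + 1 by linarith)
  have hD2 := Real.sq_sqrt (show (0 : ℝ) ≤ s + r / 4 by linarith)
  generalize Real.sqrt s = A at *
  generalize Real.sqrt (s + 1) = B at *
  generalize Real.sqrt (s + r / 4) = D at *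
  have hBA : B * A ≤ s + 1 / 2 := by nlinarith [sq_nonneg (B - A)]
  have hDA : D * A ≤ s + r / 8 := by nlinarith [sq_nonneg (D - A)]
  have h1 : 1 / B ≤ (s + 1 / 2) / (A * (s + 1)) := by
    rw [div_le_div_iff₀ hB (by positivity)]
    have h3 : A * (s + 1) = (B * A) * B := by rw [← hB2]; ring
    rw [one_mul, h3]
    exact mul_le_mul_of_nonneg_right hBA hB.le
  have h2 : A / (s + r / 8) ≤ 1 / D := by
    rw [div_le_div_iff₀ (by linarith) hD]
    nlinarith
  have h3 : (1 - r) * (1 / A) + r * ((s + 1 / 2) / (A * (s + 1))) ≤ A / (s + r / 8) := by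
    have h4 : (1 - r) * (1 / A) + r * ((s + 1 / 2) / (A * (s + 1))) =
        (1 - r / (2 * (s + 1))) / A := by
      field_simp
      ring
    have h5 : A / (s + r / 8) = (s / (s + r / 8)) / A := by
      rw [div_div, mul_comm, ← div_div, div_eq_div_iff (by linarith) (by linarith)]
      congr 1
      rw [eq_div_iff hA.ne', ← hA2]; ring
    rw [h4, h5]
    apply div_le_div_of_nonneg_right _ hA.le
    rw [le_div_iff₀ (by linarith)]
    have h6 : (1 - r / (2 * (s + 1))) * (s + r / 8) =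
        s + r / 8 - (r * (s + r / 8)) / (2 * (s + 1)) := by
      field_simp
    rw [h6]
    have h7 : r / 8 ≤ (r * (s + r / 8)) / (2 * (s + 1)) := by
      rw [le_div_iff₀ (by linarith)]
      nlinarith [mul_nonneg hr hr]
    linarith
  calc (1 - r) * (1 / A) + r * (1 / B)
      ≤ (1 - r) * (1 / A) + r * ((s + 1 / 2) / (A * (s + 1))) := by
        have := mul_le_mul_of_nonneg_left h1 hr
        linarith
    _ ≤ A / (s + r / 8) := h3
    _ ≤ 1 / D := h2

theorem main {n : ℕ} (p : Fin n → ℝ) (hp : ∀ l, 0 ≤ p l ∧ p l ≤ 1) (U : Finset (Fin n)) :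
    ∀ t k : ℕ, (gp U p * qq t).coeff k ≤
      1 / Real.sqrt (1 + (t + (∑ l ∈ U, 2 * min (p l) (1 - p l)) / 4)) := by
  classical
  induction U using Finset.induction_on with
  | empty =>
    intro t k
    rw [gp, Finset.prod_empty, one_mul, Finset.sum_empty, zero_div, add_zero]
    exact coeff_qq t k
  | insert l U hl ih =>
    intro t k
    have hq : qq (t + 1) = C (1 / 2 : ℝ) * (1 + X) * qq t := by rw [qq, pow_succ', qq]
    have hg : gp (insert l U) p = (C (p l) * X + C (1 - p l)) * gp U p := by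
      rw [gp, Finset.prod_insert hl, gp]
    have hM : 0 ≤ ∑ x ∈ U, 2 * min (p x) (1 - p x) :=
      Finset.sum_nonneg fun x _ => mul_nonneg zero_le_two
        (le_min (hp x).1 (by linarith [(hp x).2]))
    rw [Finset.sum_insert hl]
    obtain ⟨M, hMd⟩ : ∃ M, M = ∑ x ∈ U, 2 * min (p x) (1 - p x) := ⟨_, rfl⟩
    rw [← hMd] at hM ih ⊢
    have ha : (0 : ℝ) ≤ t + M / 4 := by positivity
    have i1 := ih t k
    have i2 := ih (t + 1) k
    have e2 : (1 : ℝ) + (((t + 1 : ℕ) : ℝ) + M / 4) = 1 + ((t + M / 4) + 1) := by push_cast; ring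
    rw [e2] at i2
    have hpos : 0 ≤ 1 / Real.sqrt (1 + (t + M / 4)) := by positivity
    rcases le_total (p l) (1 - p l) with h | h
    · rw [min_eq_left h]
      have hr := step ha (r := 2 * p l) (by linarith [(hp l).1]) (by linarith)
      have e1 : gp (insert l U) p * qq t =
          C (1 - 2 * p l) * (gp U p * qq t) + C (2 * p l) * (gp U p * qq (t + 1)) := by
        rw [hg, hq]
        have : (C (p l) * X + C (1 - p l) : Polynomial ℝ) =
            C (1 - 2 * p l) + C (2 * p l) * (C (1 / 2 : ℝ) * (1 + X)) := by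
          rw [← mul_assoc, ← C_mul, show 2 * p l * (1 / 2) = p l by ring, mul_add, mul_one,
            show (1 - 2 * p l) = (1 - p l) - p l by ring, C_sub (a := 1 - p l)]
          ring
        rw [this]; ring
      rw [e1, coeff_add, coeff_C_mul, coeff_C_mul]
      have e3 : 1 + ((t : ℝ) + (2 * p l + M) / 4) = 1 + ((t + M / 4) + 2 * p l / 4) := by ring
      rw [e3]
      refine le_trans (add_le_add (mul_le_mul_of_nonneg_left i1 (by linarith))
        (mul_le_mul_of_nonneg_left i2 (by linarith [(hp l).1]))) hr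
    · rw [min_eq_right h]
      have hr := step ha (r := 2 * (1 - p l)) (by linarith [(hp l).2]) (by linarith)
      have e1 : gp (insert l U) p * qq t =
          C (1 - 2 * (1 - p l)) * (X * (gp U p * qq t)) +
            C (2 * (1 - p l)) * (gp U p * qq (t + 1)) := by
        rw [hg, hq]
        have : (C (p l) * X + C (1 - p l) : Polynomial ℝ) =
            C (1 - 2 * (1 - p l)) * X + C (2 * (1 - p l)) * (C (1 / 2 : ℝ) * (1 + X)) := by
          rw [← mul_assoc, ← C_mul, show 2 * (1 - p l) * (1 / 2) = 1 - p l by ring, mul_add,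
            mul_one, show (1 - 2 * (1 - p l)) = p l - (1 - p l) by ring, C_sub (a := p l)]
          ring
        rw [this]; ring
      rw [e1, coeff_add, coeff_C_mul, coeff_C_mul]
      have e3 : 1 + ((t : ℝ) + (2 * (1 - p l) + M) / 4) =
          1 + ((t + M / 4) + 2 * (1 - p l) / 4) := by ring
      rw [e3]
      have i3 : (X * (gp U p * qq t)).coeff k ≤ 1 / Real.sqrt (1 + (t + M / 4)) := by
        cases k with
        | zero => rw [coeff_X_mul_zero]; exact hpos
        | succ k => rw [coeff_X_mul]; exact ih t k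
      refine le_trans (add_le_add (mul_le_mul_of_nonneg_left i3 (by linarith))
        (mul_le_mul_of_nonneg_left i2 (by linarith [(hp l).2]))) hr

end SupL

theorem sup : S_SUP := by
  classical
  refine ⟨2, two_pos, fun n U p hp k hV => ?_⟩
  have h1 := SupL.main p hp U 0 k
  rw [SupL.qq, pow_zero, mul_one, SupL.coeff_gp] at h1
  refine h1.trans ?_
  have h2 : ∑ l ∈ U, p l * (1 - p l) ≤ ∑ l ∈ U, min (p l) (1 - p l) := by
    refine Finset.sum_le_sum fun l _ => le_min ?_ ?_
    · nlinarith [(hp l).1, (hp l).2]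
    · nlinarith [(hp l).1, (hp l).2]
  have h3 : ∑ l ∈ U, 2 * min (p l) (1 - p l) = 2 * ∑ l ∈ U, min (p l) (1 - p l) := by
    rw [Finset.mul_sum]
  rw [h3]
  generalize ∑ l ∈ U, p l * (1 - p l) = V at *
  generalize ∑ l ∈ U, min (p l) (1 - p l) = M at *
  have h4 : V / 4 ≤ 1 + ((0 : ℕ) + 2 * M / 4) := by push_cast; linarith
  have h5 : Real.sqrt (V / 4) = Real.sqrt V / 2 := by
    rw [Real.sqrt_div' V (by norm_num : (0 : ℝ) ≤ 4), show (4 : ℝ) = 2 ^ 2 by norm_num,
      Real.sqrt_sq (by norm_num)]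
  have h6 : 0 < Real.sqrt V := Real.sqrt_pos.2 hV
  calc 1 / Real.sqrt (1 + ((0 : ℕ) + 2 * M / 4)) ≤ 1 / Real.sqrt (V / 4) :=
        one_div_le_one_div_of_le (by rw [h5]; positivity) (Real.sqrt_le_sqrt h4)
    _ = 2 / Real.sqrt V := by rw [h5]; field_simp

end Pool.Agent.Helper31K9.SR
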