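import Pool.Agent.Helper31K9.SR.St2
import Pool.Agent.Helper31K9.SR.Conta
import Pool.Agent.Results.MP_a08d0a_co.StableLevels

/-!
# The leaf THR of project SR
-/

set_option autoImplicit false

namespace Pool.Agent.Helper31K9.SR

open Finset MeasureTheory Filter Topology
open Pool.Agent.H189R2.Iid
open Pool.Agent.Results.MP_a08d0a_co.IidLevel (Simple level psi sl ic)
open scoped ENNReal

theorem thr (hsim : S_SIM) (hmkv : S_MKV) (hexp : S_EXP) : S_THR := by
  classical
  obtain ⟨D₀, hst⟩ := Pool.Agent.Results.MP_a08d0a_co.StableLevels.result.1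
  obtain ⟨δ₁, hδ₁, hexp⟩ := hexp D₀
  refine ⟨min δ₁ 1, lt_min hδ₁ one_pos, ?_⟩
  intro δ h0 h1' n hδn
  have h1 : δ ≤ 1 := h1'.trans (min_le_right _ _)
  obtain ⟨D, hD, hD1, hD2⟩ := hexp δ h0 (h1'.trans (min_le_left _ _))
  have hDr : (0:ℝ) ≤ D := Nat.cast_nonneg D
  have hnr : (0:ℝ) ≤ n := Nat.cast_nonneg n
  have hn200 : 200 * ((D:ℝ) + 1) ≤ n := by
    have e1 : δ * (200 * ((D:ℝ) + 1)) ≤ δ * n := by linarith
    exact le_of_mul_le_mul_left e1 h0
  have hn200' : 200 * (D + 1) ≤ n := by exact_mod_cast hn200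
  -- the numbers
  set k₀ : ℕ := n / 2 with hk₀
  set t : ℕ := k₀ / (32 * (D + 1)) with ht
  set w : ℕ := k₀ / (16 * (D + 1)) with hw
  have hk1 : 16 * (D + 1) ≤ k₀ := by omega
  have hk2 : 2 * k₀ ≤ n := by omega
  have hk3 : n ≤ 2 * k₀ + 1 := by omega
  have hk3r : (n:ℝ) ≤ 2 * k₀ + 1 := by exact_mod_cast hk3
  have hk2r : 2 * (k₀:ℝ) ≤ n := by exact_mod_cast hk2
  have ht1 : (k₀:ℝ) < 32 * (D + 1) * (t + 1) := by
    have h2 : k₀ < 32 * (D + 1) * (t + 1) := by
      have := Nat.lt_mul_div_succ k₀ (by omega : 0 < 32 * (D + 1))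
      exact this
    exact_mod_cast h2
  have hw1 : (k₀:ℝ) < 16 * (D + 1) * (w + 1) := by
    have h2 : k₀ < 16 * (D + 1) * (w + 1) := by
      have := Nat.lt_mul_div_succ k₀ (by omega : 0 < 16 * (D + 1))
      exact this
    exact_mod_cast h2
  have hδ200 : 200 * δ ≤ 1 := by nlinarith
  have ht2 : 2 * δ * n ≤ t := by
    -- multiply by 200 δ
    have e1 : 200 * δ * (k₀:ℝ) ≤ 32 * (t + 1) := by
      have e2 : 200 * δ * (k₀:ℝ) ≤ 200 * δ * (32 * (D + 1) * (t + 1)) :=
        mul_le_mul_of_nonneg_left ht1.le (by positivity)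
      have e3 : 200 * δ * (32 * (D + 1) * (t + 1)) = (200 * δ * (D + 1)) * (32 * ((t:ℝ) + 1)) := by
        ring
      have e4 : (200 * δ * (D + 1)) * (32 * ((t:ℝ) + 1)) ≤ 1 * (32 * ((t:ℝ) + 1)) :=
        mul_le_mul_of_nonneg_right hD1 (by positivity)
      linarith
    nlinarith
  have hw2 : 4 * δ * n ≤ w := by
    have e1 : 200 * δ * (k₀:ℝ) ≤ 16 * (w + 1) := by
      have e2 : 200 * δ * (k₀:ℝ) ≤ 200 * δ * (16 * (D + 1) * (w + 1)) :=
        mul_le_mul_of_nonneg_left hw1.le (by positivity)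
      have e3 : 200 * δ * (16 * (D + 1) * (w + 1)) = (200 * δ * (D + 1)) * (16 * ((w:ℝ) + 1)) := by
        ring
      have e4 : (200 * δ * (D + 1)) * (16 * ((w:ℝ) + 1)) ≤ 1 * (16 * ((w:ℝ) + 1)) :=
        mul_le_mul_of_nonneg_right hD1 (by positivity)
      linarith
    nlinarith
  have ht0 : 0 < t := by
    have : (0:ℝ) < t := by nlinarith
    exact_mod_cast this
  obtain ⟨a, B, hS, hN⟩ := hst D n k₀ hD hk1 hk2
  refine ⟨a, B, hS, ?_⟩
  intro μ₀ hμ hμL k hk
  rw [abs_le] at hk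
  have hwk : (1:ℝ) / 2 ≤ δ * n := by linarith
  have hkl : k₀ ≤ k + w := by
    have : (k₀:ℝ) ≤ k + w := by nlinarith [hk.1]
    exact_mod_cast this
  have hku : k ≤ k₀ + w := by
    have : (k:ℝ) ≤ k₀ + w := by nlinarith [hk.2]
    exact_mod_cast this
  obtain ⟨hE1, hE2⟩ := hmkv n (fun l => (a l, B l)) μ₀ hμ δ h0 h1 t ht0 ht2
  set π := Measure.pi (mix δ (fun l => Measure.dirac (a l, B l)) μ₀) with hπ
  set E : Set (Fin n → ℝ × ℝ) := {P | {l | P l ≠ (a l, B l)}.ncard ≤ t} with hE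
  set v : ℝ := (1 / δ) ^ (1 / Real.log (Real.log (1 / δ)) ^ 6) with hv
  have hv0 : 0 ≤ v := by positivity
  have hge : ∀ᵐ P ∂π, E.indicator (fun _ => ENNReal.ofReal (n / 8 * v)) P ≤
      (psi (sl P) (ic P) k : ℝ≥0∞) := by
    filter_upwards [hsim n a B hS μ₀ hμ hμL δ h0 h1] with P hP
    by_cases hPE : P ∈ E
    · rw [Set.indicator_of_mem hPE]
      have hnear : Pool.Agent.Helper31K9.BU.Near a B (sl P) (ic P) t := by
        have hcard : n ≤ (univ.filter (fun l => P l = (a l, B l))).card + t := by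
          have h3 : {l | P l ≠ (a l, B l)} =
              ((univ.filter (fun l => ¬ P l = (a l, B l)) : Finset (Fin n)) : Set (Fin n)) := by
            ext l; simp
          have h4 : {l | P l ≠ (a l, B l)}.ncard ≤ t := hPE
          rw [h3, Set.ncard_coe_finset] at h4
          have h5 := card_filter_add_card_filter_not (s := (univ : Finset (Fin n)))
            (fun l => P l = (a l, B l))
          rw [card_univ, Fintype.card_fin] at h5
          omega
        refine ⟨univ.filter (fun l => P l = (a l, B l)), id, Function.injective_id.injOn, ?_,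
          hcard, hcard⟩
        intro i hi
        rw [mem_filter] at hi
        unfold sl ic
        simp only [id]
        rw [hi.2]
        exact ⟨rfl, rfl⟩
      obtain ⟨g1, g2⟩ := hN n (sl P) (ic P) hP hnear k hkl hku
      have g3 : psi (sl P) (ic P) k =
          Pool.Agent.Results.MP_a08d0a_co.SmoothedLevel.psi (sl P) (ic P) k := rfl
      rw [g3]
      obtain ⟨m, hm⟩ := ENat.ne_top_iff_exists.mp g1
      rw [← hm] at g2 ⊢
      rw [ENat.toNat_coe] at g2
      rw [ENat.toENNReal_coe, ← ENNReal.ofReal_natCast]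
      apply ENNReal.ofReal_le_ofReal
      refine le_trans ?_ g2
      exact mul_le_mul_of_nonneg_left hD2 (by positivity)
    · rw [Set.indicator_of_notMem hPE]
      exact zero_le
  calc ENNReal.ofReal (n / 16 * v)
      = ENNReal.ofReal (n / 8 * v) * (1 / 2 : ℝ≥0∞) := by
        have : (1 / 2 : ℝ≥0∞) = ENNReal.ofReal (1 / 2) := by
          rw [ENNReal.ofReal_div_of_pos (by norm_num)]; simp
        rw [this, ← ENNReal.ofReal_mul (by positivity)]
        congr 1
        ring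
    _ ≤ ENNReal.ofReal (n / 8 * v) * π E := mul_le_mul_right hE1 _
    _ = ∫⁻ P, E.indicator (fun _ => ENNReal.ofReal (n / 8 * v)) P ∂π := by
        rw [lintegral_indicator_const hE2]
    _ ≤ _ := lintegral_mono_ae hge

end Pool.Agent.Helper31K9.SR
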